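import Pool.Agent.Burn.LC4

/-!
The initial stage: a free group acting on itself with the word metric is in the class.
-/

namespace Burn

namespace Init

open FreeGroup

section lists

variable {β : Type*} [DecidableEq β]

/-- length of the longest common prefix -/
def cp : List β → List β → ℕ
  | a :: l, b :: l' => if a = b then cp l l' + 1 else 0
  | _, _ => 0

theorem cp_nil (l : List β) : cp [] l = 0 := rfl

theorem cp_nil' (l : List β) : cp l [] = 0 := by cases l <;> rfl

theorem cp_ultra : ∀ x y z : List β, min (cp x y) (cp y z) ≤ cp x z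
  | [], y, z => by simp [cp]
  | a :: x, [], z => by simp [cp]
  | a :: x, b :: y, [] => by simp [cp]
  | a :: x, b :: y, c :: z => by
    have ih := cp_ultra x y z
    by_cases h1 : a = b
    · subst h1
      by_cases h2 : a = c
      · subst h2
        simp only [cp, if_true]
        omega
      · simp [cp, h2]
    · simp [cp, h1]

end lists

section words

variable {α : Type} [DecidableEq α]

omit [DecidableEq α] in
theorem invRev_singleton (a : α × Bool) : FreeGroup.invRev [a] = [(a.1, !a.2)] := by
  simp [FreeGroup.invRev]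

theorem isReduced_invRev {L : List (α × Bool)} (h : IsReduced L) :
    IsReduced (FreeGroup.invRev L) := by
  rw [isReduced_iff_reduce_eq] at *
  rw [reduce_invRev, h]

/-- the length of `x⁻¹ y` in terms of common prefixes -/
theorem length_formula : ∀ (L1 L2 : List (α × Bool)), IsReduced L1 → IsReduced L2 →
    (reduce (FreeGroup.invRev L1 ++ L2)).length + 2 * cp L1 L2 = L1.length + L2.length
  | [], L2, _, h2 => by
    simp [cp, h2.reduce_eq]
  | a :: l1, [], h1, _ => by
    rw [cp_nil', List.append_nil, reduce_invRev, h1.reduce_eq, invRev_length]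
    simp
  | a :: l1, b :: l2, h1, h2 => by
    by_cases hab : a = b
    · subst hab
      have h1' : IsReduced l1 := List.IsChain.tail h1
      have h2' : IsReduced l2 := List.IsChain.tail h2
      have ih := length_formula l1 l2 h1' h2'
      have e : reduce (FreeGroup.invRev (a :: l1) ++ a :: l2) =
          reduce (FreeGroup.invRev l1 ++ l2) := by
        apply reduce.sound
        have e1 : FreeGroup.invRev (a :: l1) ++ a :: l2 =
          (FreeGroup.invRev l1 ++ FreeGroup.invRev [a]) ++ ([a] ++ l2) := by
          rw [invRev_cons]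
          simp
        rw [e1]
        simp only [← mul_mk, ← inv_mk]
        group
      rw [e]
      simp only [cp, if_true, List.length_cons]
      omega
    · have hred : IsReduced (FreeGroup.invRev (a :: l1) ++ b :: l2) := by
        have r1 := isReduced_invRev h1
        unfold FreeGroup.IsReduced at *
        rw [List.isChain_append]
        refine ⟨r1, h2, ?_⟩
        intro x hx y hy
        rw [invRev_cons, invRev_singleton] at hx
        simp at hx hy
        subst hx
        subst hy
        intro h3
        simp only at h3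
        by_contra h4
        apply hab
        apply Prod.ext h3
        cases h5 : a.2 <;> cases h6 : b.2 <;> simp_all
      rw [hred.reduce_eq, List.length_append, invRev_length]
      simp [cp, hab]

theorem norm_formula (x y : FreeGroup α) :
    (x⁻¹ * y).norm + 2 * cp x.toWord y.toWord = x.norm + y.norm := by
  unfold FreeGroup.norm
  rw [toWord_mul, toWord_inv]
  exact length_formula _ _ isReduced_toWord isReduced_toWord

end words

variable {α : Type}

open Classical in
/-- word metric -/
noncomputable def wd (x y : FreeGroup α) : ℤ := ((x⁻¹ * y).norm : ℤ)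

theorem wd_left (g x y : FreeGroup α) : wd (g * x) (g * y) = wd x y := by
  unfold wd
  congr 2
  group

open Classical in
/-- the word metric as an integer geodesic metric -/
noncomputable def wordMet (α : Type) : IMet (FreeGroup α) where
  d := wd
  nonneg x y := by unfold wd; positivity
  eq_of_zero x y h := by
    unfold wd at h
    have h1 : (x⁻¹ * y).norm = 0 := by exact_mod_cast h
    rw [FreeGroup.norm_eq_zero] at h1
    exact (inv_mul_eq_one.mp h1)
  self x := by unfold wd; simp
  symm x y := by
    unfold wd
    rw [← norm_inv_eq]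
    congr 2
    group
  tri x y z := by
    unfold wd
    have h := norm_mul_le (x⁻¹ * y) (y⁻¹ * z)
    rw [show x⁻¹ * y * (y⁻¹ * z) = x⁻¹ * z by group] at h
    exact_mod_cast h
  geo x y k h0 hk := by
    unfold wd at *
    obtain ⟨n, rfl⟩ := Int.eq_ofNat_of_zero_le h0
    have hn : n ≤ (x⁻¹ * y).norm := by exact_mod_cast hk
    set L := (x⁻¹ * y).toWord with hL
    have hred : IsReduced L := isReduced_toWord
    have htake : IsReduced (L.take n) := List.IsChain.take hred n
    have hdrop : IsReduced (L.drop n) := List.IsChain.drop hred n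
    have hlen : L.length = (x⁻¹ * y).norm := rfl
    refine ⟨x * FreeGroup.mk (L.take n), ?_, ?_⟩
    · have e : x⁻¹ * (x * FreeGroup.mk (L.take n)) = FreeGroup.mk (L.take n) := by group
      rw [e]
      unfold FreeGroup.norm
      rw [toWord_mk, htake.reduce_eq, List.length_take]
      have : min n L.length = n := by omega
      rw [this]
    · have e1 : x⁻¹ * y = FreeGroup.mk (L.take n) * FreeGroup.mk (L.drop n) := by
        rw [mul_mk, List.take_append_drop, hL, mk_toWord]
      have e : (x * FreeGroup.mk (L.take n))⁻¹ * y = FreeGroup.mk (L.drop n) := by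
        calc (x * FreeGroup.mk (L.take n))⁻¹ * y
            = (FreeGroup.mk (L.take n))⁻¹ * (x⁻¹ * y) := by group
          _ = FreeGroup.mk (L.drop n) := by rw [e1]; group
      rw [e]
      have h3 : (FreeGroup.mk (L.drop n)).norm = L.length - n := by
        unfold FreeGroup.norm
        rw [toWord_mk, hdrop.reduce_eq, List.length_drop]
      rw [h3, hlen]
      push_cast [hn]
      ring

theorem wordMet_d (x y : FreeGroup α) : (wordMet α).d x y = wd x y := rfl

theorem wordMet_inv : (wordMet α).Inv (FreeGroup α) := fun g x y => wd_left g x y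

open Classical in
/-- the word metric satisfies the four point inequality of trees -/
theorem wordMet_hyp : (wordMet α).Hyp 0 := by
  intro x y z w
  -- translate `w` to `1`
  set a := w⁻¹ * x with ha
  set b := w⁻¹ * y with hb
  set c := w⁻¹ * z with hc
  have e1 : (wordMet α).d x y = ((a⁻¹ * b).norm : ℤ) := by
    show wd x y = _
    unfold wd; rw [ha, hb]; congr 2; group
  have e2 : (wordMet α).d z w = (c.norm : ℤ) := by
    show wd z w = _
    unfold wd; rw [hc, ← norm_inv_eq]; congr 2; group
  have e3 : (wordMet α).d x z = ((a⁻¹ * c).norm : ℤ) := by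
    show wd x z = _
    unfold wd; rw [ha, hc]; congr 2; group
  have e4 : (wordMet α).d y w = (b.norm : ℤ) := by
    show wd y w = _
    unfold wd; rw [hb, ← norm_inv_eq]; congr 2; group
  have e5 : (wordMet α).d x w = (a.norm : ℤ) := by
    show wd x w = _
    unfold wd; rw [ha, ← norm_inv_eq]; congr 2; group
  have e6 : (wordMet α).d y z = ((b⁻¹ * c).norm : ℤ) := by
    show wd y z = _
    unfold wd; rw [hb, hc]; congr 2; group
  rw [e1, e2, e3, e4, e5, e6]
  have f1 := norm_formula a b
  have f2 := norm_formula a c
  have f3 := norm_formula b c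
  have hu := cp_ultra a.toWord c.toWord b.toWord
  have hs : ∀ l l' : List (α × Bool), cp l l' = cp l' l := by
    intro l
    induction l with
    | nil => intro l'; rw [cp_nil, cp_nil']
    | cons a l ih =>
      intro l'
      cases l' with
      | nil => rw [cp_nil, cp_nil']
      | cons b l' =>
        simp only [cp]
        rw [ih l']
        by_cases h : a = b
        · simp [h]
        · simp [h, Ne.symm h]
  rw [hs c.toWord b.toWord] at hu
  omega

open Classical in
/-- powers of nontrivial elements are long -/
theorem norm_pow_ge {g : FreeGroup α} (hg : g ≠ 1) (j : ℕ) : j ≤ (g ^ j).norm := by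
  cases j with
  | zero => exact Nat.zero_le _
  | succ j =>
    unfold FreeGroup.norm
    rw [toWord_pow, reduceCyclically.reduce_flatten_replicate_succ isReduced_toWord]
    have hne : reduceCyclically g.toWord ≠ [] := by
      intro h
      have h1 := reduceCyclically.conj_conjugator_reduceCyclically g.toWord
      rw [h, List.append_nil] at h1
      apply hg
      rw [← mk_toWord (x := g), ← h1, ← mul_mk, ← inv_mk, mul_inv_cancel]
    have hlen : 1 ≤ (reduceCyclically g.toWord).length := by
      rcases Nat.eq_zero_or_pos (reduceCyclically g.toWord).length with h | h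
      · exact absurd (List.length_eq_zero_iff.mp h) hne
      · exact h
    simp only [List.length_append, List.length_flatten, List.map_replicate, List.sum_replicate,
      smul_eq_mul]
    nlinarith

theorem wordMet_lox {g : FreeGroup α} (hg : g ≠ 1) {m0 : ℤ} (hm : 1 ≤ m0) :
    (wordMet α).Lox m0 g := by
  classical
  intro x j
  have e : (wordMet α).d x (g ^ j • x) = (((x⁻¹ * g * x) ^ j).norm : ℤ) := by
    show wd x (g ^ j * x) = _
    unfold wd
    have : x⁻¹ * (g ^ j * x) = (x⁻¹ * g * x) ^ j := by
      have h1 := conj_pow (a := x⁻¹) (b := g) (i := j)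
      rw [inv_inv] at h1
      rw [h1]
      group
    rw [this]
  have h1 : x⁻¹ * g * x ≠ 1 := by
    intro h
    apply hg
    calc g = x * (x⁻¹ * g * x) * x⁻¹ := by group
      _ = 1 := by rw [h]; group
  have h2 := norm_pow_ge h1 j
  rw [e]
  have h3 : (j : ℤ) ≤ (((x⁻¹ * g * x) ^ j).norm : ℤ) := by
    exact_mod_cast h2
  nlinarith [Int.natCast_nonneg ((x⁻¹ * g * x) ^ j).norm]

/-- a subgroup generated by two commuting elements of a free group is cyclic -/
theorem common_cyclic {α : Type} {g h : FreeGroup α} (hc : Commute g h) :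
    ∃ z : FreeGroup α, g ∈ Subgroup.zpowers z ∧ h ∈ Subgroup.zpowers z := by
  classical
  set H := Subgroup.closure ({g, h} : Set (FreeGroup α)) with hH
  have hgH : g ∈ H := Subgroup.subset_closure (by simp)
  have hhH : h ∈ H := Subgroup.subset_closure (by simp)
  have hcomm : ∀ a ∈ H, ∀ b ∈ H, a * b = b * a := by
    have h1 : ∀ a ∈ ({g, h} : Set (FreeGroup α)), ∀ b ∈ ({g, h} : Set (FreeGroup α)),
        a * b = b * a := by
      rintro a (rfl | rfl) b (rfl | rfl)
      · rfl
      · exact hc
      · exact hc.symm
      · rfl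
    intro a ha b hb
    have h2 : ∀ a ∈ ({g, h} : Set (FreeGroup α)), ∀ b ∈ H, a * b = b * a := by
      intro a ha b hb
      induction hb using Subgroup.closure_induction with
      | mem b hb => exact h1 a ha b hb
      | one => simp
      | mul b c _ _ hb hc => rw [← mul_assoc, hb, mul_assoc, hc, mul_assoc]
      | inv b _ hb =>
        have : Commute a b := hb
        exact this.inv_right
    induction ha using Subgroup.closure_induction with
    | mem a ha => exact h2 a ha b hb
    | one => simp
    | mul a c _ _ ha hc' => rw [mul_assoc, hc', ← mul_assoc, ha, mul_assoc]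
    | inv a _ ha =>
      have : Commute a b := ha
      exact this.inv_left
  let e := IsFreeGroup.toFreeGroup H
  have hsub : ∀ i j : IsFreeGroup.Generators H, i = j := by
    intro i j
    by_contra hij
    have h1 : FreeGroup.of i * FreeGroup.of j = FreeGroup.of j * FreeGroup.of i := by
      have h2 := hcomm _ (e.symm (FreeGroup.of i)).2 _ (e.symm (FreeGroup.of j)).2
      have h3 : e.symm (FreeGroup.of i) * e.symm (FreeGroup.of j) =
        e.symm (FreeGroup.of j) * e.symm (FreeGroup.of i) := Subtype.ext h2
      rw [← MulEquiv.map_mul, ← MulEquiv.map_mul] at h3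
      exact e.symm.injective h3
    have h2 := congrArg FreeGroup.toWord h1
    simp only [toWord_mul, toWord_of] at h2
    simp at h2
    exact hij h2.1
  -- every element of the free group on a subsingleton is a power of one element
  have key : ∃ z : FreeGroup (IsFreeGroup.Generators H), ∀ w, w ∈ Subgroup.zpowers z := by
    by_cases hne : Nonempty (IsFreeGroup.Generators H)
    · obtain ⟨i⟩ := hne
      refine ⟨FreeGroup.of i, ?_⟩
      intro w
      induction w using FreeGroup.induction_on with
      | C1 => exact Subgroup.one_mem _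
      | of j => rw [hsub j i]; exact Subgroup.mem_zpowers _
      | inv_of j hj => exact Subgroup.inv_mem _ hj
      | mul a b ha hb => exact Subgroup.mul_mem _ ha hb
    · refine ⟨1, ?_⟩
      intro w
      induction w using FreeGroup.induction_on with
      | C1 => exact Subgroup.one_mem _
      | of j => exact absurd ⟨j⟩ hne
      | inv_of j hj => exact Subgroup.inv_mem _ hj
      | mul a b ha hb => exact Subgroup.mul_mem _ ha hb
  obtain ⟨z, hz⟩ := key
  refine ⟨(e.symm z : H), ?_, ?_⟩
  · obtain ⟨k, hk⟩ := Subgroup.mem_zpowers_iff.mp (hz (e ⟨g, hgH⟩))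
    rw [Subgroup.mem_zpowers_iff]
    refine ⟨k, ?_⟩
    have h1 : e.symm z ^ k = ⟨g, hgH⟩ := by
      rw [← _root_.map_zpow e.symm, hk, MulEquiv.symm_apply_apply]
    have h2 := congrArg (Subtype.val) h1
    simpa using h2
  · obtain ⟨k, hk⟩ := Subgroup.mem_zpowers_iff.mp (hz (e ⟨h, hhH⟩))
    rw [Subgroup.mem_zpowers_iff]
    refine ⟨k, ?_⟩
    have h1 : e.symm z ^ k = ⟨h, hhH⟩ := by
      rw [← _root_.map_zpow e.symm, hk, MulEquiv.symm_apply_apply]
    have h2 := congrArg (Subtype.val) h1
    simpa using h2

/-- two elements moving two far points by a small amount commute -/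
theorem commute_of_small {α : Type} {L : ℤ} (hL : 0 ≤ L) {g h x y : FreeGroup α}
    (h1 : (wordMet α).d x (g • x) ≤ L) (h2 : (wordMet α).d y (g • y) ≤ L)
    (h3 : (wordMet α).d x (h • x) ≤ L) (h4 : (wordMet α).d y (h • y) ≤ L)
    (hA : 20 * L + 20 < (wordMet α).d x y) : Commute g h := by
  have hi := wordMet_inv (α := α)
  have hy := wordMet_hyp (α := α)
  obtain ⟨z, hz, _⟩ := (wordMet α).deep_exists x y (10 * L + 10) (10 * L + 10) le_rfl
    (by omega) (by omega)
  have inv_le : ∀ k v : FreeGroup α, (wordMet α).d v (k⁻¹ • v) = (wordMet α).d v (k • v) := by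
    intro k v
    rw [← hi k v, smul_inv_smul, (wordMet α).symm]
  have mul_le : ∀ (k l v : FreeGroup α) (K N : ℤ), (wordMet α).d v (k • v) ≤ K →
      (wordMet α).d v (l • v) ≤ N → (wordMet α).d v ((k * l) • v) ≤ K + N := by
    intro k l v K N hk hl
    have t := (wordMet α).tri v (k • v) ((k * l) • v)
    have e : (wordMet α).d (k • v) ((k * l) • v) = (wordMet α).d v (l • v) := by
      rw [mul_smul, hi]
    omega
  -- additivity of the shift
  have add : ∀ (k l : FreeGroup α) (K N : ℤ), 0 ≤ K → 0 ≤ N → K + N ≤ 5 * L →
      (wordMet α).d x (k • x) ≤ K → (wordMet α).d x (l • x) ≤ N →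
      (wordMet α).d y (l • y) ≤ N →
      (wordMet α).sh x (k * l) z = (wordMet α).sh x k z + (wordMet α).sh x l z := by
    intro k l K N hK hN hKN a1 a2 a3
    have := (wordMet α).sh_mul (g := k) (k := l) (a := 0) hi hy le_rfl a1 a2 a3 hz
      (by omega) le_rfl hK hN
    rw [abs_le] at this
    omega
  have i1 : (wordMet α).d x (g⁻¹ • x) ≤ L := by rw [inv_le]; exact h1
  have i2 : (wordMet α).d y (g⁻¹ • y) ≤ L := by rw [inv_le]; exact h2
  have i3 : (wordMet α).d x (h⁻¹ • x) ≤ L := by rw [inv_le]; exact h3
  have i4 : (wordMet α).d y (h⁻¹ • y) ≤ L := by rw [inv_le]; exact h4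
  have sh1 : (wordMet α).sh x (1 : FreeGroup α) z = 0 := by
    unfold IMet.sh; rw [one_smul]; ring
  have a1 := add g⁻¹ h⁻¹ L L hL hL (by omega) i1 i3 i4
  have a2 := add h (g⁻¹ * h⁻¹) L (L + L) hL (by omega) (by omega) h3
    (mul_le _ _ _ _ _ i1 i3) (mul_le _ _ _ _ _ i2 i4)
  have a3 := add g (h * (g⁻¹ * h⁻¹)) L (L + (L + L)) hL (by omega) (by omega) h1
    (mul_le _ _ _ _ _ h3 (mul_le _ _ _ _ _ i1 i3)) (mul_le _ _ _ _ _ h4
      (mul_le _ _ _ _ _ i2 i4))
  have b1 := add g g⁻¹ L L hL hL (by omega) h1 i1 i2
  have b2 := add h h⁻¹ L L hL hL (by omega) h3 i3 i4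
  rw [mul_inv_cancel, sh1] at b1 b2
  have hsh : (wordMet α).sh x (g * (h * (g⁻¹ * h⁻¹))) z = 0 := by omega
  have hd := (wordMet α).sh_disp (g := g * (h * (g⁻¹ * h⁻¹))) (a := 0) (R := 4 * L) hi hy le_rfl
    (by
      have := mul_le g (h * (g⁻¹ * h⁻¹)) x _ _ h1
        (mul_le _ _ _ _ _ h3 (mul_le _ _ _ _ _ i1 i3))
      omega)
    (by
      have := mul_le g (h * (g⁻¹ * h⁻¹)) y _ _ h2
        (mul_le _ _ _ _ _ h4 (mul_le _ _ _ _ _ i2 i4))
      omega) hz (by omega) le_rfl
  rw [hsh] at hd
  have hzero : (wordMet α).d z ((g * (h * (g⁻¹ * h⁻¹))) • z) = 0 := by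
    have n0 := (wordMet α).nonneg z ((g * (h * (g⁻¹ * h⁻¹))) • z)
    rw [abs_zero] at hd
    omega
  have hfix := (wordMet α).eq_of_zero _ _ hzero
  have h1' : z = (g * (h * (g⁻¹ * h⁻¹))) * z := hfix
  have h2' : g * (h * (g⁻¹ * h⁻¹)) = 1 := by
    have := congrArg (fun t => t * z⁻¹) h1'
    simp only [mul_inv_cancel, mul_assoc, mul_one] at this
    exact this.symm
  show g * h = h * g
  calc g * h = (g * (h * (g⁻¹ * h⁻¹))) * (h * g) := by group
    _ = h * g := by rw [h2', one_mul]

/-- INIT: the free group with its word metric is in the class. -/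
theorem init (α : Type) (n : ℕ) {δ A m0 : ℤ} (hδ : 1 ≤ δ) (hA : 20000 * δ + 20 ≤ A)
    (hm : 1 ≤ m0) : InClass n δ A m0 (FreeGroup α) (wordMet α) where
  inv := wordMet_inv
  hyp := by
    intro x y z w
    rcases wordMet_hyp x y z w with h | h
    · left; omega
    · right; omega
  c3 g hg := Or.inr (wordMet_lox hg hm)
  c4 g h hg hh x y h1 h2 h3 h4 hxy :=
    common_cyclic (commute_of_small (by omega) h1 h2 h3 h4 (by omega))

end Init

end Burn
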