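import Pool.Agent.W_MP_3ab0ed_burn.Thin

/-!
Guess sets of adjacent vertices are bounded.
-/

namespace Burn

namespace Cone

variable {X V : Type*} {Y : V → Set X} {R : ℕ} {d : X → X → ℕ} {y0 : V → X}

/-- `u` is on the column over its projection, which is its base -/
def OnC (d : X → X → ℕ) (y0 : V → X) (C : V) (u : Cone Y R) : Prop :=
  base y0 u ∈ Y C ∧ bC d y0 C u = base y0 u ∧
    ∃ hy : bC d y0 C u ∈ Y C, u = col C (bC d y0 C u) hy (kC C u)

theorem onC_of_pos (hd : IsGeod d) (hF : Fam d Y 2 2) (hy0 : ∀ C, y0 C ∈ Y C) {C : V}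
    {u : Cone Y R} (h : 0 < kC C u) : OnC d y0 C u :=
  ⟨base_mem hy0 h, bC_eq hd hy0 h, bC_mem hF C u, eq_col_bC hd hF hy0 h⟩

theorem onC_pt (hd : IsGeod d) {C : V} {y : X} (hy : y ∈ Y C) :
    OnC d y0 C (pt y : Cone Y R) := by
  have h : bC d y0 C (pt y : Cone Y R) = y := proj_self hd hy
  have hm : bC d y0 C (pt y : Cone Y R) ∈ Y C := by rw [h]; exact hy
  refine ⟨hy, h, hm, ?_⟩
  rw [kC_pt, col_zero, h]

theorem onC_col (hd : IsGeod d) (hF : Fam d Y 2 2) (hy0 : ∀ C, y0 C ∈ Y C) {C : V} {y : X}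
    (hy : y ∈ Y C) (k : ℕ) : OnC d y0 C (col C y hy k : Cone Y R) := by
  cases k with
  | zero => exact onC_pt hd hy
  | succ k =>
    apply onC_of_pos hd hF hy0
    rw [kC_col_self]
    omega

theorem adj_onC (hd : IsGeod d) (hh : Hyp d 2) (hF : Fam d Y 2 2) (hy0 : ∀ C, y0 C ∈ Y C)
    {C : V} {u v : Cone Y R} (hu : OnC d y0 C u) (hv : OnC d y0 C v) (huv : rho d u v ≤ 1)
    (hL : min (LC d y0 C u v) (R + 1) ≤ max (kC C u) (kC C v))
    (hne : ∀ C', C' ≠ C → kC C' u = 0 ∧ kC C' v = 0)
    {a : Cone Y R} (ha : a ∈ Ag d y0 u v) : rho d a u ≤ 1600 := by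
  have hg := isGeod_rho (R := R) (Y := Y) hd hF.ne
  obtain ⟨hu1, hu2, huy, hu3⟩ := hu
  obtain ⟨hv1, hv2, hvy, hv3⟩ := hv
  have kl1 := kC_lip (R := R) (d := d) hd hF.ne C u v
  have kl2 := kC_lip (R := R) (d := d) hd hF.ne C v u
  rw [hg.symm] at kl2
  -- columns above a vertex
  have hcol : ∀ (w : Cone Y R) (hwy : bC d y0 C w ∈ Y C), w = col C (bC d y0 C w) hwy (kC C w) →
      max (kC C u) (kC C v) ≤ kC C w + 1 → ∀ j, kC C w ≤ j → j ≤ LC d y0 C u v →
      rho d (col C (bC d y0 C w) hwy j : Cone Y R) w ≤ 1 := by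
    intro w hwy hw hmax j hj1 hj2
    have e : (col C (bC d y0 C w) hwy j : Cone Y R) = col C (bC d y0 C w) hwy (min j (R + 1)) := by
      rcases le_or_gt j (R + 1) with h | h
      · rw [min_eq_left h]
      · rw [min_eq_right h.le, col_top C _ hwy (by omega), col_top C _ hwy (by omega)]
    have hle := kC_le C w
    have h1 := rho_col_le (R := R) (d := d) C (bC d y0 C w) hwy
      (show kC C w ≤ min j (R + 1) by omega)
    rw [← hw, ← e, hg.symm] at h1
    omega
  rcases ha with rfl | rfl | ⟨p, hp, rfl⟩ | ⟨C', hC', h⟩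
  · rw [hg.self]; norm_num
  · rw [hg.symm]; omega
  · -- shallow points
    obtain ⟨hp1, hp2⟩ := hp
    have hn : Near d (Y C) 49 p := (hF.qc C _ _ p hu1 hv1 hp1).mono (by norm_num)
    by_cases h1 : SC d y0 C u p < 1536
    · have h2 := near_foot (R := R) hd hF h1
      rw [← hu3] at h2
      omega
    · by_cases h3 : SC d y0 C v p < 1536
      · have h2 := near_foot (R := R) hd hF h3
        rw [← hv3] at h2
        have t := hg.tri (pt p) v u
        rw [hg.symm v u] at t
        omega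
      · exact absurd ⟨hp1, hn, not_lt.mp h1, not_lt.mp h3⟩ (hp2 C)
  · by_cases hCC : C' = C
    · subst hCC
      rcases h with ⟨j, hy, hj1, hj2, rfl⟩ | ⟨j, hy, hj1, hj2, rfl⟩
      · exact (hcol u hy hu3 (by omega) j hj1 hj2).trans (by norm_num)
      · have h1 := hcol v hy hv3 (by omega) j hj1 hj2
        have t := hg.tri (col C' (bC d y0 C' v) hy j) v u
        rw [hg.symm v u] at t
        omega
    · -- another horoball is not relevant
      exfalso
      obtain ⟨c1, c2⟩ := hne C' hCC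
      have hD : d (bC d y0 C' u) (bC d y0 C' v) ≤ 512 := by
        by_contra hcon
        have b1 : Btw d 20 (base y0 u) (bC d y0 C' u) (base y0 v) :=
          proj4 hd hh (hF.ne C') (hF.qc C') (base y0 u) (base y0 v) (by
            show 4 * 2 + 5 * 2 + 2 < 2 * d (bC d y0 C' u) (bC d y0 C' v)
            omega)
        have b2 : Btw d 20 (base y0 u) (bC d y0 C' v) (base y0 v) :=
          proj4' hd hh (hF.ne C') (hF.qc C') (base y0 u) (base y0 v) (by
            show 4 * 2 + 5 * 2 + 2 < 2 * d (bC d y0 C' u) (bC d y0 C' v)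
            omega)
        have n1 := near_of_btw_qc hd hh (hF.qc C) hu1 hv1 b1
        have n2 := near_of_btw_qc hd hh (hF.qc C) hu1 hv1 b2
        have := hF.ov C C' (fun h => hCC h.symm) (2 + (20 + 2)) _ _ n1
          ⟨_, bC_mem hF C' u, by rw [hd.self]; norm_num⟩ n2
          ⟨_, bC_mem hF C' v, by rw [hd.self]; norm_num⟩
        omega
      have h1 : Nat.clog 2 (d (bC d y0 C' u) (bC d y0 C' v)) ≤ 9 :=
        Nat.clog_le_of_le_pow (by norm_num; omega)
      have h6 : LC d y0 C' u v = max (max (kC C' u) (kC C' v))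
        (Nat.clog 2 (d (bC d y0 C' u) (bC d y0 C' v))) := rfl
      omega

theorem adj_pt (hd : IsGeod d) (hh : Hyp d 2) (hF : Fam d Y 2 2)
    {x x' : X} (h : d x x' ≤ 1) {a : Cone Y R} (ha : a ∈ Ag d y0 (pt x) (pt x')) :
    rho d a (pt x) ≤ 1600 := by
  have hg := isGeod_rho (R := R) (Y := Y) hd hF.ne
  rcases ha with rfl | rfl | ⟨p, hp, rfl⟩ | ⟨C', hC', _⟩
  · rw [hg.self]; norm_num
  · rw [hg.symm]
    exact (rho_pt_pt hd x x').trans (by omega)
  · have h1 := hp.1
    have h2 : d x p + d p x' = d x x' := h1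
    rw [hg.symm]
    exact (rho_pt_pt hd x p).trans (by omega)
  · exfalso
    have h1 := proj3 hd hh (hF.ne C') (hF.qc C') x x'
    have h2 : Nat.clog 2 (d (bC d y0 C' (pt x : Cone Y R)) (bC d y0 C' (pt x' : Cone Y R))) ≤ 9 :=
      Nat.clog_le_of_le_pow (by
        show d (proj d (Y C') x) (proj d (Y C') x') ≤ 2 ^ 9
        norm_num
        omega)
    have h6 : LC d y0 C' (pt x : Cone Y R) (pt x') = max (max 0 0)
        (Nat.clog 2 (d (bC d y0 C' (pt x : Cone Y R)) (bC d y0 C' (pt x' : Cone Y R)))) := rfl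
    omega

theorem adj_St (hd : IsGeod d) (hh : Hyp d 2) (hF : Fam d Y 2 2) (hy0 : ∀ C, y0 C ∈ Y C)
    {u v : Cone Y R} (h : St d u v) {a : Cone Y R} (ha : a ∈ Ag d y0 u v) :
    rho d a u ≤ 1600 := by
  have huv : rho d u v ≤ 1 := rdist_step (Or.inl h)
  cases h with
  | base h => exact adj_pt hd hh hF h ha
  | @hor C y y' hy hy' k hk h =>
    have o1 : OnC d y0 C (hor C y hy k hk : Cone Y R) := onC_of_pos hd hF hy0 (by simp [kC])
    have o2 : OnC d y0 C (hor C y' hy' k hk : Cone Y R) := onC_of_pos hd hF hy0 (by simp [kC])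
    apply adj_onC hd hh hF hy0 o1 o2 huv _ _ ha
    · have e1 := o1.2.1
      have e2 := o2.2.1
      have h2 : Nat.clog 2 (d (bC d y0 C (hor C y hy k hk : Cone Y R))
          (bC d y0 C (hor C y' hy' k hk : Cone Y R))) ≤ k + 1 := by
        apply Nat.clog_le_of_le_pow
        rw [e1, e2]
        exact h
      have k1 : kC C (hor C y hy k hk : Cone Y R) = k + 1 := by simp [kC]
      have k2 : kC C (hor C y' hy' k hk : Cone Y R) = k + 1 := by simp [kC]
      unfold LC
      omega
    · intro C' hC'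
      simp [kC, Ne.symm hC']
  | @up C y hy k hk =>
    have o1 := onC_col (R := R) (d := d) hd hF hy0 hy k
    have o2 := onC_col (R := R) (d := d) hd hF hy0 hy (k + 1)
    apply adj_onC hd hh hF hy0 o1 o2 huv _ _ ha
    · have k1 := kC_col_self (R := R) C y hy k
      have k2 := kC_col_self (R := R) C y hy (k + 1)
      rcases Nat.lt_or_ge k R with h1 | h1
      · have e1 := o1.2.1
        have e2 := o2.2.1
        rw [base_col _ _ _ _ (by omega)] at e1 e2
        have h2 : Nat.clog 2 (d (bC d y0 C (col C y hy k : Cone Y R))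
          (bC d y0 C (col C y hy (k + 1) : Cone Y R))) = 0 := by
          rw [e1, e2, hd.self]
          simp
        unfold LC
        omega
      · omega
    · intro C' hC'
      exact ⟨kC_col_ne (Ne.symm hC') y hy k, kC_col_ne (Ne.symm hC') y hy (k + 1)⟩

theorem adj (hd : IsGeod d) (hh : Hyp d 2) (hF : Fam d Y 2 2) (hy0 : ∀ C, y0 C ∈ Y C)
    (u v a : Cone Y R) (h : rho d u v ≤ 1) (ha : a ∈ Ag d y0 u v) : rho d a u ≤ 5154 := by
  have hg := isGeod_rho (R := R) (Y := Y) hd hF.ne
  rcases Nat.lt_or_ge (rho d u v) 1 with h0 | h0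
  · -- equal vertices
    have h1 := hg.eq u v (by omega)
    subst h1
    have self_case : ∀ C, 0 < kC C u → rho d a u ≤ 1600 := by
      intro C hC
      have o1 : OnC d y0 C u := onC_of_pos hd hF hy0 hC
      apply adj_onC hd hh hF hy0 o1 o1 h _ _ ha
      · unfold LC
        rw [hd.self]
        simp
      · intro C' hC'
        have : kC C' u = 0 := by
          by_contra h2
          exact hC' (kC_unique (Nat.pos_of_ne_zero h2) hC)
        exact ⟨this, this⟩
    have : rho d a u ≤ 1600 := by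
      cases u with
      | pt x => exact adj_pt hd hh hF (by rw [hd.self]; norm_num) ha
      | hor C y hy k hk => exact self_case C (by simp [kC])
      | apex C => exact self_case C (by simp [kC])
    omega
  · have h1 : Sx d u v := Sx_of_le_one hd hF.ne (by omega)
    rcases h1 with h1 | h1
    · exact (adj_St hd hh hF hy0 h1 ha).trans (by norm_num)
    · rw [Ag_symm hd] at ha
      have h2 := adj_St hd hh hF hy0 h1 ha
      have t := hg.tri a v u
      rw [hg.symm v u] at t
      omega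

end Cone

end Burn
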