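import Pool.Agent.W_MP_3ab0ed_burn.Basic

/-!
Burnside part, piece P3, file 1: passing through a point (every geodesic from `u` to `u'`
contains `c`), elementary facts on the four point condition.
-/

namespace Burn

section
variable {X : Type*} {d : X → X → ℕ} {δ : ℕ}

/-- every geodesic from `u` to `u'` passes through `c` -/
def Pass (d : X → X → ℕ) (u c u' : X) : Prop :=
  d u c + d c u' = d u u' ∧
    ∀ p, d u p + d p u' = d u u' → d u p = d u c → p = c

theorem IsGeod.pos_of_ne (h : IsGeod d) {x y : X} (hxy : x ≠ y) : 0 < d x y := by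
  rcases Nat.eq_zero_or_pos (d x y) with h0 | h0
  · exact absurd (h.eq x y h0) hxy
  · exact h0

theorem Pass.symm (h : IsGeod d) {u c u' : X} (hp : Pass d u c u') : Pass d u' c u := by
  obtain ⟨h1, h2⟩ := hp
  refine ⟨?_, ?_⟩
  · rw [h.symm u' c, h.symm c u, h.symm u' u]; omega
  · intro p hp1 hp2
    apply h2 p
    · rw [h.symm u p, h.symm p u', h.symm u u']; omega
    · rw [h.symm u' p, h.symm p u, h.symm u' u] at hp1
      rw [h.symm u' p, h.symm u' c] at hp2
      omega

/-- a point of the interval is on one of the two sides of a passing point -/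
theorem Pass.split (h : IsGeod d) {u c u' : X} (hp : Pass d u c u') {p : X}
    (hpI : d u p + d p u' = d u u') :
    d u p + d p c = d u c ∨ d c p + d p u' = d c u' := by
  obtain ⟨h1, h2⟩ := hp
  rcases Nat.le_total (d u p) (d u c) with hle | hle
  · left
    obtain ⟨z, hz1, hz2⟩ := h.geod p u' (d u c - d u p) (by omega)
    have t1 := h.tri u p z
    have t2 := h.tri u z u'
    have hz : z = c := h2 z (by omega) (by omega)
    subst hz
    omega
  · right
    obtain ⟨z, hz1, hz2⟩ := h.geod u p (d u c) (by omega)
    have t1 := h.tri z p u'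
    have t2 := h.tri u z u'
    have hz : z = c := h2 z (by omega) (by omega)
    subst hz
    omega

/-- tripod lemma -/
theorem ptripod (h : IsGeod d) (hy : Hyp d δ) {x p y : X} {e : ℕ}
    (hb : d x p + d p y ≤ d x y + e) (z : X) :
    d x p + d p z ≤ d x z + (e + δ) ∨ d y p + d p z ≤ d y z + (e + δ) := by
  have h4 := hy p z x y
  have s1 := h.symm p x
  have s2 := h.symm z y
  have s3 := h.symm p y
  have s4 := h.symm z x
  have s5 := h.symm p z
  rcases Nat.le_total (d p x + d z y) (d p y + d z x) with hm | hm
  · rw [max_eq_right hm] at h4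
    left; omega
  · rw [max_eq_left hm] at h4
    right; omega

/-- a point almost between `x` and `y` is near the interval -/
theorem near_interval (h : IsGeod d) (hy : Hyp d δ) {x p y : X} {e : ℕ}
    (hb : d x p + d p y ≤ d x y + e) :
    ∃ q, d x q + d q y = d x y ∧ d p q ≤ e + δ := by
  rcases Nat.le_total (d x p) (d x y) with hle | hle
  · obtain ⟨q, hq1, hq2⟩ := h.geod x y (d x p) hle
    refine ⟨q, by omega, ?_⟩
    have h4 := hy p q x y
    have s1 := h.symm p x
    have s2 := h.symm q x
    rcases Nat.le_total (d p x + d q y) (d p y + d q x) with hm | hm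
    · rw [max_eq_right hm] at h4; omega
    · rw [max_eq_left hm] at h4; omega
  · refine ⟨y, by rw [h.self]; omega, by omega⟩

/-- moving along an interval -/
theorem step_towards (h : IsGeod d) {p a : X} (r : ℕ) (hr : r ≤ d p a) :
    ∃ z, d p z = d p a - r ∧ d z a = r := by
  obtain ⟨z, h1, h2⟩ := h.geod p a (d p a - r) (by omega)
  exact ⟨z, h1, by omega⟩

end

end Burn
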