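import Pool.Agent.W_MP_3ab0ed_burn.Main2
import Pool.Agent.W_MP_3ab0ed_burn.P3Pass

/-!
Germs and angles at the apices of the cone-off: nonempty germs, passing property, exactness,
diameter of germs.
-/

namespace Burn

namespace Cone

variable {X V : Type*} {Y : V → Set X} {R : ℕ} {d : X → X → ℕ}

/-- germs at an apex: the feet of the columns through which geodesics leave the apex -/
def germ (d : X → X → ℕ) (c u : Cone Y R) : Set X :=
  {y | ∃ (C : V) (hy : y ∈ Y C), c = apex C ∧
    rho d (col C y hy R) u + 1 = rho d (apex C) u}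

theorem lev_le_of_ne {w : Cone Y R} (h : ∀ C, w ≠ apex C) : lev w ≤ R := by
  cases w with
  | pt x => simp [lev]
  | hor C y hy k hk => simp only [lev]; omega
  | apex C => exact absurd rfl (h C)

theorem lev_apex (C : V) : lev (apex C : Cone Y R) = R + 1 := rfl

theorem apex_inj {C C' : V} (h : (apex C : Cone Y R) = apex C') : C = C' := by
  injection h

/-- neighbours of an apex -/
theorem apex_nbr {C : V} {w : Cone Y R} (h : Sx d (apex C) w) (hw : w ≠ apex C) :
    ∃ (y : X) (hy : y ∈ Y C), w = col C y hy R := by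
  rcases h with h | h
  · generalize hv : (apex C : Cone Y R) = v at h
    cases h with
    | base h => exact absurd hv (by simp)
    | hor hy hy' k hk h => exact absurd hv (by simp)
    | @up D y hy k hk =>
      have h1 := congrArg lev hv
      rw [lev_apex, lev_col] at h1
      omega
  · generalize hv : (apex C : Cone Y R) = v at h
    cases h with
    | base h => exact absurd hv (by simp)
    | hor hy hy' k hk h => exact absurd hv (by simp)
    | @up D y hy k hk =>
      have h1 := congrArg lev hv
      rw [lev_apex, lev_col] at h1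
      have hk2 : k = R := by omega
      subst hk2
      rw [col_top D y hy (by omega)] at hv
      have := apex_inj hv
      subst this
      exact ⟨y, hy, rfl⟩

theorem germ_ne (hd : IsGeod d) (hne : ∀ C, (Y C).Nonempty) {C : V} {u : Cone Y R}
    (hu : u ≠ apex C) : (germ d (apex C) u).Nonempty := by
  have hg := isGeod_rho (R := R) (Y := Y) hd hne
  have hpos : 0 < rho d (apex C) u := hg.pos_of_ne (Ne.symm hu)
  obtain ⟨z, hz1, hz2⟩ := hg.geod (apex C) u 1 hpos
  have hzne : z ≠ apex C := by
    intro h
    rw [h, hg.self] at hz1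
    omega
  obtain ⟨y, hy, hzy⟩ := apex_nbr (Sx_of_le_one hd hne hz1) hzne
  exact ⟨y, C, hy, rfl, by rw [← hzy]; exact hz2⟩

theorem mem_germ {C : V} {u : Cone Y R} {y : X} (h : y ∈ germ d (apex C) u) :
    ∃ hy : y ∈ Y C, rho d (col C y hy R) u + 1 = rho d (apex C) u := by
  obtain ⟨C', hy, hC, h⟩ := h
  have := apex_inj hC
  subst this
  exact ⟨hy, h⟩

theorem col_inj {C : V} {y y' : X} {hy : y ∈ Y C} {hy' : y' ∈ Y C} (hR : 1 ≤ R)
    (h : (col C y hy R : Cone Y R) = col C y' hy' R) : y = y' := by
  obtain ⟨k, rfl⟩ : ∃ k, R = k + 1 := ⟨R - 1, by omega⟩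
  rw [col_succ C y hy (by omega : k < k + 1), col_succ C y' hy' (by omega : k < k + 1)] at h
  injection h

/-- G1: the column over a germ is an initial part of a geodesic from the apex -/
theorem germ_col (hd : IsGeod d) (hne : ∀ C, (Y C).Nonempty) (hR : 1 ≤ R) {C : V}
    {u : Cone Y R} {y : X} (hy : y ∈ Y C)
    (h : rho d (col C y hy R) u + 1 = rho d (apex C) u) {i : ℕ} (hi : i ≤ R + 1)
    (hi2 : i ≤ rho d (apex C) u) :
    rho d (apex C) (col C y hy (R + 1 - i) : Cone Y R) = i ∧
      rho d (col C y hy (R + 1 - i)) u + i = rho d (apex C) u := by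
  have hg := isGeod_rho (R := R) (Y := Y) hd hne
  have e1 := apex_col (R := R) (d := d) hd hne hy (show R + 1 - i ≤ R + 1 by omega)
  have e0 := apex_col (R := R) (d := d) hd hne hy (show R ≤ R + 1 by omega)
  refine ⟨by omega, ?_⟩
  have hI : rho d (apex C) (col C y hy R : Cone Y R) + rho d (col C y hy R) u =
      rho d (apex C) u := by
    omega
  rcases Nat.eq_zero_or_pos (kC C u) with hk | hk
  · -- outside
    obtain ⟨g, g0, gw, gu, hgg⟩ := exists_geodSeq_through hg hI
    obtain ⟨_, y', hy', hcol⟩ := descent hd hne hgg g0 (by rw [gu]; exact hk)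
    have h1 := hcol 1 (by omega)
    rw [e0, show R + 1 - R = 1 by omega] at gw
    rw [gw, show R + 1 - 1 = R by omega] at h1
    have := col_inj hR h1
    subst this
    have h2 := hcol i hi
    have h3 := hgg i _ hi2 le_rfl
    rw [gu, h2] at h3
    omega
  · -- inside
    obtain ⟨y', hy', hu, hw, _, _⟩ := descent_in hd hne hk hI
    rw [kC_col_self, show min R (R + 1) = R by omega] at hw
    have := col_inj hR hw
    subst this
    have hle := kC_le C u
    have e2 := apex_col (R := R) (d := d) hd hne hy hle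
    rw [← hu] at e2
    have e3 := rho_col_le (R := R) (d := d) C y hy (show kC C u ≤ R + 1 - i by omega)
    rw [← hu, hg.symm] at e3
    have t := hg.tri (apex C) (col C y hy (R + 1 - i)) u
    omega

/-- segments of geodesics which avoid apices -/
theorem seg (hd : IsGeod d) (hne : ∀ C, (Y C).Nonempty) (y0 : V → X) {g : ℕ → Cone Y R}
    {l : ℕ} (hg : GeodSeq (rho d) g l) (hl : ∀ i, i ≤ l → lev (g i) ≤ R) :
    d (base y0 (g 0)) (base y0 (g l)) ≤ l * 2 ^ R := by
  induction l with
  | zero => rw [hd.self]; exact Nat.zero_le _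
  | succ l ih =>
    have h1 := ih (fun i j hij hj => hg i j hij (by omega)) (fun i hi => hl i (by omega))
    have hs : Sx d (g l) (g (l + 1)) := by
      apply Sx_of_le_one hd hne
      rw [hg l (l + 1) (by omega) le_rfl]
      omega
    have h2 := base_Sx hd y0 hs le_rfl (hl l (by omega)) (hl (l + 1) le_rfl)
    calc d (base y0 (g 0)) (base y0 (g (l + 1)))
        ≤ d (base y0 (g 0)) (base y0 (g l)) + d (base y0 (g l)) (base y0 (g (l + 1))) :=
          hd.tri _ _ _
      _ ≤ l * 2 ^ R + 2 ^ R := add_le_add h1 h2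
      _ = (l + 1) * 2 ^ R := by ring

/-- vertices near an apex, different from it, are not apices -/
theorem lev_le_of_near (hd : IsGeod d) (hne : ∀ C, (Y C).Nonempty) {C : V} {w : Cone Y R}
    (h1 : rho d (apex C) w < 2 * R + 2) (h2 : w ≠ apex C) : lev w ≤ R := by
  apply lev_le_of_ne
  intro C' h
  subst h
  have hCC : C ≠ C' := fun h => h2 (by rw [h])
  have := apex_apex (R := R) (d := d) hd hne hCC
  omega

/-- geodesic segments in a ball which avoid the apex -/
theorem seg2 (hd : IsGeod d) (hne : ∀ C, (Y C).Nonempty) (y0 : V → X) {C : V} {p q : Cone Y R}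
    (h : ∀ w, rho d p w + rho d w q = rho d p q → w ≠ apex C ∧ rho d (apex C) w < 2 * R + 2) :
    d (base y0 p) (base y0 q) ≤ rho d p q * 2 ^ R := by
  have hg := isGeod_rho (R := R) (Y := Y) hd hne
  obtain ⟨g, g0, gm, hgg⟩ := exists_geodSeq hg p q
  have := seg hd hne y0 hgg (fun i hi => by
    have hm := hgg.mem hi
    rw [g0, gm] at hm
    obtain ⟨h1, h2⟩ := h _ hm
    exact lev_le_of_near hd hne h2 h1)
  rw [g0, gm] at this
  exact this

/-- step 1 of the passing property: large germ distance forces a small Gromov product -/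
theorem small_gromov (hd : IsGeod d) (hh : Hyp d 2) (hF : Fam d Y 2 2) {D : ℕ} (hD : D = dX)
    (hR : 6 * D + 6 ≤ R) {C : V}
    {u u' : Cone Y R} {y y' : X} (hy : y ∈ Y C) (hy' : y' ∈ Y C)
    (g1 : rho d (col C y hy R) u + 1 = rho d (apex C) u)
    (g2 : rho d (col C y' hy' R) u' + 1 = rho d (apex C) u')
    (hyy : (12 * D + 11) * 2 ^ R ≤ d y y') :
    rho d (apex C) u + rho d (apex C) u' < rho d u u' + 2 * (D + 1) := by
  have hg := isGeod_rho (R := R) (Y := Y) hd hF.ne
  have hyp : Hyp (rho d : Cone Y R → Cone Y R → ℕ) D := hD ▸ hyp_cone hd hh hF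
  by_contra hcon
  push Not at hcon
  have t1 := hg.tri (apex C) u u'
  have t2 := hg.tri (apex C) u' u
  have s0 := hg.symm u u'
  have b1 : D + 1 ≤ rho d (apex C) u := by omega
  have b2 : D + 1 ≤ rho d (apex C) u' := by omega
  obtain ⟨a1, a2⟩ := germ_col hd hF.ne (by omega) hy g1 (i := D + 1) (by omega) b1
  obtain ⟨a3, a4⟩ := germ_col hd hF.ne (by omega) hy' g2 (i := D + 1) (by omega) b2
  set a := (col C y hy (R + 1 - (D + 1)) : Cone Y R) with ha
  set a' := (col C y' hy' (R + 1 - (D + 1)) : Cone Y R) with ha'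
  -- four point inequalities
  have h1 : rho d a u' + (D + 1) ≤ rho d (apex C) u' + D := by
    have := hyp a u' (apex C) u
    have s1 := hg.symm a (apex C)
    have s2 := hg.symm u' (apex C)
    rcases le_total (rho d a (apex C) + rho d u' u) (rho d a u + rho d u' (apex C)) with h | h
    · rw [max_eq_right h] at this
      omega
    · rw [max_eq_left h] at this
      have s3 := hg.symm u' u
      omega
  have h2 : rho d a a' ≤ 2 * D := by
    have := hyp a a' (apex C) u'
    have s1 := hg.symm a (apex C)
    have s2 := hg.symm a' (apex C)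
    rcases le_total (rho d a (apex C) + rho d a' u') (rho d a u' + rho d a' (apex C)) with h | h
    · rw [max_eq_right h] at this
      omega
    · rw [max_eq_left h] at this
      omega
  have h3 := seg2 (p := a) (q := a') (C := C) hd hF.ne (fun C => (hF.ne C).some) (by
    intro w hw
    have t3 := hg.tri (apex C) a w
    refine ⟨?_, by omega⟩
    intro h
    subst h
    have s1 := hg.symm a (apex C)
    omega)
  have hba : base (fun C => (hF.ne C).some) a = y := base_col _ _ _ _ (by omega)
  have hba' : base (fun C => (hF.ne C).some) a' = y' := base_col _ _ _ _ (by omega)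
  rw [hba, hba'] at h3
  have h4 : rho d a a' * 2 ^ R ≤ 2 * D * 2 ^ R := Nat.mul_le_mul_right _ h2
  have h5 : 2 * D * 2 ^ R < (12 * D + 11) * 2 ^ R :=
    Nat.mul_lt_mul_of_pos_right (by omega) (Nat.two_pow_pos R)
  omega

/-- every geodesic meets the apex -/
theorem meets (hd : IsGeod d) (hh : Hyp d 2) (hF : Fam d Y 2 2) {D : ℕ} (hD : D = dX)
    (hR : 6 * D + 6 ≤ R) {C : V}
    {u u' : Cone Y R} (hu : u ≠ apex C) (hu' : u' ≠ apex C) {y y' : X} (hy : y ∈ Y C)
    (hy' : y' ∈ Y C)
    (g1 : rho d (col C y hy R) u + 1 = rho d (apex C) u)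
    (g2 : rho d (col C y' hy' R) u' + 1 = rho d (apex C) u')
    (hyy : (12 * D + 11) * 2 ^ R ≤ d y y') {g : ℕ → Cone Y R} {m : ℕ}
    (hgg : GeodSeq (rho d) g m) (hg0 : g 0 = u) (hgm : g m = u') :
    ∃ i, i ≤ m ∧ g i = apex C := by
  have hg := isGeod_rho (R := R) (Y := Y) hd hF.ne
  have hyp : Hyp (rho d : Cone Y R → Cone Y R → ℕ) D := hD ▸ hyp_cone hd hh hF
  have hGP := small_gromov hd hh hF hD hR hy hy' g1 g2 hyy
  by_contra hcon
  push Not at hcon
  have hm : rho d u u' = m := by
    rw [← hg0, ← hgm, hgg 0 m (Nat.zero_le _) le_rfl]; omega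
  have r1 : 0 < rho d (apex C) u := hg.pos_of_ne (Ne.symm hu)
  have r2 : 0 < rho d (apex C) u' := hg.pos_of_ne (Ne.symm hu')
  have s1 := hg.symm (apex C) u
  have s2 := hg.symm (apex C) u'
  have t0 := hg.tri u (apex C) u'
  -- the points on the columns
  set s := min (3 * D + 3) (rho d (apex C) u) with hs
  set s' := min (3 * D + 3) (rho d (apex C) u') with hs'
  obtain ⟨a1, a2⟩ := germ_col hd hF.ne (by omega) hy g1 (i := s) (by omega) (by omega)
  obtain ⟨a3, a4⟩ := germ_col hd hF.ne (by omega) hy' g2 (i := s') (by omega) (by omega)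
  set b := (col C y hy (R + 1 - s) : Cone Y R) with hb
  set b' := (col C y' hy' (R + 1 - s') : Cone Y R) with hb'
  -- the corresponding points on the geodesic
  have hr1 : rho d (apex C) u - s ≤ m := by omega
  have hr2 : rho d (apex C) u' - s' ≤ m := by omega
  have hord : rho d (apex C) u - s ≤ m - (rho d (apex C) u' - s') := by omega
  set j := rho d (apex C) u - s with hj
  set j' := m - (rho d (apex C) u' - s') with hj'
  have q1 : rho d u (g j) = j := by
    rw [← hg0, hgg 0 j (Nat.zero_le _) hr1]; omega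
  have q2 : rho d (g j) u' = m - j := by
    rw [← hgm, hgg j m hr1 le_rfl]
  have q1' : rho d u (g j') = j' := by
    rw [← hg0, hgg 0 j' (Nat.zero_le _) (by omega)]; omega
  have q2' : rho d (g j') u' = m - j' := by
    rw [← hgm, hgg j' m (by omega) le_rfl]
  have hbq : rho d b (g j) ≤ 2 * (D + 1) + D := by
    have hB : Btw (rho d) (2 * (D + 1)) u b u' := by
      unfold Btw
      have t := hg.tri b (apex C) u'
      have c1 := hg.symm u b
      have c2 := hg.symm b (apex C)
      omega
    apply near_of_btw hg hyp hB (by omega)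
    have c1 := hg.symm u b
    omega
  have hbq' : rho d b' (g j') ≤ 2 * (D + 1) + D := by
    have hB : Btw (rho d) (2 * (D + 1)) u' b' u := by
      unfold Btw
      have t := hg.tri b' (apex C) u
      have c1 := hg.symm u' b'
      have c2 := hg.symm b' (apex C)
      have c3 := hg.symm u' u
      omega
    have c3 := hg.symm u' u
    have c4 := hg.symm u' (g j')
    have c5 := hg.symm (g j') u
    apply near_of_btw hg hyp hB (by omega)
    have c1 := hg.symm u' b'
    omega
  -- the three pieces
  have near1 : ∀ w, rho d b w + rho d w (g j) = rho d b (g j) →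
      w ≠ apex C ∧ rho d (apex C) w < 2 * R + 2 := by
    intro w hw
    have t3 := hg.tri (apex C) b w
    refine ⟨?_, by omega⟩
    intro h
    subst h
    have c2 := hg.symm b (apex C)
    rcases Nat.lt_or_ge s (3 * D + 3) with h5 | h5
    · -- then `b = u = g 0`
      have h6 : s = rho d (apex C) u := by omega
      have h7 : j = 0 := by omega
      have h8 : rho d b u = 0 := by omega
      have h9 := hg.eq _ _ h8
      rw [h7, hg0, ← h9, hg.self] at hw
      omega
    · omega
  have near3 : ∀ w, rho d (g j') w + rho d w b' = rho d (g j') b' →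
      w ≠ apex C ∧ rho d (apex C) w < 2 * R + 2 := by
    intro w hw
    have t3 := hg.tri (apex C) b' w
    have c3 := hg.symm b' w
    have c4 := hg.symm b' (g j')
    refine ⟨?_, by omega⟩
    intro h
    subst h
    rcases Nat.lt_or_ge s' (3 * D + 3) with h5 | h5
    · have h6 : s' = rho d (apex C) u' := by omega
      have h7 : j' = m := by omega
      have h8 : rho d b' u' = 0 := by omega
      have h9 := hg.eq _ _ h8
      rw [h7, hgm, ← h9, hg.self] at hw
      omega
    · omega
  have e1 := seg2 (p := b) (q := g j) (C := C) hd hF.ne (fun C => (hF.ne C).some) near1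
  have e3 := seg2 (p := g j') (q := b') (C := C) hd hF.ne (fun C => (hF.ne C).some) near3
  have e2 : d (base (fun C => (hF.ne C).some) (g j)) (base (fun C => (hF.ne C).some) (g j')) ≤
      (j' - j) * 2 ^ R := by
    have hsh := hgg.shift j j' hord (by omega)
    have := seg hd hF.ne (fun C => (hF.ne C).some) hsh (by
      intro i hi
      show lev (g (j + i)) ≤ R
      apply lev_le_of_near hd hF.ne _ (hcon (j + i) (by omega))
      have t4 := hg.tri (apex C) b (g j)
      have t5 := hg.tri (apex C) (g j) (g (j + i))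
      have t6 := hgg j (j + i) (by omega) (by omega)
      omega)
    simpa [show j + (j' - j) = j' by omega] using this
  have hbb : base (fun C => (hF.ne C).some) b = y := base_col _ _ _ _ (by omega)
  have hbb' : base (fun C => (hF.ne C).some) b' = y' := base_col _ _ _ _ (by omega)
  rw [hbb] at e1
  rw [hbb'] at e3
  have f1 : d y (base (fun C => (hF.ne C).some) (g j)) ≤ (2 * (D + 1) + D) * 2 ^ R :=
    e1.trans (Nat.mul_le_mul_right _ hbq)
  have f3 : d (base (fun C => (hF.ne C).some) (g j')) y' ≤ (2 * (D + 1) + D) * 2 ^ R :=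
    e3.trans (Nat.mul_le_mul_right _ (by rw [hg.symm]; exact hbq'))
  have f2 : d (base (fun C => (hF.ne C).some) (g j)) (base (fun C => (hF.ne C).some) (g j')) ≤
      (6 * D + 6) * 2 ^ R := e2.trans (Nat.mul_le_mul_right _ (by omega))
  have f4 := hd.tri y (base (fun C => (hF.ne C).some) (g j)) y'
  have f5 := hd.tri (base (fun C => (hF.ne C).some) (g j))
    (base (fun C => (hF.ne C).some) (g j')) y'
  have f6 : (2 * (D + 1) + D) * 2 ^ R + ((6 * D + 6) * 2 ^ R + (2 * (D + 1) + D) * 2 ^ R) =
      (12 * D + 10) * 2 ^ R := by ring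
  have f7 : (12 * D + 10) * 2 ^ R < (12 * D + 11) * 2 ^ R :=
    Nat.mul_lt_mul_of_pos_right (by omega) (Nat.two_pow_pos R)
  omega

/-- R1: the passing property -/
theorem passing (hd : IsGeod d) (hh : Hyp d 2) (hF : Fam d Y 2 2)
    (hR : 6 * dX + 6 ≤ R) {C : V}
    {u u' : Cone Y R} (hu : u ≠ apex C) (hu' : u' ≠ apex C) {y y' : X}
    (hy : y ∈ germ d (apex C) u) (hy' : y' ∈ germ d (apex C) u')
    (hyy : (12 * dX + 11) * 2 ^ R ≤ d y y') : Pass (rho d) u (apex C) u' := by
  have hg := isGeod_rho (R := R) (Y := Y) hd hF.ne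
  obtain ⟨hyC, g1⟩ := mem_germ hy
  obtain ⟨hyC', g2⟩ := mem_germ hy'
  have key := fun {g : ℕ → Cone Y R} {m : ℕ} (h1 : GeodSeq (rho d) g m) (h2 : g 0 = u)
    (h3 : g m = u') => meets hd hh hF rfl hR hu hu' hyC hyC' g1 g2 hyy h1 h2 h3
  constructor
  · obtain ⟨g, g0, gm, hgg⟩ := exists_geodSeq hg u u'
    obtain ⟨i, hi, hgi⟩ := key hgg g0 gm
    have := hgg.mem hi
    rw [g0, gm, hgi] at this
    exact this
  · intro p hp1 hp2
    obtain ⟨g, g0, gp, gm, hgg⟩ := exists_geodSeq_through hg hp1
    obtain ⟨i, hi, hgi⟩ := key hgg g0 gm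
    have h1 := hgg 0 i (Nat.zero_le _) hi
    rw [g0, hgi] at h1
    have h2 : i = rho d u p := by omega
    rw [← gp, ← h2, hgi]

/-- R2: exactness of germs -/
theorem exactness (hd : IsGeod d) (hne : ∀ C, (Y C).Nonempty) {C C' : V} (hCC : C ≠ C')
    {u : Cone Y R} (hp : Pass (rho d) (apex C) (apex C') u) :
    germ d (apex C) u = germ d (apex C : Cone Y R) (apex C') := by
  have hg := isGeod_rho (R := R) (Y := Y) hd hne
  obtain ⟨h1, h2⟩ := hp
  have hne' : (apex C : Cone Y R) ≠ apex C' := fun h => hCC (apex_inj h)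
  have hpos := hg.pos_of_ne hne'
  ext y
  constructor
  · intro h
    obtain ⟨hy, h3⟩ := mem_germ h
    refine ⟨C, hy, rfl, ?_⟩
    have e0 := apex_col (R := R) (d := d) hd hne hy (show R ≤ R + 1 by omega)
    obtain ⟨p, hp1, hp2⟩ := hg.geod (col C y hy R) u (rho d (apex C) (apex C') - 1) (by omega)
    have t1 := hg.tri (apex C) (col C y hy R) p
    have t2 := hg.tri (apex C) p u
    have e1 : rho d (apex C) p = rho d (apex C : Cone Y R) (apex C') := by omega
    have := h2 p (by omega) e1
    rw [this] at hp1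
    omega
  · intro h
    obtain ⟨hy, h3⟩ := mem_germ h
    refine ⟨C, hy, rfl, ?_⟩
    have e0 := apex_col (R := R) (d := d) hd hne hy (show R ≤ R + 1 by omega)
    have t1 := hg.tri (col C y hy R) (apex C') u
    have t2 := hg.tri (apex C) (col C y hy R) u
    omega

/-- R3: germs are small -/
theorem germ_diam (hd : IsGeod d) (hh : Hyp d 2) (hF : Fam d Y 2 2)
    (hR : 2 * t1 + 2 ≤ R) {C : V} {u : Cone Y R} {y y' : X}
    (hy : y ∈ germ d (apex C) u) (hy' : y' ∈ germ d (apex C) u) : d y y' ≤ 2 * c6 := by
  have hg := isGeod_rho (R := R) (Y := Y) hd hF.ne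
  obtain ⟨hyC, g1⟩ := mem_germ hy
  obtain ⟨hyC', g2⟩ := mem_germ hy'
  have hy0 : ∀ C, (fun C => (hF.ne C).some) C ∈ Y C := fun C => (hF.ne C).some_mem
  rcases Nat.eq_zero_or_pos (kC C u) with hk | hk
  · have hfar := apex_far (R := R) (d := d) hd hF.ne hk
    have key : ∀ z (hz : z ∈ Y C), rho d (col C z hz R) u + 1 = rho d (apex C) u →
        d z (bC d (fun C => (hF.ne C).some) C u) ≤ c6 := by
      intro z hz hz1
      obtain ⟨a1, a2⟩ := germ_col hd hF.ne (by omega) hz hz1 (i := R + 1) le_rfl hfar
      rw [show R + 1 - (R + 1) = 0 by omega, col_zero] at a1 a2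
      exact exit_germ hd hh hF hy0 hR hk hz (by omega)
    have k1 := key y hyC g1
    have k2 := key y' hyC' g2
    have t := hd.tri y (bC d (fun C => (hF.ne C).some) C u) y'
    have s := hd.symm y' (bC d (fun C => (hF.ne C).some) C u)
    omega
  · -- inside: the germ is unique
    have e0 := apex_col (R := R) (d := d) hd hF.ne hyC (show R ≤ R + 1 by omega)
    have e0' := apex_col (R := R) (d := d) hd hF.ne hyC' (show R ≤ R + 1 by omega)
    obtain ⟨z, hz, hu, hw, _, _⟩ := descent_in hd hF.ne hk
      (show rho d (apex C) (col C y hyC R : Cone Y R) + rho d (col C y hyC R) u =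
        rho d (apex C) u by omega)
    obtain ⟨z', hz', hu', hw', _, _⟩ := descent_in hd hF.ne hk
      (show rho d (apex C) (col C y' hyC' R : Cone Y R) + rho d (col C y' hyC' R) u =
        rho d (apex C) u by omega)
    rw [kC_col_self, show min R (R + 1) = R by omega] at hw hw'
    have e1 := col_inj (by omega) hw
    have e2 := col_inj (by omega) hw'
    subst e1
    subst e2
    -- the two expressions of `u`
    have hpos : 0 < kC C u := hk
    have hle := kC_le C u
    rcases Nat.lt_or_ge R (kC C u) with h5 | h5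
    · -- `u` is the apex : impossible
      exfalso
      rw [col_top C y hz h5] at hu
      rw [hu, hg.self] at g1
      omega
    · have e3 : (col C y hz (kC C u) : Cone Y R) = col C y' hz' (kC C u) := hu.symm.trans hu'
      have e4 := congrArg (base (fun C => (hF.ne C).some)) e3
      rw [base_col _ _ _ _ h5, base_col _ _ _ _ h5] at e4
      rw [e4, hd.self]
      exact Nat.zero_le _

end Cone

end Burn
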