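import Mathlib

/-!
Burnside part of MP_3ab0ed_al: basic notions (integer valued geodesic hyperbolic metrics).
-/

namespace Burn

/-- An integer valued geodesic metric. -/
structure IsGeod {X : Type*} (d : X → X → ℕ) : Prop where
  self : ∀ x, d x x = 0
  eq : ∀ x y, d x y = 0 → x = y
  symm : ∀ x y, d x y = d y x
  tri : ∀ x y z, d x z ≤ d x y + d y z
  geod : ∀ x y k, k ≤ d x y → ∃ z, d x z = k ∧ d z y + k = d x y

/-- The four point inequality. -/
def Hyp {X : Type*} (d : X → X → ℕ) (δ : ℕ) : Prop :=
  ∀ x y z w, d x y + d z w ≤ max (d x z + d y w) (d x w + d y z) + δ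

/-- `p` is between `x` and `y` up to an additive error `e`. -/
def Btw {X : Type*} (d : X → X → ℕ) (e : ℕ) (x p y : X) : Prop := d x p + d p y ≤ d x y + e

/-- the distance from `p` to the set `Y` is at most `s`. -/
def Near {X : Type*} (d : X → X → ℕ) (Y : Set X) (s : ℕ) (p : X) : Prop := ∃ y ∈ Y, d p y ≤ s

/-- `g 0, …, g m` is a geodesic. -/
def GeodSeq {X : Type*} (d : X → X → ℕ) (g : ℕ → X) (m : ℕ) : Prop :=
  ∀ i j, i ≤ j → j ≤ m → d (g i) (g j) = j - i

variable {X : Type*} {d : X → X → ℕ}

theorem Btw.symm (hd : IsGeod d) {e : ℕ} {x p y : X} (h : Btw d e x p y) : Btw d e y p x := by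
  unfold Btw at *
  rw [hd.symm y p, hd.symm p x, hd.symm y x]
  omega

theorem Btw.mono {e e' : ℕ} {x p y : X} (h : Btw d e x p y) (he : e ≤ e') : Btw d e' x p y := by
  unfold Btw at *
  omega

theorem Near.mono {Y : Set X} {s s' : ℕ} {p : X} (h : Near d Y s p) (hs : s ≤ s') :
    Near d Y s' p := by
  obtain ⟨y, hy, h⟩ := h
  exact ⟨y, hy, h.trans hs⟩

theorem Near.trans (hd : IsGeod d) {Y : Set X} {s t : ℕ} {p q : X} (h : Near d Y s q)
    (hpq : d p q ≤ t) : Near d Y (s + t) p := by
  obtain ⟨y, hy, h⟩ := h
  exact ⟨y, hy, (hd.tri p q y).trans (by omega)⟩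

/-- L0.1 (tripod) -/
theorem tripod (hd : IsGeod d) {δ : ℕ} (hh : Hyp d δ) {e : ℕ} {x p y : X} (h : Btw d e x p y)
    (z : X) : Btw d (e + δ) x p z ∨ Btw d (e + δ) y p z := by
  unfold Btw at *
  have h1 := hh p z x y
  have s1 := hd.symm p x
  have s2 := hd.symm p y
  have s3 := hd.symm z x
  have s4 := hd.symm z y
  rcases le_total (d p x + d z y) (d p y + d z x) with h2 | h2
  · rw [max_eq_right h2] at h1
    left; omega
  · rw [max_eq_left h2] at h1
    right; omega

/-- L0.2, uniqueness part -/
theorem near_of_btw (hd : IsGeod d) {δ : ℕ} (hh : Hyp d δ) {e : ℕ} {x p y q : X}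
    (h : Btw d e x p y) (hq : d x q + d q y = d x y) (hq2 : d x q = min (d x p) (d x y)) :
    d p q ≤ e + δ := by
  unfold Btw at *
  have h1 := hh p q x y
  have s1 := hd.symm p x
  have s2 := hd.symm p y
  have s3 := hd.symm q x
  have s4 := hd.symm q y
  rcases le_total (d x p) (d x y) with h3 | h3
  · rw [min_eq_left h3] at hq2
    rcases le_total (d p x + d q y) (d p y + d q x) with h2 | h2
    · rw [max_eq_right h2] at h1
      omega
    · rw [max_eq_left h2] at h1
      omega
  · rw [min_eq_right h3] at hq2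
    have h4 : d q y = 0 := by omega
    have h5 := hd.eq _ _ h4
    subst h5
    omega

/-- L0.2 -/
theorem exists_near_of_btw (hd : IsGeod d) {δ : ℕ} (hh : Hyp d δ) {e : ℕ} {x p y : X}
    (h : Btw d e x p y) :
    ∃ q, d x q + d q y = d x y ∧ d x q = min (d x p) (d x y) ∧ d p q ≤ e + δ := by
  obtain ⟨q, hq1, hq2⟩ := hd.geod x y (min (d x p) (d x y)) (min_le_right _ _)
  exact ⟨q, by omega, hq1, near_of_btw hd hh h (by omega) hq1⟩

/-- L0.3 -/
theorem exists_geodSeq (hd : IsGeod d) (x y : X) :
    ∃ g : ℕ → X, g 0 = x ∧ g (d x y) = y ∧ GeodSeq d g (d x y) := by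
  have key : ∀ m : ℕ, ∀ x y, d x y = m → ∃ g : ℕ → X, g 0 = x ∧ g m = y ∧ GeodSeq d g m := by
    intro m
    induction m with
    | zero =>
      intro x y h
      refine ⟨fun _ => x, rfl, hd.eq _ _ h, ?_⟩
      intro i j hij hj
      rw [hd.self]; omega
    | succ m ih =>
      intro x y h
      obtain ⟨z, hz1, hz2⟩ := hd.geod x y m (by omega)
      obtain ⟨g, g0, gm, hg⟩ := ih x z hz1
      refine ⟨fun i => if i ≤ m then g i else y, by simp [g0], by simp, ?_⟩
      intro i j hij hj
      by_cases hjm : j ≤ m
      · simp only [hjm, if_true, hij.trans hjm]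
        exact hg i j hij hjm
      · have hj' : j = m + 1 := by omega
        subst hj'
        by_cases him : i ≤ m
        · simp only [him, if_true, if_neg hjm]
          have a1 : d x (g i) = i := by
            have := hg 0 i (Nat.zero_le _) him
            rw [g0] at this; simpa using this
          have a2 : d (g i) z = m - i := by
            have := hg i m him le_rfl
            rwa [gm] at this
          have t1 := hd.tri (g i) z y
          have t2 := hd.tri x (g i) y
          omega
        · have hi' : i = m + 1 := by omega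
          subst hi'
          simp only [if_neg hjm]
          rw [hd.self]; omega
  exact key _ x y rfl

theorem GeodSeq.dist {g : ℕ → X} {m : ℕ} (hg : GeodSeq d g m) {i j : ℕ} (hij : i ≤ j)
    (hj : j ≤ m) : d (g i) (g j) = j - i := hg i j hij hj

/-- sub-geodesic -/
theorem GeodSeq.shift {g : ℕ → X} {m : ℕ} (hg : GeodSeq d g m) (a b : ℕ) (hab : a ≤ b)
    (hb : b ≤ m) : GeodSeq d (fun i => g (a + i)) (b - a) := by
  intro i j hij hj
  show d (g (a + i)) (g (a + j)) = j - i
  rw [hg (a + i) (a + j) (by omega) (by omega)]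
  omega

/-- reversed geodesic -/
theorem GeodSeq.rev (hd : IsGeod d) {g : ℕ → X} {m : ℕ} (hg : GeodSeq d g m) :
    GeodSeq d (fun i => g (m - i)) m := by
  intro i j hij hj
  show d (g (m - i)) (g (m - j)) = j - i
  rw [hd.symm, hg (m - j) (m - i) (by omega) (by omega)]
  omega

/-- points of a geodesic lie between its ends -/
theorem GeodSeq.mem {g : ℕ → X} {m : ℕ} (hg : GeodSeq d g m) {i : ℕ} (hi : i ≤ m) :
    d (g 0) (g i) + d (g i) (g m) = d (g 0) (g m) := by
  rw [hg 0 i (Nat.zero_le _) hi, hg i m hi le_rfl, hg 0 m (Nat.zero_le _) le_rfl]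
  omega

/-- every point between two points lies on a geodesic -/
theorem exists_geodSeq_through (hd : IsGeod d) {x p y : X} (h : d x p + d p y = d x y) :
    ∃ g : ℕ → X, g 0 = x ∧ g (d x p) = p ∧ g (d x y) = y ∧ GeodSeq d g (d x y) := by
  obtain ⟨g, g0, gm, hg⟩ := exists_geodSeq hd x p
  obtain ⟨k, k0, km, hk⟩ := exists_geodSeq hd p y
  refine ⟨fun i => if i ≤ d x p then g i else k (i - d x p), by simp [g0], by simp [gm], ?_, ?_⟩
  · by_cases h0 : d x y ≤ d x p
    · have h1 : d p y = 0 := by omega
      have h2 := hd.eq _ _ h1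
      subst h2
      simp [gm]
    · simp only [if_neg h0]
      rw [show d x y - d x p = d p y by omega, km]
  · intro i j hij hj
    by_cases hjm : j ≤ d x p
    · simp only [hjm, if_true, hij.trans hjm]
      exact hg i j hij hjm
    · by_cases him : i ≤ d x p
      · simp only [him, if_true, if_neg hjm]
        have a1 : d x (g i) = i := by
          have := hg 0 i (Nat.zero_le _) him
          rw [g0] at this; simpa using this
        have a2 : d (g i) p = d x p - i := by
          have := hg i (d x p) him le_rfl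
          rwa [gm] at this
        have a3 : d p (k (j - d x p)) = j - d x p := by
          have := hk 0 (j - d x p) (Nat.zero_le _) (by omega)
          rw [k0] at this; simpa using this
        have a4 : d (k (j - d x p)) y = d p y - (j - d x p) := by
          have := hk (j - d x p) (d p y) (by omega) le_rfl
          rwa [km] at this
        have t1 := hd.tri (g i) p (k (j - d x p))
        have t2 := hd.tri x (g i) (k (j - d x p))
        have t3 := hd.tri x (k (j - d x p)) y
        omega
      · simp only [if_neg him, if_neg hjm]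
        rw [hk (i - d x p) (j - d x p) (by omega) (by omega)]
        omega

end Burn
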