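import Pool.Agent.W_MP_3ab0ed_burn.Basic

/-!
Bowditch's guessing geodesics lemma (integer version).
-/

namespace Burn

namespace Bow

/-- first constant -/
def T0 (h : ℕ) : ℕ := 2 ^ (h + 7)

/-- second constant -/
def T1 (h : ℕ) : ℕ := 3 * T0 h + h

/-- slimness constant -/
def Sl (h : ℕ) : ℕ := T1 h + h + T0 h

/-- hyperbolicity constant -/
def Dl (h : ℕ) : ℕ := 6 * Sl h + 2

theorem sq_le_two_pow (m : ℕ) (hm : 4 ≤ m) : m * m ≤ 2 ^ m := by
  induction m, hm using Nat.le_induction with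
  | base => norm_num
  | succ m hm ih =>
    rw [pow_succ]
    nlinarith

theorem le_T0 {h t : ℕ} (ht : t ≤ 3 * h + h * Nat.clog 2 (6 * t)) : t ≤ T0 h := by
  by_contra hcon
  unfold T0 at hcon
  push Not at hcon
  set m := Nat.log 2 t with hm
  have ht0 : t ≠ 0 := by
    have := Nat.one_le_two_pow (n := h + 7)
    omega
  have h1 : 2 ^ m ≤ t := Nat.pow_log_le_self 2 ht0
  have h2 : t < 2 ^ (m + 1) := Nat.lt_pow_succ_log_self (by norm_num) t
  have h3 : h + 7 ≤ m := by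
    by_contra h4
    have h5 : m + 1 ≤ h + 7 := by omega
    have := Nat.pow_le_pow_right (n := 2) (by norm_num) h5
    omega
  have h4 : 6 * t ≤ 2 ^ (m + 4) := by
    have e1 : 2 ^ (m + 4) = 8 * 2 ^ (m + 1) := by ring
    omega
  have h5 : Nat.clog 2 (6 * t) ≤ m + 4 := Nat.clog_le_of_le_pow h4
  have h6 := sq_le_two_pow m (by omega)
  have h7 : h * Nat.clog 2 (6 * t) ≤ h * (m + 4) := Nat.mul_le_mul_left _ h5
  nlinarith

variable {Z : Type*} {ρ : Z → Z → ℕ}

/-- hypotheses of the guessing geodesics lemma -/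
structure Guess (ρ : Z → Z → ℕ) (A : Z → Z → Set Z) (h : ℕ) : Prop where
  left : ∀ u v, u ∈ A u v
  right : ∀ u v, v ∈ A u v
  chain : ∀ u v, Relation.ReflTransGen (fun a b => b ∈ A u v ∧ ρ a b ≤ h) u v
  thin : ∀ u v w a, a ∈ A u v → ∃ b, (b ∈ A u w ∨ b ∈ A w v) ∧ ρ a b ≤ h
  adj : ∀ u v a, ρ u v ≤ 1 → a ∈ A u v → ρ a u ≤ h

theorem log_lemma (hd : IsGeod ρ) {A : Z → Z → Set Z} {h : ℕ} (H : Guess ρ A h) :
    ∀ (k : ℕ) (g : ℕ → Z) (i m : ℕ), m ≤ 2 ^ k →
      (∀ j, i ≤ j → j < i + m → ρ (g j) (g (j + 1)) ≤ 1) →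
      ∀ a ∈ A (g i) (g (i + m)), ∃ j, i ≤ j ∧ j ≤ i + m ∧ ρ a (g j) ≤ h * (k + 1) := by
  intro k
  induction k with
  | zero =>
    intro g i m hm hg a ha
    refine ⟨i, le_rfl, by omega, ?_⟩
    have h1 : ρ (g i) (g (i + m)) ≤ 1 := by
      rcases Nat.eq_zero_or_pos m with h0 | h0
      · subst h0
        simp [hd.self]
      · obtain rfl : m = 1 := by
          simp at hm
          omega
        exact hg i le_rfl (by omega)
    have := H.adj _ _ a h1 ha
    simpa using this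
  | succ k ih =>
    intro g i m hm hg a ha
    have hm2 : m / 2 ≤ 2 ^ k := by
      rw [pow_succ] at hm
      omega
    have hm3 : m - m / 2 ≤ 2 ^ k := by
      rw [pow_succ] at hm
      omega
    obtain ⟨b, hb, hab⟩ := H.thin _ _ (g (i + m / 2)) a ha
    rcases hb with hb | hb
    · obtain ⟨j, hj1, hj2, hj3⟩ := ih g i (m / 2) hm2 (fun j h1 h2 => hg j h1 (by omega)) b hb
      refine ⟨j, hj1, by omega, (hd.tri a b (g j)).trans ?_⟩
      calc ρ a b + ρ b (g j) ≤ h + h * (k + 1) := add_le_add hab hj3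
        _ = h * (k + 1 + 1) := by ring
    · have e : i + m = (i + m / 2) + (m - m / 2) := by omega
      rw [e] at hb
      obtain ⟨j, hj1, hj2, hj3⟩ := ih g (i + m / 2) (m - m / 2) hm3
        (fun j h1 h2 => hg j (by omega) (by omega)) b hb
      refine ⟨j, by omega, by omega, (hd.tri a b (g j)).trans ?_⟩
      calc ρ a b + ρ b (g j) ≤ h + h * (k + 1) := add_le_add hab hj3
        _ = h * (k + 1 + 1) := by ring

/-- (B1): guess sets are near geodesics -/
theorem guess_near (hd : IsGeod ρ) {A : Z → Z → Set Z} {h : ℕ} (H : Guess ρ A h)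
    {g : ℕ → Z} {m : ℕ} (hg : GeodSeq ρ g m) {a : Z} (ha : a ∈ A (g 0) (g m)) :
    ∃ i, i ≤ m ∧ ρ a (g i) ≤ T0 h := by
  classical
  by_contra hcon
  push Not at hcon
  -- the predicate
  let P : ℕ → Prop := fun t => ∃ (g : ℕ → Z) (n : ℕ) (a : Z), n ≤ m ∧ GeodSeq ρ g n ∧
    a ∈ A (g 0) (g n) ∧ ∀ j, j ≤ n → t ≤ ρ a (g j)
  have hbound : ∀ t, P t → t ≤ h * (Nat.clog 2 m + 1) := by
    rintro t ⟨g, n, a, hn, hg, ha, hj⟩
    have hn2 : n ≤ 2 ^ (Nat.clog 2 m) := hn.trans (Nat.le_pow_clog (by norm_num) m)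
    obtain ⟨j, _, hj2, hj3⟩ := log_lemma hd H (Nat.clog 2 m) g 0 n hn2
      (fun j _ h2 => by rw [hg j (j + 1) (by omega) (by omega)]; omega) a (by simpa using ha)
    exact (hj j (by omega)).trans hj3
  have hP : P (T0 h + 1) := ⟨g, m, a, le_rfl, hg, ha, fun j hj => hcon j hj⟩
  obtain ⟨t, ht1, ht2, ht3⟩ : ∃ t, T0 h + 1 ≤ t ∧ P t ∧ ¬ P (t + 1) := by
    by_contra hno
    push Not at hno
    have : ∀ k, P (T0 h + 1 + k) := by
      intro k
      induction k with
      | zero => exact hP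
      | succ k ih => exact hno (T0 h + 1 + k) (by omega) ih
    have h1 := hbound _ (this (h * (Nat.clog 2 m + 1)))
    omega
  obtain ⟨g, n, a, hn, hg, ha, hj⟩ := ht2
  -- maximality
  have hmax : ∀ (g' : ℕ → Z) (n' : ℕ) (b : Z), n' ≤ m → GeodSeq ρ g' n' → b ∈ A (g' 0) (g' n') →
      ∃ i, i ≤ n' ∧ ρ b (g' i) ≤ t := by
    intro g' n' b h1 h2 h3
    by_contra h4
    push Not at h4
    exact ht3 ⟨g', n', b, h1, h2, h3, fun j hj => h4 j hj⟩
  obtain ⟨j, hjn, hjt⟩ := hmax g n a hn hg ha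
  have hfin : t ≤ 3 * h + h * Nat.clog 2 (6 * t) := by
    set j1 := j - 3 * t with hj1
    set j2 := min (j + 3 * t) n with hj2
    obtain ⟨b1, hb1, hab1⟩ := H.thin _ _ (g j1) a ha
    rcases hb1 with hb1 | hb1
    · -- first part
      rcases Nat.eq_zero_or_pos j1 with h0 | h0
      · rw [h0] at hb1
        have h1 := H.adj _ _ b1 (by rw [hd.self]; omega) hb1
        have h2 := hj 0 (by omega)
        have h3 := hd.tri a b1 (g 0)
        omega
      · obtain ⟨i, hi1, hi2⟩ := hmax g j1 b1 (by omega)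
          (fun i k hik hk => hg i k hik (by omega)) hb1
        have h1 := hg i j (by omega) hjn
        have h2 := hd.tri (g i) b1 (g j)
        have h3 := hd.tri b1 a (g j)
        have h4 := hd.symm (g i) b1
        have h5 := hd.symm b1 a
        omega
    · obtain ⟨b2, hb2, hab2⟩ := H.thin _ _ (g j2) b1 hb1
      have hab : ρ a b2 ≤ 2 * h := (hd.tri a b1 b2).trans (by omega)
      rcases hb2 with hb2 | hb2
      · -- middle part
        have e : j2 = j1 + (j2 - j1) := by omega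
        rw [e] at hb2
        have hlen : j2 - j1 ≤ 2 ^ (Nat.clog 2 (6 * t)) := by
          have h1 : j2 - j1 ≤ 6 * t := by omega
          exact h1.trans (Nat.le_pow_clog (by norm_num) _)
        obtain ⟨i, _, hi2, hi3⟩ := log_lemma hd H (Nat.clog 2 (6 * t)) g j1 (j2 - j1) hlen
          (fun j _ h2 => by rw [hg j (j + 1) (by omega) (by omega)]; omega) b2 hb2
        have h1 := hj i (by omega)
        have h2 := hd.tri a b2 (g i)
        have h3 : h * (Nat.clog 2 (6 * t) + 1) = h * Nat.clog 2 (6 * t) + h := by ring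
        omega
      · -- last part
        rcases Nat.lt_or_ge j2 n with h0 | h0
        · have hj2' : j2 = j + 3 * t := by omega
          obtain ⟨i, hi1, hi2⟩ := hmax (fun i => g (j2 + i)) (n - j2) b2 (by omega)
            (hg.shift j2 n (by omega) le_rfl)
            (by simpa [show j2 + (n - j2) = n by omega] using hb2)
          have h1 := hg j (j2 + i) (by omega) (by omega)
          have h2 := hd.tri (g j) a (g (j2 + i))
          have h3 := hd.tri a b2 (g (j2 + i))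
          have h4 := hd.symm (g j) a
          have hi3 : ρ b2 (g (j2 + i)) ≤ t := hi2
          omega
        · have hj2' : j2 = n := by omega
          rw [hj2'] at hb2
          have h1 := H.adj _ _ b2 (by rw [hd.self]; omega) hb2
          have h2 := hj n le_rfl
          have h3 := hd.tri a b2 (g n)
          omega
  have := le_T0 hfin
  omega

/-- (B2): geodesics are near guess sets -/
theorem near_guess (hd : IsGeod ρ) {A : Z → Z → Set Z} {h : ℕ} (H : Guess ρ A h)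
    {g : ℕ → Z} {m : ℕ} (hg : GeodSeq ρ g m) {j : ℕ} (hj : j ≤ m) :
    ∃ a ∈ A (g 0) (g m), ρ (g j) a ≤ T1 h := by
  have key : ∀ b, Relation.ReflTransGen (fun a b => b ∈ A (g 0) (g m) ∧ ρ a b ≤ h) (g 0) b →
      (b ∈ A (g 0) (g m) ∧ ∃ i, i ≤ j ∧ ρ b (g i) ≤ T0 h) ∨
        ∃ a ∈ A (g 0) (g m), ρ (g j) a ≤ T1 h := by
    intro b hb
    induction hb with
    | refl => exact Or.inl ⟨H.left _ _, 0, Nat.zero_le _, by rw [hd.self]; exact Nat.zero_le _⟩
    | @tail a b _ hab ih =>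
      rcases ih with ⟨haA, i, hi1, hi2⟩ | ih
      · obtain ⟨i', hi1', hi2'⟩ := guess_near hd H hg hab.1
        rcases Nat.lt_or_ge j i' with h1 | h1
        · right
          refine ⟨a, haA, ?_⟩
          have e1 := hg i i' (by omega) hi1'
          have e2 := hg i j hi1 hj
          have t1 := hd.tri (g i) a (g i')
          have t2 := hd.tri a b (g i')
          have t3 := hd.tri (g j) (g i) a
          have s1 := hd.symm (g i) a
          have s2 := hd.symm (g j) (g i)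
          have := hab.2
          unfold T1
          omega
        · exact Or.inl ⟨hab.1, i', h1, hi2'⟩
      · exact Or.inr ih
  rcases key (g m) (H.chain _ _) with ⟨_, i, hi1, hi2⟩ | h1
  · refine ⟨g m, H.right _ _, ?_⟩
    have e1 := hg i m (by omega) le_rfl
    have e2 := hg j m hj le_rfl
    have s1 := hd.symm (g m) (g i)
    unfold T1
    omega
  · exact h1

/-- slim triangles -/
theorem slim (hd : IsGeod ρ) {A : Z → Z → Set Z} {h : ℕ} (H : Guess ρ A h)
    {g g1 g2 : ℕ → Z} {m m1 m2 : ℕ} (hg : GeodSeq ρ g m) (hg1 : GeodSeq ρ g1 m1)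
    (hg2 : GeodSeq ρ g2 m2) (e0 : g1 0 = g 0) (e1 : g1 m1 = g2 0) (e2 : g2 m2 = g m)
    {j : ℕ} (hj : j ≤ m) :
    (∃ i, i ≤ m1 ∧ ρ (g j) (g1 i) ≤ Sl h) ∨ (∃ i, i ≤ m2 ∧ ρ (g j) (g2 i) ≤ Sl h) := by
  obtain ⟨a, ha, hja⟩ := near_guess hd H hg hj
  obtain ⟨b, hb, hab⟩ := H.thin _ _ (g1 m1) a ha
  unfold Sl
  rcases hb with hb | hb
  · left
    rw [← e0] at hb
    obtain ⟨i, hi1, hi2⟩ := guess_near hd H hg1 hb
    refine ⟨i, hi1, ?_⟩
    have t1 := hd.tri (g j) a (g1 i)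
    have t2 := hd.tri a b (g1 i)
    omega
  · right
    rw [e1, ← e2] at hb
    obtain ⟨i, hi1, hi2⟩ := guess_near hd H hg2 hb
    refine ⟨i, hi1, ?_⟩
    have t1 := hd.tri (g j) a (g2 i)
    have t2 := hd.tri a b (g2 i)
    omega

/-- 7.5 -/
theorem exists_close (hd : IsGeod ρ) {A : Z → Z → Set Z} {h : ℕ} (H : Guess ρ A h)
    {g : ℕ → Z} {m : ℕ} (hg : GeodSeq ρ g m) (z : Z) :
    ∃ j, j ≤ m ∧ 2 * ρ z (g j) + ρ (g 0) (g m) ≤ ρ z (g 0) + ρ z (g m) + 4 * Sl h + 2 := by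
  classical
  obtain ⟨g1, a1, b1, hg1⟩ := exists_geodSeq hd (g 0) z
  obtain ⟨g2, a2, b2, hg2⟩ := exists_geodSeq hd z (g m)
  have key := fun {j : ℕ} (hj : j ≤ m) => slim hd H hg hg1 hg2 a1 (by rw [b1, a2]) b2 hj
  -- the first index which is near the second side
  have hex : ∃ j, j ≤ m ∧ ∃ i, i ≤ ρ z (g m) ∧ ρ (g j) (g2 i) ≤ Sl h :=
    ⟨m, le_rfl, ρ z (g m), le_rfl, by rw [b2, hd.self]; exact Nat.zero_le _⟩
  set j := Nat.find hex with hjdef
  obtain ⟨hjm, i2, hi2, hji2⟩ := Nat.find_spec hex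
  have hmin : ∀ k, k < j → ¬ ∃ i, i ≤ ρ z (g m) ∧ ρ (g k) (g2 i) ≤ Sl h := by
    intro k hk hk2
    exact Nat.find_min hex hk ⟨by omega, hk2⟩
  -- a neighbour which is near the first side
  obtain ⟨k, hkj, hkj2, i1, hi1, hki1⟩ : ∃ k, k ≤ j ∧ j ≤ k + 1 ∧ ∃ i, i ≤ ρ (g 0) z ∧
      ρ (g k) (g1 i) ≤ Sl h := by
    rcases Nat.eq_zero_or_pos j with h0 | h0
    · exact ⟨0, by omega, by omega, 0, Nat.zero_le _, by rw [a1, hd.self]; exact Nat.zero_le _⟩
    · refine ⟨j - 1, by omega, by omega, ?_⟩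
      rcases key (show j - 1 ≤ m by omega) with h1 | h1
      · exact h1
      · exact absurd h1 (hmin (j - 1) (by omega))
  refine ⟨k, by omega, ?_⟩
  have d1 := hg 0 k (Nat.zero_le _) (by omega)
  have d2 := hg k m (by omega) le_rfl
  have d3 := hg 0 m (Nat.zero_le _) le_rfl
  have d4 := hg k j hkj hjm
  have f1 := hg1 0 i1 (Nat.zero_le _) hi1
  have f2 := hg1 i1 _ hi1 le_rfl
  rw [a1] at f1
  rw [b1] at f2
  have k1 := hg2 0 i2 (Nat.zero_le _) hi2
  have k2 := hg2 i2 _ hi2 le_rfl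
  rw [a2] at k1
  rw [b2] at k2
  -- triangle inequalities
  have t1 := hd.tri (g 0) (g1 i1) (g k)
  have t2 := hd.tri z (g1 i1) (g k)
  have t3 := hd.tri (g k) (g j) (g2 i2)
  have t4 := hd.tri z (g2 i2) (g k)
  have t5 := hd.tri (g k) (g2 i2) (g m)
  have s1 := hd.symm (g 0) z
  have s2 := hd.symm (g1 i1) (g k)
  have s3 := hd.symm (g2 i2) (g k)
  have s4 := hd.symm z (g1 i1)
  have hji2' : ρ (g j) (g2 i2) ≤ Sl h := hji2
  omega

/-- (B3): the four point inequality -/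
theorem hyp (hd : IsGeod ρ) {A : Z → Z → Set Z} {h : ℕ} (H : Guess ρ A h) : Hyp ρ (Dl h) := by
  intro x y z w
  obtain ⟨g, a0, b0, hg⟩ := exists_geodSeq hd x y
  obtain ⟨g1, a1, b1, hg1⟩ := exists_geodSeq hd x z
  obtain ⟨g2, a2, b2, hg2⟩ := exists_geodSeq hd z y
  obtain ⟨j, hj, hj2⟩ := exists_close hd H hg w
  rw [a0, b0] at hj2
  unfold Dl
  have s1 := hd.symm w x
  have s2 := hd.symm w y
  have s3 := hd.symm z w
  rcases slim hd H hg hg1 hg2 (by rw [a1, a0]) (by rw [b1, a2]) (by rw [b2, b0]) hj with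
    ⟨i, hi1, hi2⟩ | ⟨i, hi1, hi2⟩
  · -- near `[x, z]`
    have f1 := hg1 0 i (Nat.zero_le _) hi1
    have f2 := hg1 i _ hi1 le_rfl
    rw [a1] at f1
    rw [b1] at f2
    have t1 := hd.tri w (g j) (g1 i)
    have t2 := hd.tri x (g1 i) w
    have t3 := hd.tri z (g1 i) w
    have s4 := hd.symm w (g1 i)
    have s5 := hd.symm z (g1 i)
    have : ρ x y + ρ z w ≤ ρ x z + ρ y w + (6 * Sl h + 2) := by omega
    exact this.trans (Nat.add_le_add_right (le_max_left _ _) _)
  · have f1 := hg2 0 i (Nat.zero_le _) hi1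
    have f2 := hg2 i _ hi1 le_rfl
    rw [a2] at f1
    rw [b2] at f2
    have t1 := hd.tri w (g j) (g2 i)
    have t2 := hd.tri z (g2 i) w
    have t3 := hd.tri y (g2 i) w
    have s4 := hd.symm w (g2 i)
    have s5 := hd.symm y (g2 i)
    have s6 := hd.symm z y
    have : ρ x y + ρ z w ≤ ρ x w + ρ y z + (6 * Sl h + 2) := by omega
    exact this.trans (Nat.add_le_add_right (le_max_right _ _) _)

end Bow

end Burn
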