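import Pool.Agent.W_MP_3ab0ed_burn.Thin

/-!
Coarse connectedness of the guess sets (section 6 of the blueprint; helper44).
-/

namespace Burn

namespace Cone

variable {X V : Type*} {Y : V → Set X} {R : ℕ} {d : X → X → ℕ} {y0 : V → X}

/-- reachable points -/
def Rch (d : X → X → ℕ) (y0 : V → X) (u v w : Cone Y R) : Prop :=
  Relation.ReflTransGen (fun a b => b ∈ Ag d y0 u v ∧ rho d a b ≤ 5154) u w

theorem Rch.step {u v w b : Cone Y R} (h : Rch d y0 u v w) (hb : b ∈ Ag d y0 u v)
    (hr : rho d w b ≤ 5154) : Rch d y0 u v b :=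
  Relation.ReflTransGen.tail h ⟨hb, hr⟩

/-- the part of the guess set in the horoball `C` -/
def InH (d : X → X → ℕ) (y0 : V → X) (C : V) (u v w : Cone Y R) : Prop :=
  InV d y0 C u (LC d y0 C u v) w ∨ InV d y0 C v (LC d y0 C u v) w

theorem InH.mem {C : V} {u v w : Cone Y R} (hr : 10 ≤ LC d y0 C u v) (h : InH d y0 C u v w) :
    w ∈ Ag d y0 u v := Or.inr (Or.inr (Or.inr ⟨C, hr, h⟩))

/-- columns are connected -/
theorem rch_col (hd : IsGeod d) (hF : Fam d Y 2 2) {C : V} {u v s : Cone Y R}
    (hs : s = u ∨ s = v) (hr : 10 ≤ LC d y0 C u v) {j : ℕ} (hj1 : kC C s ≤ j)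
    (hj2 : j ≤ LC d y0 C u v)
    (h : Rch d y0 u v (col C (bC d y0 C s) (bC_mem hF C s) j)) {j' : ℕ} (hj1' : kC C s ≤ j')
    (hj2' : j' ≤ LC d y0 C u v) :
    Rch d y0 u v (col C (bC d y0 C s) (bC_mem hF C s) j') := by
  have hg := isGeod_rho (R := R) (Y := Y) hd hF.ne
  have hmem : ∀ i, kC C s ≤ i → i ≤ LC d y0 C u v →
      (col C (bC d y0 C s) (bC_mem hF C s) i : Cone Y R) ∈ Ag d y0 u v := by
    intro i h1 h2
    apply InH.mem hr
    rcases hs with rfl | rfl
    · exact Or.inl ⟨i, bC_mem hF C s, h1, h2, rfl⟩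
    · exact Or.inr ⟨i, bC_mem hF C s, h1, h2, rfl⟩
  have hup : ∀ i, kC C s ≤ i → i ≤ LC d y0 C u v →
      (Rch d y0 u v (col C (bC d y0 C s) (bC_mem hF C s) i) ↔
        Rch d y0 u v (col C (bC d y0 C s) (bC_mem hF C s) (kC C s))) := by
    intro i h1
    induction i, h1 using Nat.le_induction with
    | base => intro _; exact Iff.rfl
    | succ i h1 ih =>
      intro h2
      rw [← ih (by omega)]
      have hrho : rho d (col C (bC d y0 C s) (bC_mem hF C s) i : Cone Y R)
          (col C (bC d y0 C s) (bC_mem hF C s) (i + 1)) ≤ 5154 :=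
        (rho_col_le C _ (bC_mem hF C s) (Nat.le_succ i)).trans (by omega)
      constructor
      · intro h
        exact h.step (hmem i h1 (by omega)) (by rw [hg.symm]; exact hrho)
      · intro h
        exact h.step (hmem (i + 1) (by omega) h2) hrho
  rw [hup j' hj1' hj2', ← hup j hj1 hj2]
  exact h

/-- the part in a relevant horoball is connected -/
theorem rch_InH (hd : IsGeod d) (hF : Fam d Y 2 2) {C : V} {u v w w' : Cone Y R}
    (hr : 10 ≤ LC d y0 C u v) (hw : InH d y0 C u v w) (hw' : InH d y0 C u v w')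
    (h : Rch d y0 u v w) : Rch d y0 u v w' := by
  have hg := isGeod_rho (R := R) (Y := Y) hd hF.ne
  have k1 := kC_le_LC (d := d) (y0 := y0) C u v
  have k2 := kC_le_LC' (d := d) (y0 := y0) C u v
  have hD := dist_le_LC (d := d) (y0 := y0) C u v
  have htop : rho d (col C (bC d y0 C u) (bC_mem hF C u) (LC d y0 C u v) : Cone Y R)
      (col C (bC d y0 C v) (bC_mem hF C v) (LC d y0 C u v)) ≤ 5154 :=
    (rho_hor_le (bC_mem hF C u) (bC_mem hF C v) hD).trans (by omega)
  have m1 : (col C (bC d y0 C u) (bC_mem hF C u) (LC d y0 C u v) : Cone Y R) ∈ Ag d y0 u v :=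
    InH.mem hr (Or.inl ⟨_, bC_mem hF C u, k1, le_rfl, rfl⟩)
  have m2 : (col C (bC d y0 C v) (bC_mem hF C v) (LC d y0 C u v) : Cone Y R) ∈ Ag d y0 u v :=
    InH.mem hr (Or.inr ⟨_, bC_mem hF C v, k2, le_rfl, rfl⟩)
  have tops : Rch d y0 u v (col C (bC d y0 C u) (bC_mem hF C u) (LC d y0 C u v)) ∧
      Rch d y0 u v (col C (bC d y0 C v) (bC_mem hF C v) (LC d y0 C u v)) := by
    rcases hw with ⟨j, hy, h1, h2, rfl⟩ | ⟨j, hy, h1, h2, rfl⟩
    · have a := rch_col hd hF (Or.inl rfl) hr h1 h2 h k1 le_rfl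
      exact ⟨a, a.step m2 htop⟩
    · have a := rch_col hd hF (Or.inr rfl) hr h1 h2 h k2 le_rfl
      exact ⟨a.step m1 (by rw [hg.symm]; exact htop), a⟩
  rcases hw' with ⟨j, hy, h1, h2, rfl⟩ | ⟨j, hy, h1, h2, rfl⟩
  · exact rch_col hd hF (Or.inl rfl) hr k1 le_rfl tops.1 h1 h2
  · exact rch_col hd hF (Or.inr rfl) hr k2 le_rfl tops.2 h1 h2

/-- at the start, depth is only possible in the own horoball -/
theorem deep_start (hd : IsGeod d) (hF : Fam d Y 2 2) {C : V} {u v : Cone Y R}
    (h : Deep d y0 C u v (base y0 u)) : 0 < kC C u := by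
  by_contra hk
  have hk0 : kC C u = 0 := by omega
  obtain ⟨_, ⟨y, hy, h2⟩, h3, _⟩ := h
  unfold SC at h3
  rw [hk0, pow_zero] at h3
  have := proj_le (d := d) (hF.ne C) (base y0 u) hy
  unfold bC at h3
  omega

/-- a feet lemma: a non-deep point near `Y C` is near a foot, which lies in the guess set if `C`
is relevant -/
theorem near_InH (hd : IsGeod d) (hF : Fam d Y 2 2) {C : V} {u v : Cone Y R} {p : X}
    (hb : d (base y0 u) p + d p (base y0 v) = d (base y0 u) (base y0 v))
    (hn : Near d (Y C) 49 p) (hD : ¬ Deep d y0 C u v p) :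
    ∃ w, InH d y0 C u v w ∧ rho d (pt p) w ≤ 1536 := by
  have h : SC d y0 C u p < 1536 ∨ SC d y0 C v p < 1536 := by
    by_contra hcon
    push Not at hcon
    exact hD ⟨hb, hn, hcon.1, hcon.2⟩
  rcases h with h | h
  · exact ⟨_, Or.inl ⟨_, bC_mem hF C u, le_rfl, kC_le_LC C u v, rfl⟩, near_foot hd hF h⟩
  · exact ⟨_, Or.inr ⟨_, bC_mem hF C v, le_rfl, kC_le_LC' C u v, rfl⟩, near_foot hd hF h⟩

theorem chain (hd : IsGeod d) (hh : Hyp d 2) (hF : Fam d Y 2 2) (hy0 : ∀ C, y0 C ∈ Y C)
    (u v : Cone Y R) :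
    Relation.ReflTransGen (fun a b => b ∈ Ag d y0 u v ∧ rho d a b ≤ 5154) u v := by
  have hg := isGeod_rho (R := R) (Y := Y) hd hF.ne
  change Rch d y0 u v v
  obtain ⟨g, g0, gm, hgs⟩ := exists_geodSeq hd (base y0 u) (base y0 v)
  set m := d (base y0 u) (base y0 v) with hm
  have hbt : ∀ i, i ≤ m → d (base y0 u) (g i) + d (g i) (base y0 v) =
      d (base y0 u) (base y0 v) := by
    intro i hi
    have := hgs.mem hi
    rw [g0, gm] at this
    exact this
  -- the endpoint `u`
  have hstart : (Shallow d y0 u v (g 0) → Rch d y0 u v (pt (g 0))) ∧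
      ∀ C, Deep d y0 C u v (g 0) → ∀ w, InH d y0 C u v w → Rch d y0 u v w := by
    rw [g0]
    refine ⟨fun hsh => ?_, fun C hC w hw => ?_⟩
    · by_cases hk : ∃ C, 0 < kC C u
      · obtain ⟨C, hk⟩ := hk
        have e := bC_eq (d := d) hd hy0 hk
        have hmem := base_mem hy0 hk
        have hu := eq_col_bC (d := d) hd hF hy0 hk
        have hnear : Near d (Y C) 49 (base y0 u) := ⟨_, hmem, by rw [hd.self]; omega⟩
        have hpt : (pt (base y0 u) : Cone Y R) ∈ Ag d y0 u v :=
          Or.inr (Or.inr (Or.inl ⟨_, hsh, rfl⟩))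
        by_cases hs : SC d y0 C u (base y0 u) < 1536
        · have h1 := near_foot hd hF hs
          rw [← hu] at h1
          have h0 : Rch d y0 u v u := Relation.ReflTransGen.refl
          exact h0.step hpt (by rw [hg.symm]; omega)
        · have h10 : 10 ≤ kC C u := by
            unfold SC at hs
            rw [e, hd.self] at hs
            exact ten_le_of_pow (by omega)
          have hr : 10 ≤ LC d y0 C u v := ten_le_LC (Or.inl h10)
          obtain ⟨w, hw1, hw2⟩ := near_InH hd hF (hsh.1) hnear (hsh.2 C)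
          have hwr : Rch d y0 u v w := by
            refine rch_InH hd hF hr (w := u) (Or.inl ⟨_, bC_mem hF C u, le_rfl,
              kC_le_LC C u v, hu⟩) hw1 Relation.ReflTransGen.refl
          exact hwr.step hpt (by rw [hg.symm]; omega)
      · cases u with
        | pt x => exact Relation.ReflTransGen.refl
        | hor C y hy k hk' =>
          exact absurd ⟨C, by simp [kC]⟩ hk
        | apex C =>
          exact absurd ⟨C, by simp [kC]⟩ hk
    · have hk := deep_start hd hF hC
      have hu := eq_col_bC (d := d) hd hF hy0 hk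
      have hr := hC.rel hd hh hF hy0
      exact rch_InH hd hF hr (w := u) (Or.inl ⟨_, bC_mem hF C u, le_rfl,
        kC_le_LC C u v, hu⟩) hw Relation.ReflTransGen.refl
  -- the induction along the geodesic
  have hind : ∀ i, i ≤ m → (Shallow d y0 u v (g i) → Rch d y0 u v (pt (g i))) ∧
      ∀ C, Deep d y0 C u v (g i) → ∀ w, InH d y0 C u v w → Rch d y0 u v w := by
    intro i
    induction i with
    | zero => intro _; exact hstart
    | succ i ih =>
      intro hi
      obtain ⟨ih1, ih2⟩ := ih (by omega)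
      have h1 : d (g i) (g (i + 1)) = 1 := by
        rw [hgs i (i + 1) (by omega) hi]
        omega
      have h1' : d (g (i + 1)) (g i) = 1 := by rw [hd.symm]; exact h1
      have hrho : rho d (pt (g i) : Cone Y R) (pt (g (i + 1))) ≤ 1 := by
        have := rho_pt_pt (Y := Y) (R := R) hd (g i) (g (i + 1))
        omega
      refine ⟨fun hsh => ?_, fun C' hC' w hw => ?_⟩
      · have hpt : (pt (g (i + 1)) : Cone Y R) ∈ Ag d y0 u v :=
          Or.inr (Or.inr (Or.inl ⟨_, hsh, rfl⟩))
        by_cases hD : ∃ C, Deep d y0 C u v (g i)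
        · obtain ⟨C, hD⟩ := hD
          have hn := ((hD.near hd hh hF hy0).trans hd h1'.le).mono
            (show 44 + 1 ≤ 49 by norm_num)
          obtain ⟨w, hw1, hw2⟩ := near_InH hd hF (hbt (i + 1) hi) hn (hsh.2 C)
          exact (ih2 C hD w hw1).step hpt (by rw [hg.symm]; omega)
        · have hs : Shallow d y0 u v (g i) := ⟨hbt i (by omega), fun C hC => hD ⟨C, hC⟩⟩
          exact (ih1 hs).step hpt (by omega)
      · have hr' := hC'.rel hd hh hF hy0
        have hn' := ((hC'.near hd hh hF hy0).trans hd h1.le).mono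
          (show 44 + 1 ≤ 49 by norm_num)
        by_cases hD : ∃ C, Deep d y0 C u v (g i)
        · obtain ⟨C, hD⟩ := hD
          by_cases hCC : C = C'
          · subst hCC
            exact ih2 C hD w hw
          · have hn := ((hD.near hd hh hF hy0).trans hd h1'.le).mono
              (show 44 + 1 ≤ 49 by norm_num)
            have hnD : ¬ Deep d y0 C u v (g (i + 1)) := fun h =>
              hCC (h.unique hd hh hF hy0 hC')
            have hnD' : ¬ Deep d y0 C' u v (g i) := fun h =>
              hCC (hD.unique hd hh hF hy0 h)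
            obtain ⟨w1, a1, a2⟩ := near_InH hd hF (hbt (i + 1) hi) hn hnD
            obtain ⟨w2, b1, b2⟩ := near_InH hd hF (hbt i (by omega)) hn' hnD'
            have t1 := hg.tri w1 (pt (g (i + 1))) w2
            have t2 := hg.tri (pt (g (i + 1)) : Cone Y R) (pt (g i)) w2
            have s1 := hg.symm w1 (pt (g (i + 1)))
            have s2 := hg.symm (pt (g (i + 1)) : Cone Y R) (pt (g i))
            have hw2r : Rch d y0 u v w2 :=
              (ih2 C hD w1 a1).step (InH.mem hr' b1) (by omega)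
            exact rch_InH hd hF hr' b1 hw hw2r
        · have hs : Shallow d y0 u v (g i) := ⟨hbt i (by omega), fun C hC => hD ⟨C, hC⟩⟩
          obtain ⟨w2, b1, b2⟩ := near_InH hd hF (hbt i (by omega)) hn' (hs.2 C')
          have hw2r : Rch d y0 u v w2 := (ih1 hs).step (InH.mem hr' b1) (by omega)
          exact rch_InH hd hF hr' b1 hw hw2r
  -- the endpoint `v`
  obtain ⟨e1, e2⟩ := hind m le_rfl
  rw [gm] at e1 e2
  by_cases hD : ∃ C, Deep d y0 C u v (base y0 v)
  · obtain ⟨C, hD⟩ := hD
    have hk := deep_start hd hF (hD.symm hd)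
    have hv := eq_col_bC (d := d) hd hF hy0 hk
    exact e2 C hD v (Or.inr ⟨_, bC_mem hF C v, le_rfl, kC_le_LC' C u v, hv⟩)
  · have hsh : Shallow d y0 u v (base y0 v) :=
      ⟨by rw [hd.self, add_zero], fun C hC => hD ⟨C, hC⟩⟩
    have hpr := e1 hsh
    have hvA : v ∈ Ag d y0 u v := Or.inr (Or.inl rfl)
    by_cases hk : ∃ C, 0 < kC C v
    · obtain ⟨C, hk⟩ := hk
      have e := bC_eq (d := d) hd hy0 hk
      have hmem := base_mem hy0 hk
      have hv := eq_col_bC (d := d) hd hF hy0 hk
      have hnear : Near d (Y C) 49 (base y0 v) := ⟨_, hmem, by rw [hd.self]; omega⟩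
      by_cases hs : SC d y0 C v (base y0 v) < 1536
      · have h1 := near_foot hd hF hs
        rw [← hv] at h1
        exact hpr.step hvA (by omega)
      · have h10 : 10 ≤ kC C v := by
          unfold SC at hs
          rw [e, hd.self] at hs
          exact ten_le_of_pow (by omega)
        have hr : 10 ≤ LC d y0 C u v := ten_le_LC (Or.inr (Or.inl h10))
        obtain ⟨w, hw1, hw2⟩ := near_InH hd hF (hsh.1) hnear (hsh.2 C)
        have hwr : Rch d y0 u v w := hpr.step (InH.mem hr hw1) (by omega)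
        exact rch_InH hd hF hr hw1 (Or.inr ⟨_, bC_mem hF C v, le_rfl,
          kC_le_LC' C u v, hv⟩) hwr
    · cases v with
      | pt x => exact hpr
      | hor C y hy k hk' => exact absurd ⟨C, by simp [kC]⟩ hk
      | apex C => exact absurd ⟨C, by simp [kC]⟩ hk

end Cone

end Burn
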