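import Pool.Agent.W_MP_3ab0ed_burn.Basic

/-!
Nearest point projections to quasiconvex subsets of an integer valued geodesic hyperbolic space.
-/

namespace Burn

variable {X : Type*} {d : X → X → ℕ}

/-- a nearest point of `Y` -/
noncomputable def proj (d : X → X → ℕ) (Y : Set X) (x : X) : X := by
  classical
  exact if h : ∃ q ∈ Y, ∀ y ∈ Y, d x q ≤ d x y then h.choose else x

theorem exists_nearest (d : X → X → ℕ) {Y : Set X} (hY : Y.Nonempty) (x : X) :
    ∃ q ∈ Y, ∀ y ∈ Y, d x q ≤ d x y := by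
  classical
  have h : ∃ n, ∃ q ∈ Y, d x q = n := by
    obtain ⟨y, hy⟩ := hY
    exact ⟨_, y, hy, rfl⟩
  obtain ⟨q, hq, hq2⟩ := Nat.find_spec h
  refine ⟨q, hq, fun y hy => ?_⟩
  rw [hq2]
  exact Nat.find_min' h ⟨y, hy, rfl⟩

theorem proj_mem {Y : Set X} (hY : Y.Nonempty) (x : X) : proj d Y x ∈ Y := by
  classical
  have h := exists_nearest d hY x
  unfold proj
  rw [dif_pos h]
  exact h.choose_spec.1

theorem proj_le {Y : Set X} (hY : Y.Nonempty) (x : X) {y : X} (hy : y ∈ Y) :
    d x (proj d Y x) ≤ d x y := by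
  classical
  have h := exists_nearest d hY x
  unfold proj
  rw [dif_pos h]
  exact h.choose_spec.2 y hy

theorem proj_self (hd : IsGeod d) {Y : Set X} {y : X} (hy : y ∈ Y) : proj d Y y = y := by
  have h := proj_le (d := d) ⟨y, hy⟩ y hy
  rw [hd.self] at h
  exact (hd.eq _ _ (Nat.le_zero.mp h)).symm

/-- `κ`-quasiconvexity -/
def QC (d : X → X → ℕ) (Y : Set X) (κ : ℕ) : Prop :=
  ∀ y y' p, y ∈ Y → y' ∈ Y → d y p + d p y' = d y y' → Near d Y κ p

/-- π1 -/
theorem proj1 (hd : IsGeod d) {δ κ : ℕ} (hh : Hyp d δ) {Y : Set X} (hq : QC d Y κ) (x : X)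
    {y : X} (hy : y ∈ Y) :
    d x (proj d Y x) + d (proj d Y x) y ≤ d x y + (2 * κ + 2 * δ + 1) := by
  set q := proj d Y x with hqdef
  have hqm : q ∈ Y := proj_mem ⟨y, hy⟩ x
  have hle : ∀ y' ∈ Y, d x q ≤ d x y' := fun y' hy' => proj_le ⟨y, hy⟩ x hy'
  rcases lt_or_ge (d q y) (κ + δ + 1) with h | h
  · have := hle y hy
    omega
  · obtain ⟨z, hz1, hz2⟩ := hd.geod q y (κ + δ + 1) h
    obtain ⟨y', hy', hzy'⟩ := hq q y z hqm hy (by omega)
    have h1 := hle y' hy'
    have h2 := hd.tri x z y'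
    have h3 := hh x z q y
    have h4 := hd.symm z q
    rcases le_total (d x q + d z y) (d x y + d z q) with h5 | h5
    · rw [max_eq_right h5] at h3
      omega
    · rw [max_eq_left h5] at h3
      omega

/-- π2 -/
theorem proj2 (hd : IsGeod d) {δ κ : ℕ} (hh : Hyp d δ) {Y : Set X} (hY : Y.Nonempty)
    (hq : QC d Y κ) (x x' : X)
    (hD : 4 * κ + 5 * δ + 2 < 2 * d (proj d Y x) (proj d Y x')) :
    d x (proj d Y x) + d (proj d Y x) (proj d Y x') + d (proj d Y x') x' ≤
      d x x' + (4 * κ + 5 * δ + 2) := by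
  have h1 := proj1 hd hh hq x (proj_mem (d := d) hY x')
  have h2 := proj1 hd hh hq x' (proj_mem (d := d) hY x)
  set q := proj d Y x
  set q' := proj d Y x'
  have h3 := hh x q' x' q
  have s1 := hd.symm q' q
  have s2 := hd.symm q' x'
  have s3 := hd.symm x' q
  rcases le_total (d x x' + d q' q) (d x q + d q' x') with h5 | h5
  · rw [max_eq_right h5] at h3
    omega
  · rw [max_eq_left h5] at h3
    omega

/-- π3 -/
theorem proj3 (hd : IsGeod d) {δ κ : ℕ} (hh : Hyp d δ) {Y : Set X} (hY : Y.Nonempty)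
    (hq : QC d Y κ) (x x' : X) :
    d (proj d Y x) (proj d Y x') ≤ d x x' + (4 * κ + 5 * δ + 2) := by
  rcases lt_or_ge (4 * κ + 5 * δ + 2) (2 * d (proj d Y x) (proj d Y x')) with h | h
  · have := proj2 hd hh hY hq x x' h
    omega
  · omega

/-- π4 -/
theorem proj4 (hd : IsGeod d) {δ κ : ℕ} (hh : Hyp d δ) {Y : Set X} (hY : Y.Nonempty)
    (hq : QC d Y κ) (x x' : X)
    (hD : 4 * κ + 5 * δ + 2 < 2 * d (proj d Y x) (proj d Y x')) :
    Btw d (4 * κ + 5 * δ + 2) x (proj d Y x) x' := by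
  have h := proj2 hd hh hY hq x x' hD
  have t := hd.tri (proj d Y x) (proj d Y x') x'
  unfold Btw
  omega

/-- π4' -/
theorem proj4' (hd : IsGeod d) {δ κ : ℕ} (hh : Hyp d δ) {Y : Set X} (hY : Y.Nonempty)
    (hq : QC d Y κ) (x x' : X)
    (hD : 4 * κ + 5 * δ + 2 < 2 * d (proj d Y x) (proj d Y x')) :
    Btw d (4 * κ + 5 * δ + 2) x (proj d Y x') x' := by
  have h := proj2 hd hh hY hq x x' hD
  have t := hd.tri x (proj d Y x) (proj d Y x')
  unfold Btw
  omega

/-- a point almost between two points of a quasiconvex set is near the set -/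
theorem near_of_btw_qc (hd : IsGeod d) {δ κ e : ℕ} (hh : Hyp d δ) {Y : Set X}
    (hq : QC d Y κ) {y y' p : X} (hy : y ∈ Y) (hy' : y' ∈ Y) (h : Btw d e y p y') :
    Near d Y (κ + (e + δ)) p := by
  obtain ⟨z, hz1, _, hz3⟩ := exists_near_of_btw hd hh h
  exact (hq y y' z hy hy' hz1).trans hd hz3

/-- E2: two quasiconvex sets with small overlap: data at one end. -/
theorem overlap_lemma (hd : IsGeod d) {δ κ e s M : ℕ} (hh : Hyp d δ) {Y Y' : Set X}
    (hq : QC d Y κ) (hq' : QC d Y' κ)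
    (hov : ∀ t a b, Near d Y t a → Near d Y' t a → Near d Y t b → Near d Y' t b →
      d a b ≤ 2 * t + M)
    {x' p b b' : X} (hb : b ∈ Y) (hb' : b' ∈ Y') (h1 : Btw d e x' b p) (h2 : Btw d e x' b' p)
    (hp : Near d Y s p) (hp' : Near d Y' s p) :
    min (d p b) (d p b') ≤ 2 * (s + 4 * δ + κ + e) + M + e := by
  set l := min (min (d p b) (d p b')) (d p x') with hl
  have hl1 : l ≤ d p b := (min_le_left _ _).trans (min_le_left _ _)
  have hl2 : l ≤ d p b' := (min_le_left _ _).trans (min_le_right _ _)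
  have hl3 : l ≤ d p x' := min_le_right _ _
  obtain ⟨w, hw1, hw2⟩ := hd.geod p x' l hl3
  -- the claim
  have claim : ∀ (Z : Set X), QC d Z κ → Near d Z s p → ∀ c ∈ Z, Btw d e x' c p → l ≤ d p c →
      Near d Z (s + 4 * δ + κ + e) w := by
    intro Z hZ hpZ c hc hcb hlc
    have hwI : Btw d 0 p w x' := by unfold Btw; omega
    rcases tripod hd hh hwI c with h | h
    · -- `w` almost between `p` and `c`
      obtain ⟨z, hz1, _, hz3⟩ := exists_near_of_btw hd hh h
      obtain ⟨q, hqZ, hpq⟩ := hpZ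
      have hzI : Btw d 0 p z c := by unfold Btw; omega
      rcases tripod hd hh hzI q with h' | h'
      · unfold Btw at h'
        exact ⟨q, hqZ, (hd.tri w z q).trans (by omega)⟩
      · have := near_of_btw_qc hd hh hZ hc hqZ h'
        exact (this.trans hd hz3).mono (by omega)
    · unfold Btw at h hcb
      have s1 := hd.symm b p
      have s2 := hd.symm c p
      have s3 := hd.symm x' w
      have s4 := hd.symm x' p
      exact ⟨c, hc, by omega⟩
  have hw := claim Y hq hp b hb h1 hl1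
  have hw' := claim Y' hq' hp' b' hb' h2 hl2
  have hov1 := hov (s + 4 * δ + κ + e) p w (hp.mono (by omega)) (hp'.mono (by omega)) hw hw'
  unfold Btw at h1 h2
  have s1 := hd.symm b p
  have s2 := hd.symm b' p
  have s4 := hd.symm x' p
  rcases le_total (min (d p b) (d p b')) (d p x') with h | h
  · have : l = min (d p b) (d p b') := min_eq_left h
    omega
  · have : l = d p x' := min_eq_right h
    have h5 : d p b ≤ d p x' + e := by omega
    have h6 : min (d p b) (d p b') ≤ d p b := min_le_left _ _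
    omega

/-- The family data at scale one. -/
structure Fam {X V : Type*} (d : X → X → ℕ) (Y : V → Set X) (κ M : ℕ) : Prop where
  ne : ∀ C, (Y C).Nonempty
  qc : ∀ C, QC d (Y C) κ
  ov : ∀ C C', C ≠ C' → ∀ s a b, Near d (Y C) s a → Near d (Y C') s a → Near d (Y C) s b →
    Near d (Y C') s b → d a b ≤ 2 * s + M

end Burn
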