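import Pool.Agent.W_MP_3ab0ed_burn.RelDist
import Pool.Agent.W_MP_3ab0ed_burn.Proj

/-!
The cone-off of depth `R` (truncated combinatorial horoballs) of a family of subsets.
-/

namespace Burn

/-- vertices of the cone-off of depth `R`; `hor C y _ k _` has level `k + 1`. -/
inductive Cone {X V : Type*} (Y : V → Set X) (R : ℕ) : Type _
  | pt (x : X)
  | hor (C : V) (y : X) (hy : y ∈ Y C) (k : ℕ) (hk : k < R)
  | apex (C : V)

namespace Cone

variable {X V : Type*} {Y : V → Set X} {R : ℕ}

/-- the column over `y` -/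
def col (C : V) (y : X) (hy : y ∈ Y C) : ℕ → Cone Y R
  | 0 => pt y
  | k + 1 => if h : k < R then hor C y hy k h else apex C

/-- level -/
def lev : Cone Y R → ℕ
  | pt _ => 0
  | hor _ _ _ k _ => k + 1
  | apex _ => R + 1

open Classical in
/-- the level in the horoball `C` (0 outside) -/
noncomputable def kC (C : V) : Cone Y R → ℕ
  | pt _ => 0
  | hor C' _ _ k _ => if C' = C then k + 1 else 0
  | apex C' => if C' = C then R + 1 else 0

/-- the base point -/
def base (y0 : V → X) : Cone Y R → X
  | pt x => x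
  | hor _ y _ _ _ => y
  | apex C => y0 C

theorem col_zero (C : V) (y : X) (hy : y ∈ Y C) : (col C y hy 0 : Cone Y R) = pt y := rfl

theorem col_succ (C : V) (y : X) (hy : y ∈ Y C) {k : ℕ} (hk : k < R) :
    (col C y hy (k + 1) : Cone Y R) = hor C y hy k hk := by
  simp [col, hk]

theorem col_top (C : V) (y : X) (hy : y ∈ Y C) {k : ℕ} (hk : R < k) :
    (col C y hy k : Cone Y R) = apex C := by
  obtain ⟨k, rfl⟩ : ∃ m, k = m + 1 := ⟨k - 1, by omega⟩
  simp only [col]
  rw [dif_neg (by omega)]

theorem lev_col (C : V) (y : X) (hy : y ∈ Y C) (k : ℕ) :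
    lev (col C y hy k : Cone Y R) = min k (R + 1) := by
  cases k with
  | zero => simp [col, lev]
  | succ k =>
    by_cases h : k < R
    · rw [col_succ C y hy h]
      simp only [lev]; omega
    · rw [col_top C y hy (by omega)]
      simp only [lev]; omega

open Classical in
theorem kC_col (C' C : V) (y : X) (hy : y ∈ Y C) (k : ℕ) :
    kC C' (col C y hy k : Cone Y R) = if C = C' then min k (R + 1) else 0 := by
  cases k with
  | zero => simp [col, kC]
  | succ k =>
    by_cases h : k < R
    · rw [col_succ C y hy h]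
      simp only [kC]
      split_ifs <;> omega
    · rw [col_top C y hy (by omega)]
      simp only [kC]
      split_ifs <;> omega

theorem kC_col_self (C : V) (y : X) (hy : y ∈ Y C) (k : ℕ) :
    kC C (col C y hy k : Cone Y R) = min k (R + 1) := by
  rw [kC_col]; simp

theorem kC_col_ne {C' C : V} (h : C ≠ C') (y : X) (hy : y ∈ Y C) (k : ℕ) :
    kC C' (col C y hy k : Cone Y R) = 0 := by
  rw [kC_col]; simp [h]

theorem base_col (y0 : V → X) (C : V) (y : X) (hy : y ∈ Y C) {k : ℕ} (hk : k ≤ R) :
    base y0 (col C y hy k : Cone Y R) = y := by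
  cases k with
  | zero => rfl
  | succ k => rw [col_succ C y hy (by omega)]; rfl

theorem kC_le_lev (C : V) (u : Cone Y R) : kC C u ≤ lev u := by
  cases u with
  | pt x => simp [kC, lev]
  | hor C' y hy k hk => simp only [kC, lev]; split_ifs <;> omega
  | apex C' => simp only [kC, lev]; split_ifs <;> omega

theorem kC_le (C : V) (u : Cone Y R) : kC C u ≤ R + 1 := by
  cases u with
  | pt x => simp [kC]
  | hor C' y hy k hk => simp only [kC]; split_ifs <;> omega
  | apex C' => simp only [kC]; split_ifs <;> omega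

theorem kC_unique {C C' : V} {u : Cone Y R} (h : 0 < kC C u) (h' : 0 < kC C' u) : C = C' := by
  cases u with
  | pt x => simp [kC] at h
  | hor D y hy k hk =>
    simp only [kC] at h h'
    by_contra hne
    by_cases h1 : D = C
    · rw [if_neg (fun h2 => hne (h1.symm.trans h2))] at h'
      omega
    · rw [if_neg h1] at h
      omega
  | apex D =>
    simp only [kC] at h h'
    by_contra hne
    by_cases h1 : D = C
    · rw [if_neg (fun h2 => hne (h1.symm.trans h2))] at h'
      omega
    · rw [if_neg h1] at h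
      omega

theorem kC_pt (C : V) (x : X) : kC C (pt x : Cone Y R) = 0 := rfl

theorem kC_apex_self (C : V) : kC C (apex C : Cone Y R) = R + 1 := by simp [kC]

/-- a vertex in the horoball `C` is on a column over its base, if `y0` is a choice of base
points. -/
theorem eq_col {y0 : V → X} (hy0 : ∀ C, y0 C ∈ Y C) {C : V} {u : Cone Y R} (h : 0 < kC C u) :
    ∃ hy : base y0 u ∈ Y C, u = col C (base y0 u) hy (kC C u) := by
  cases u with
  | pt x => simp [kC] at h
  | hor D y hy k hk =>
    simp only [kC] at h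
    have h1 : D = C := by
      by_contra h1
      rw [if_neg h1] at h
      omega
    subst h1
    refine ⟨hy, ?_⟩
    simp only [kC, if_true, base]
    rw [col_succ D y hy hk]
  | apex D =>
    simp only [kC] at h
    have h1 : D = C := by
      by_contra h1
      rw [if_neg h1] at h
      omega
    subst h1
    refine ⟨hy0 D, ?_⟩
    simp only [kC, if_true, base]
    rw [col_top D _ _ (by omega)]

/-- directed edges of the cone-off -/
inductive St (d : X → X → ℕ) : Cone Y R → Cone Y R → Prop
  | base {x x' : X} (h : d x x' ≤ 1) : St d (pt x) (pt x')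
  | hor {C : V} {y y' : X} (hy : y ∈ Y C) (hy' : y' ∈ Y C) (k : ℕ) (hk : k < R)
      (h : d y y' ≤ 2 ^ (k + 1)) : St d (hor C y hy k hk) (hor C y' hy' k hk)
  | up {C : V} {y : X} (hy : y ∈ Y C) (k : ℕ) (hk : k ≤ R) :
      St d (col C y hy k) (col C y hy (k + 1))

/-- edges of the cone-off (loops allowed) -/
def Sx (d : X → X → ℕ) (u v : Cone Y R) : Prop := St d u v ∨ St d v u

theorem Sx.symm {d : X → X → ℕ} {u v : Cone Y R} (h : Sx d u v) : Sx d v u := Or.symm h

/-- the metric of the cone-off -/
noncomputable def rho (d : X → X → ℕ) (u v : Cone Y R) : ℕ := rdist (Sx d) u v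

variable {d : X → X → ℕ}

theorem chn_pt (hd : IsGeod d) (x x' : X) :
    Chn (Sx d) (d x x') (pt x : Cone Y R) (pt x') := by
  have key : ∀ n x, Chn (fun a b => d a b ≤ 1) n x x' →
      Chn (Sx d) n (pt x : Cone Y R) (pt x') := by
    intro n
    induction n with
    | zero =>
      intro x h
      have : x = x' := h
      subst this
      rfl
    | succ n ih =>
      intro x h
      obtain ⟨w, hw1, hw2⟩ := h
      exact ⟨pt w, Or.inl (St.base hw1), ih w hw2⟩
  exact key _ _ (chn_of_isGeod hd x x')

theorem chn_col (C : V) (y : X) (hy : y ∈ Y C) (i n : ℕ) (h : i + n ≤ R + 1) :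
    Chn (Sx d) n (col C y hy i : Cone Y R) (col C y hy (i + n)) := by
  induction n generalizing i with
  | zero => rfl
  | succ n ih =>
    refine ⟨col C y hy (i + 1), Or.inl (St.up hy i (by omega)), ?_⟩
    have := ih (i + 1) (by omega)
    rwa [show i + 1 + n = i + (n + 1) by omega] at this

theorem exists_chn_pt (hne : ∀ C, (Y C).Nonempty) (u : Cone Y R) :
    ∃ n x, Chn (Sx d) n u (pt x) := by
  cases u with
  | pt x => exact ⟨0, x, rfl⟩
  | hor C y hy k hk =>
    have := chn_col (d := d) (R := R) C y hy 0 (k + 1) (by omega)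
    rw [Nat.zero_add, col_zero, col_succ C y hy hk] at this
    exact ⟨_, _, Chn.symm (fun _ _ h => Sx.symm h) this⟩
  | apex C =>
    obtain ⟨y, hy⟩ := hne C
    have := chn_col (d := d) (R := R) C y hy 0 (R + 1) (by omega)
    rw [Nat.zero_add, col_zero, col_top C y hy (by omega)] at this
    exact ⟨_, _, Chn.symm (fun _ _ h => Sx.symm h) this⟩

theorem connected (hd : IsGeod d) (hne : ∀ C, (Y C).Nonempty) (u v : Cone Y R) :
    ∃ n, Chn (Sx d) n u v := by
  obtain ⟨n, x, h1⟩ := exists_chn_pt (d := d) hne u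
  obtain ⟨m, x', h2⟩ := exists_chn_pt (d := d) hne v
  exact ⟨_, (h1.trans (chn_pt hd x x')).trans (Chn.symm (fun _ _ h => Sx.symm h) h2)⟩

theorem isGeod_rho (hd : IsGeod d) (hne : ∀ C, (Y C).Nonempty) :
    IsGeod (rho d : Cone Y R → Cone Y R → ℕ) :=
  isGeod_rdist (fun _ _ h => Sx.symm h) (connected hd hne)

/-! ### upper bounds -/

theorem rho_pt_pt (hd : IsGeod d) (x x' : X) : rho d (pt x : Cone Y R) (pt x') ≤ d x x' :=
  rdist_le (chn_pt hd x x')

theorem rho_col_le (C : V) (y : X) (hy : y ∈ Y C) {i j : ℕ} (hij : i ≤ j) :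
    rho d (col C y hy i : Cone Y R) (col C y hy j) ≤ j - i := by
  rcases le_or_gt j (R + 1) with h | h
  · have := chn_col (d := d) (R := R) C y hy i (j - i) (by omega)
    rw [show i + (j - i) = j by omega] at this
    exact rdist_le this
  · rw [col_top C y hy (show R < j by omega)]
    rcases le_or_gt i (R + 1) with h' | h'
    · have := chn_col (d := d) (R := R) C y hy i (R + 1 - i) (by omega)
      rw [show i + (R + 1 - i) = R + 1 by omega,
        col_top C y hy (show R < R + 1 by omega)] at this
      exact le_trans (rdist_le this) (by omega : R + 1 - i ≤ j - i)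
    · rw [col_top C y hy (show R < i by omega)]
      exact (rdist_le (n := 0) rfl).trans (Nat.zero_le _)

theorem rho_hor_le {C : V} {y y' : X} (hy : y ∈ Y C) (hy' : y' ∈ Y C) {j : ℕ}
    (h : d y y' ≤ 2 ^ j) :
    rho d (col C y hy j : Cone Y R) (col C y' hy' j) ≤ 1 := by
  cases j with
  | zero => exact rdist_step (Or.inl (St.base (by simpa using h)))
  | succ k =>
    by_cases hk : k < R
    · rw [col_succ C y hy hk, col_succ C y' hy' hk]
      exact rdist_step (Or.inl (St.hor hy hy' k hk h))
    · rw [col_top C y hy (by omega), col_top C y' hy' (by omega)]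
      exact (rdist_le (n := 0) rfl).trans (Nat.zero_le _)

/-! ### lower bounds -/

theorem kC_St (C : V) {u v : Cone Y R} (h : St d u v) : kC C u ≤ kC C v ∧ kC C v ≤ kC C u + 1 := by
  cases h with
  | base h => simp [kC]
  | hor hy hy' k hk h => simp only [kC]; split_ifs <;> omega
  | up hy k hk => rw [kC_col, kC_col]; split_ifs <;> omega

theorem kC_Sx (C : V) {u v : Cone Y R} (h : Sx d u v) : kC C v ≤ kC C u + 1 := by
  rcases h with h | h
  · exact (kC_St C h).2
  · have := (kC_St C h).1
    omega

theorem lev_St {u v : Cone Y R} (h : St d u v) : lev u ≤ lev v ∧ lev v ≤ lev u + 1 := by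
  cases h with
  | base h => simp [lev]
  | hor hy hy' k hk h => simp [lev]
  | up hy k hk => rw [lev_col, lev_col]; omega

theorem lev_Sx {u v : Cone Y R} (h : Sx d u v) : lev v ≤ lev u + 1 := by
  rcases h with h | h
  · exact (lev_St h).2
  · have := (lev_St h).1
    omega

theorem kC_lip (hd : IsGeod d) (hne : ∀ C, (Y C).Nonempty) (C : V) (u v : Cone Y R) :
    kC C v ≤ kC C u + rho d u v :=
  lip_rdist (connected hd hne) (kC C) (fun _ _ h => kC_Sx C h) u v

theorem lev_lip (hd : IsGeod d) (hne : ∀ C, (Y C).Nonempty) (u v : Cone Y R) :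
    lev v ≤ lev u + rho d u v :=
  lip_rdist (connected hd hne) lev (fun _ _ h => lev_Sx h) u v

/-- edges move the base point by at most `2 ^ level` -/
theorem base_St (hd : IsGeod d) (y0 : V → X) {u v : Cone Y R} (h : St d u v) {m : ℕ}
    (hm : m ≤ R) (_ : lev u ≤ m) (hv : lev v ≤ m) : d (base y0 u) (base y0 v) ≤ 2 ^ m := by
  cases h with
  | base h =>
    have : 1 ≤ 2 ^ m := Nat.one_le_two_pow
    exact le_trans h this
  | hor hy hy' k hk h =>
    simp only [lev] at hv
    exact le_trans h (Nat.pow_le_pow_right (by norm_num) hv)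
  | up hy k hk =>
    rw [lev_col] at hv
    rw [base_col _ _ _ _ (by omega), base_col _ _ _ _ (by omega), hd.self]
    exact Nat.zero_le _

theorem base_Sx (hd : IsGeod d) (y0 : V → X) {u v : Cone Y R} (h : Sx d u v) {m : ℕ}
    (hm : m ≤ R) (hu : lev u ≤ m) (hv : lev v ≤ m) : d (base y0 u) (base y0 v) ≤ 2 ^ m := by
  rcases h with h | h
  · exact base_St hd y0 h hm hu hv
  · rw [hd.symm]
    exact base_St hd y0 h hm hv hu

/-- C4, general form: chains staying at level `≤ m` -/
theorem base_chn (hd : IsGeod d) (y0 : V → X) {m : ℕ} (hm : m ≤ R) {l : ℕ} {u v : Cone Y R}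
    (h : Chn (fun a b => Sx d a b ∧ lev a ≤ m ∧ lev b ≤ m) l u v) :
    d (base y0 u) (base y0 v) ≤ l * 2 ^ m := by
  induction l generalizing u with
  | zero =>
    have : u = v := h
    subst this
    rw [hd.self]; exact Nat.zero_le _
  | succ l ih =>
    obtain ⟨w, ⟨h1, h2, h3⟩, h4⟩ := h
    have h5 := base_Sx hd y0 h1 hm h2 h3
    have h6 := ih h4
    calc d (base y0 u) (base y0 v) ≤ d (base y0 u) (base y0 w) + d (base y0 w) (base y0 v) :=
          hd.tri _ _ _
      _ ≤ 2 ^ m + l * 2 ^ m := add_le_add h5 h6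
      _ = (l + 1) * 2 ^ m := by ring

/-- C4: geodesics which cannot climb above level `m` -/
theorem base_le (hd : IsGeod d) (hne : ∀ C, (Y C).Nonempty) (y0 : V → X) {m : ℕ} (hm : m ≤ R)
    {u v : Cone Y R} (h : lev u + lev v + rho d u v ≤ 2 * m + 1) :
    d (base y0 u) (base y0 v) ≤ rho d u v * 2 ^ m := by
  have key : ∀ l : ℕ, ∀ (a : ℕ) (u : Cone Y R), Chn (Sx d) l u v → lev u ≤ a →
      a + lev v + l ≤ 2 * m + 1 →
      Chn (fun a b => Sx d a b ∧ lev a ≤ m ∧ lev b ≤ m) l u v := by
    intro l
    induction l with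
    | zero => intro _ u h _ _; exact h
    | succ l ih =>
      intro a u h ha hl
      obtain ⟨w, hw1, hw2⟩ := h
      have a2 : lev w ≤ lev v + l :=
        lip_chn lev (fun _ _ h => lev_Sx h) (Chn.symm (fun _ _ h => Sx.symm h) hw2)
      have a3 := lev_Sx hw1
      have a4 := lev_Sx hw1.symm
      exact ⟨w, ⟨hw1, by omega, by omega⟩, ih (a + 1) w hw2 (by omega) (by omega)⟩
  exact base_chn hd y0 hm (key _ _ u (rdist_chn (connected hd hne) u v) le_rfl h)

end Cone

end Burn
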