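import Pool.Agent.W_MP_3ab0ed_burn.Cone

/-!
Distances to the apices, vertical descent of geodesics from an apex (C5, C6).
-/

namespace Burn

namespace Cone

variable {X V : Type*} {Y : V → Set X} {R : ℕ} {d : X → X → ℕ}

/-- C5: a vertex outside the horoball `C` is at distance at least `R + 1` from its apex -/
theorem apex_far (hd : IsGeod d) (hne : ∀ C, (Y C).Nonempty) {C : V} {u : Cone Y R}
    (hu : kC C u = 0) : R + 1 ≤ rho d (apex C) u := by
  have h := kC_lip (R := R) (d := d) hd hne C u (apex C)
  have hg := isGeod_rho (R := R) (Y := Y) hd hne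
  rw [kC_apex_self, hu, hg.symm] at h
  omega

theorem apex_pt (hd : IsGeod d) (hne : ∀ C, (Y C).Nonempty) {C : V} {y : X} (hy : y ∈ Y C) :
    rho d (apex C : Cone Y R) (pt y) = R + 1 := by
  apply le_antisymm
  · have h := rho_col_le (R := R) (d := d) C y hy (Nat.zero_le (R + 1))
    have hg := isGeod_rho (R := R) (Y := Y) hd hne
    rw [col_zero, col_top C y hy (by omega), hg.symm] at h
    omega
  · exact apex_far hd hne rfl

theorem apex_col (hd : IsGeod d) (hne : ∀ C, (Y C).Nonempty) {C : V} {y : X} (hy : y ∈ Y C)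
    {k : ℕ} (hk : k ≤ R + 1) :
    rho d (apex C : Cone Y R) (col C y hy k) = R + 1 - k := by
  have hg := isGeod_rho (R := R) (Y := Y) hd hne
  apply le_antisymm
  · have h := rho_col_le (R := R) (d := d) C y hy hk
    rw [col_top C y hy (show R < R + 1 by omega), hg.symm] at h
    exact h
  · have h := kC_lip (R := R) (d := d) hd hne C (col C y hy k) (apex C)
    rw [kC_apex_self, kC_col_self, hg.symm] at h
    omega

theorem apex_apex (hd : IsGeod d) (hne : ∀ C, (Y C).Nonempty) {C C' : V} (h : C ≠ C') :
    2 * R + 2 ≤ rho d (apex C : Cone Y R) (apex C') := by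
  have hf : ∀ u v : Cone Y R, Sx d u v →
      kC C' v + (R + 1 - kC C v) ≤ kC C' u + (R + 1 - kC C u) + 1 := by
    intro u v huv
    have key : ∀ u v : Cone Y R, St d u v →
        (kC C u = kC C v ∧ kC C' u ≤ kC C' v ∧ kC C' v ≤ kC C' u + 1) ∨
        (kC C' u = kC C' v ∧ kC C u ≤ kC C v ∧ kC C v ≤ kC C u + 1) := by
      intro u v huv
      cases huv with
      | base h => left; simp [kC]
      | hor hy hy' k hk h => left; simp [kC]
      | @up D y hy k hk =>
        by_cases hD : D = C
        · right
          subst hD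
          rw [kC_col_ne h, kC_col_ne h, kC_col_self, kC_col_self]
          omega
        · left
          rw [kC_col_ne hD, kC_col_ne hD, kC_col, kC_col]
          split_ifs <;> omega
    have hle := kC_le C u
    have hle' := kC_le C v
    rcases huv with h1 | h1
    · rcases key _ _ h1 with h2 | h2 <;> omega
    · rcases key _ _ h1 with h2 | h2 <;> omega
  have h1 := lip_rdist (connected hd hne) (fun u : Cone Y R => kC C' u + (R + 1 - kC C u)) hf
    (apex C) (apex C')
  have e1 : kC C' (apex C : Cone Y R) = 0 := by simp [kC, h]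
  have e2 : kC C (apex C' : Cone Y R) = 0 := by simp [kC, Ne.symm h]
  simp only [kC_apex_self, e1, e2] at h1
  show 2 * R + 2 ≤ rdist (Sx d) (apex C) (apex C')
  omega

/-- an edge dropping the level in the horoball `C` is vertical -/
theorem drop_edge {C : V} {u v : Cone Y R} (h : Sx d u v) (hk : kC C u = kC C v + 1) :
    ∃ (y : X) (hy : y ∈ Y C), u = col C y hy (kC C v + 1) ∧ v = col C y hy (kC C v) := by
  rcases h with h | h
  · have := kC_St C h
    omega
  · cases h with
    | base h => simp [kC] at hk
    | hor hy hy' k hk' h => simp only [kC] at hk; split_ifs at hk <;> omega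
    | @up D y hy k hk' =>
      by_cases hD : D = C
      · subst hD
        refine ⟨y, hy, ?_, ?_⟩
        · rw [kC_col_self, show min k (R + 1) = k by omega]
        · rw [kC_col_self, show min k (R + 1) = k by omega]
      · rw [kC_col_ne hD, kC_col_ne hD] at hk
        omega

/-- an edge leaving the horoball `C` -/
theorem exit_edge {C : V} {u v : Cone Y R} (h : Sx d u v) (hu : 0 < kC C u) (hv : kC C v = 0) :
    ∃ (y : X) (hy : y ∈ Y C), u = col C y hy 1 ∧ v = pt y := by
  have h1 := kC_Sx (C := C) h.symm
  obtain ⟨y, hy, h2, h3⟩ := drop_edge h (show kC C u = kC C v + 1 by omega)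
  rw [hv] at h2 h3
  exact ⟨y, hy, h2, h3⟩

theorem Sx_of_le_one (hd : IsGeod d) (hne : ∀ C, (Y C).Nonempty) {u v : Cone Y R}
    (h : rho d u v = 1) : Sx d u v := rdist_one (connected hd hne) h

/-- a geodesic from the apex which drops by one at each step is vertical -/
theorem vertical (hd : IsGeod d) (hne : ∀ C, (Y C).Nonempty) {C : V} {g : ℕ → Cone Y R} {m : ℕ}
    (hm : m ≤ R + 1) (hg : GeodSeq (rho d) g m) (h : ∀ i, i ≤ m → kC C (g i) = R + 1 - i) :
    ∃ (y : X) (hy : y ∈ Y C), ∀ i, i ≤ m → g i = col C y hy (R + 1 - i) := by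
  induction m with
  | zero =>
    obtain ⟨y, hy⟩ := hne C
    refine ⟨y, hy, ?_⟩
    intro i hi
    obtain rfl : i = 0 := by omega
    have h0 := h 0 le_rfl
    rw [col_top C y hy (by omega)]
    -- `kC = R+1` means apex
    have : ∀ u : Cone Y R, kC C u = R + 1 → u = apex C := by
      intro u hu
      cases u with
      | pt x => simp [kC] at hu
      | hor D y hy k hk => simp only [kC] at hu; split_ifs at hu <;> omega
      | apex D =>
        simp only [kC] at hu
        split_ifs at hu with h1
        · rw [h1]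
    exact this _ h0
  | succ m ih =>
    obtain ⟨y, hy, hy2⟩ := ih (by omega) (fun i j hij hj => hg i j hij (by omega))
      (fun i hi => h i (by omega))
    have hs : Sx d (g m) (g (m + 1)) := by
      apply Sx_of_le_one hd hne
      rw [hg m (m + 1) (by omega) le_rfl]
      omega
    have h1 := h m (by omega)
    have h2 := h (m + 1) le_rfl
    obtain ⟨y', hy', h3, h4⟩ := drop_edge (C := C) hs (by omega)
    rw [h2] at h3 h4
    rcases Nat.eq_zero_or_pos m with h0 | h0
    · subst h0
      refine ⟨y', hy', ?_⟩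
      intro i hi
      have h5 := hy2 0 le_rfl
      rcases Nat.eq_zero_or_pos i with h6 | h6
      · subst h6
        rw [h5, col_top C y hy (by omega), col_top C y' hy' (by omega)]
      · obtain rfl : i = 1 := by omega
        exact h4
    · refine ⟨y, hy, ?_⟩
      have h5 := hy2 m le_rfl
      -- g m = col y (R+1-m) = col y' (R+1-(m+1)+1)
      have h6 : (col C y hy (R + 1 - m) : Cone Y R) = col C y' hy' (R + 1 - m) := by
        rw [← h5, h3]
        congr 1
        omega
      have h7 : y = y' := by
        have hk : R + 1 - m = (R - m) + 1 := by omega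
        rw [hk] at h6
        rw [col_succ C y hy (by omega : R - m < R), col_succ C y' hy' (by omega : R - m < R)] at h6
        injection h6
      subst h7
      intro i hi
      rcases Nat.lt_or_ge i (m + 1) with h8 | h8
      · exact hy2 i (by omega)
      · obtain rfl : i = m + 1 := by omega
        exact h4

/-- C6, outside case: initial part of a geodesic from an apex to a vertex outside. -/
theorem descent (hd : IsGeod d) (hne : ∀ C, (Y C).Nonempty) {C : V} {g : ℕ → Cone Y R} {m : ℕ}
    (hg : GeodSeq (rho d) g m) (h0 : g 0 = apex C) (hm : kC C (g m) = 0) :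
    R + 1 ≤ m ∧ ∃ (y : X) (hy : y ∈ Y C), ∀ i, i ≤ R + 1 → g i = col C y hy (R + 1 - i) := by
  classical
  have hge := isGeod_rho (R := R) (Y := Y) hd hne
  have hRm : R + 1 ≤ m := by
    have h1 := apex_far (R := R) (d := d) hd hne hm
    rw [← h0, hg 0 m (Nat.zero_le _) le_rfl] at h1
    omega
  refine ⟨hRm, ?_⟩
  have hex : ∃ t, t ≤ m ∧ kC C (g t) = 0 := ⟨m, le_rfl, hm⟩
  set t := Nat.find hex with ht
  obtain ⟨htm, htz⟩ : t ≤ m ∧ kC C (g t) = 0 := Nat.find_spec hex
  have htmin : ∀ i, i < t → kC C (g i) ≠ 0 := by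
    intro i hi hz
    exact Nat.find_min hex hi ⟨by omega, hz⟩
  have hdist : rho d (apex C) (g t) = t := by
    rw [← h0, hg 0 t (Nat.zero_le _) htm]; omega
  have ht1 : R + 1 ≤ t := by
    have := apex_far (R := R) (d := d) hd hne htz
    omega
  obtain ⟨s, hs⟩ : ∃ s, t = s + 1 := ⟨t - 1, by omega⟩
  have hS : Sx d (g s) (g (s + 1)) := by
    apply Sx_of_le_one hd hne
    rw [hg s (s + 1) (by omega) (by omega)]
    omega
  obtain ⟨y, hy, _, hy3⟩ := exit_edge (C := C) hS
    (Nat.pos_of_ne_zero (htmin s (by omega))) (hs ▸ htz)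
  have ht2 : t = R + 1 := by
    have := apex_pt (R := R) (d := d) hd hne hy
    rw [← hy3, ← hs, hdist] at this
    exact this
  have hk : ∀ i, i ≤ R + 1 → kC C (g i) = R + 1 - i := by
    intro i hi
    have h1 := kC_lip (R := R) (d := d) hd hne C (g i) (g 0)
    have h2 := kC_lip (R := R) (d := d) hd hne C (g (R + 1)) (g i)
    rw [hge.symm, hg 0 i (Nat.zero_le _) (by omega), h0, kC_apex_self] at h1
    rw [hge.symm, hg i (R + 1) hi (by omega), ← ht2, htz] at h2
    omega
  exact vertical hd hne le_rfl (fun i j hij hj => hg i j hij (by omega)) hk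

/-- C6, inside case -/
theorem descent_in (hd : IsGeod d) (hne : ∀ C, (Y C).Nonempty) {C : V} {u w : Cone Y R}
    (hu : 0 < kC C u) (hw : rho d (apex C) w + rho d w u = rho d (apex C) u) :
    ∃ (y : X) (hy : y ∈ Y C), u = col C y hy (kC C u) ∧ w = col C y hy (kC C w) ∧
      kC C u ≤ kC C w ∧ rho d (apex C) w = R + 1 - kC C w := by
  have hge := isGeod_rho (R := R) (Y := Y) hd hne
  -- distance to the apex
  have hcol : ∃ (y : X) (hy : y ∈ Y C), u = col C y hy (kC C u) := by
    classical
    obtain ⟨hy, h⟩ := eq_col (y0 := fun C => (hne C).some) (fun C => (hne C).some_mem) hu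
    exact ⟨_, hy, h⟩
  obtain ⟨y, hy, huy⟩ := hcol
  have hle := kC_le C u
  have hdu : rho d (apex C) u = R + 1 - kC C u := by
    conv_lhs => rw [huy]
    exact apex_col hd hne hy hle
  obtain ⟨g, g0, gw, gu, hg⟩ := exists_geodSeq_through hge hw
  have hm : rho d (apex C) u ≤ R + 1 := by omega
  have hk : ∀ i, i ≤ rho d (apex C) u → kC C (g i) = R + 1 - i := by
    intro i hi
    have h1 := kC_lip (R := R) (d := d) hd hne C (g i) (g 0)
    have h2 := kC_lip (R := R) (d := d) hd hne C (g (rho d (apex C) u)) (g i)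
    rw [hge.symm, hg 0 i (Nat.zero_le _) (by omega), g0, kC_apex_self] at h1
    rw [hge.symm (g (rho d (apex C) u)) (g i), hg i _ hi le_rfl, gu] at h2
    omega
  obtain ⟨z, hz, hz2⟩ := vertical hd hne hm hg hk
  have e1 := hz2 _ le_rfl
  rw [gu, hdu] at e1
  have hwle : rho d (apex C) w ≤ rho d (apex C) u := by omega
  have e2 := hz2 _ hwle
  have e3 := hk _ hwle
  rw [gw] at e2 e3
  refine ⟨z, hz, ?_, ?_, by omega, by omega⟩
  · conv_lhs => rw [e1]
    congr 1
    omega
  · conv_lhs => rw [e2]
    congr 1
    omega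

end Cone

end Burn
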