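import Pool.Agent.W_MP_3ab0ed_burn.P3Poly

/-!
Burnside part, piece P3, file 9: the quotient of the cone-off by the rotation group:
quotient metric, geodesic, four point inequality with the same constant, action of `G ⧸ K`.
-/

namespace Burn

namespace RotFam

variable {G Z Γ : Type*} [Group G] [MulAction G Z] [MulAction G Γ]
  {ρ : Z → Z → ℕ} {δ S Th T : ℕ}

/-- the quotient space -/
def QZ (F : RotFam G Z Γ ρ δ S Th T) : Type _ := Quotient (MulAction.orbitRel (KA F) Z)

/-- the projection -/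
def qmk (F : RotFam G Z Γ ρ δ S Th T) (x : Z) : QZ F :=
  Quotient.mk (MulAction.orbitRel (KA F) Z) x

variable {F : RotFam G Z Γ ρ δ S Th T}

theorem qmk_surj (q : QZ F) : ∃ x, qmk F x = q := Quotient.exists_rep q

theorem qmk_eq_iff {x y : Z} : qmk F x = qmk F y ↔ ∃ k ∈ KA F, y = k • x := by
  constructor
  · intro h
    obtain ⟨⟨k, hk⟩, h2⟩ := Quotient.exact h
    have h3 : k • y = x := h2
    exact ⟨k⁻¹, Subgroup.inv_mem _ hk, by rw [← h3, inv_smul_smul]⟩
  · rintro ⟨k, hk, rfl⟩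
    apply Quotient.sound
    exact ⟨⟨k⁻¹, Subgroup.inv_mem _ hk⟩, by
      change k⁻¹ • k • x = x
      rw [inv_smul_smul]⟩

theorem qmk_smul {k : G} (hk : k ∈ KA F) (x : Z) : qmk F (k • x) = qmk F x :=
  (qmk_eq_iff.2 ⟨k, hk, rfl⟩).symm

open Classical in
/-- distance between orbits -/
noncomputable def od (F : RotFam G Z Γ ρ δ S Th T) (x y : Z) : ℕ :=
  Nat.find (p := fun n => ∃ k ∈ KA F, ρ x (k • y) = n) ⟨_, 1, Subgroup.one_mem _, rfl⟩

theorem od_spec (x y : Z) : ∃ k ∈ KA F, ρ x (k • y) = od F x y := by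
  classical
  exact Nat.find_spec (p := fun n => ∃ k ∈ KA F, ρ x (k • y) = n)
    ⟨_, 1, Subgroup.one_mem _, rfl⟩

theorem od_le (x y : Z) {k : G} (hk : k ∈ KA F) : od F x y ≤ ρ x (k • y) := by
  classical
  exact Nat.find_min' (p := fun n => ∃ k ∈ KA F, ρ x (k • y) = n)
    ⟨_, 1, Subgroup.one_mem _, rfl⟩ ⟨k, hk, rfl⟩

theorem od_smul_left (x y : Z) {k : G} (hk : k ∈ KA F) : od F (k • x) y = od F x y := by
  apply le_antisymm
  · obtain ⟨l, hl, h⟩ := od_spec (F := F) x y
    have := od_le (F := F) (k • x) y (Subgroup.mul_mem _ hk hl)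
    rw [mul_smul, F.inv, h] at this
    exact this
  · obtain ⟨l, hl, h⟩ := od_spec (F := F) (k • x) y
    have := od_le (F := F) x y (Subgroup.mul_mem _ (Subgroup.inv_mem _ hk) hl)
    rw [← F.inv k, mul_smul, smul_inv_smul, h] at this
    exact this

theorem od_smul_right (x y : Z) {k : G} (hk : k ∈ KA F) : od F x (k • y) = od F x y := by
  apply le_antisymm
  · obtain ⟨l, hl, h⟩ := od_spec (F := F) x y
    have := od_le (F := F) x (k • y) (Subgroup.mul_mem _ hl (Subgroup.inv_mem _ hk))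
    rw [mul_smul, inv_smul_smul, h] at this
    exact this
  · obtain ⟨l, hl, h⟩ := od_spec (F := F) x (k • y)
    have := od_le (F := F) x y (Subgroup.mul_mem _ hl hk)
    rw [mul_smul, h] at this
    exact this

/-- the quotient metric -/
noncomputable def qd (F : RotFam G Z Γ ρ δ S Th T) : QZ F → QZ F → ℕ :=
  Quotient.lift₂ (fun x y => od F x y) (by
    rintro a b a' b' ⟨⟨k, hk⟩, h1⟩ ⟨⟨l, hl⟩, h2⟩
    have h1' : k • a' = a := h1
    have h2' : l • b' = b := h2
    change od F a b = od F a' b'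
    rw [← h1', ← h2', od_smul_left _ _ hk, od_smul_right _ _ hl])

theorem qd_mk (x y : Z) : qd F (qmk F x) (qmk F y) = od F x y := rfl

theorem qd_le (x y : Z) : qd F (qmk F x) (qmk F y) ≤ ρ x y := by
  have := od_le (F := F) x y (Subgroup.one_mem _)
  rwa [one_smul] at this

theorem qd_le' (x y : Z) {k : G} (hk : k ∈ KA F) : qd F (qmk F x) (qmk F y) ≤ ρ x (k • y) :=
  od_le x y hk

theorem qd_spec (x y : Z) : ∃ k ∈ KA F, ρ x (k • y) = qd F (qmk F x) (qmk F y) := od_spec x y

/-- lifting a point at minimal distance -/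
theorem qd_lift (x : Z) (q : QZ F) : ∃ y, qmk F y = q ∧ ρ x y = qd F (qmk F x) q := by
  obtain ⟨y, rfl⟩ := qmk_surj q
  obtain ⟨k, hk, h⟩ := qd_spec (F := F) x y
  exact ⟨k • y, qmk_smul hk y, h⟩

theorem min_iff {x y : Z} : Min F x y ↔ ρ x y = qd F (qmk F x) (qmk F y) := by
  constructor
  · intro h
    apply le_antisymm
    · obtain ⟨k, hk, h2⟩ := qd_spec (F := F) x y
      rw [← h2]; exact h k hk
    · exact qd_le x y
  · intro h k hk
    rw [h]; exact qd_le' x y hk

theorem isGeod_qd : IsGeod (qd F) where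
  self := by
    intro q
    obtain ⟨x, rfl⟩ := qmk_surj q
    have := qd_le (F := F) x x
    rw [F.geo.self] at this
    omega
  eq := by
    intro q q' h
    obtain ⟨x, rfl⟩ := qmk_surj q
    obtain ⟨y, h1, h2⟩ := qd_lift x q'
    rw [h] at h2
    rw [← h1, F.geo.eq x y h2]
  symm := by
    have key : ∀ q q', qd F q' q ≤ qd F q q' := by
      intro q q'
      obtain ⟨x, rfl⟩ := qmk_surj q
      obtain ⟨y, h1, h2⟩ := qd_lift x q'
      rw [← h2, ← h1, F.geo.symm x y]
      exact qd_le y x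
    intro q q'
    exact le_antisymm (key q' q) (key q q')
  tri := by
    intro q q' q''
    obtain ⟨x, rfl⟩ := qmk_surj q
    obtain ⟨y, rfl, h2⟩ := qd_lift x q'
    obtain ⟨z, rfl, h4⟩ := qd_lift y q''
    rw [← h2, ← h4]
    exact (qd_le x z).trans (F.geo.tri x y z)
  geod := by
    intro q q' n hn
    obtain ⟨x, rfl⟩ := qmk_surj q
    obtain ⟨y, rfl, h2⟩ := qd_lift x q'
    obtain ⟨z, h3, h4⟩ := F.geo.geod x y n (by omega)
    have t1 := qd_le (F := F) x z
    have t2 := qd_le (F := F) z y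
    obtain ⟨y', h5, h6⟩ := qd_lift x (qmk F z)
    obtain ⟨k, hk, h7⟩ := qmk_eq_iff.1 h5
    -- triangle inequality in the quotient
    obtain ⟨w, h8, h9⟩ := qd_lift y' (qmk F y)
    have t3 := F.geo.tri x y' w
    have t4 := qd_le (F := F) x w
    rw [h8] at t4
    rw [h5] at h9
    exact ⟨qmk F z, by omega, by omega⟩

/-- **Lifting of closed polygons of the quotient.** -/
theorem exists_closed_lift (m : ℕ) (hm : (m + 1) * Th ≤ T) (q : ℕ → QZ F) (hq : q m = q 0)
    (x0 : Z) (hx0 : qmk F x0 = q 0) :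
    ∃ x : ℕ → Z, x 0 = x0 ∧ x m = x0 ∧ (∀ i ≤ m, qmk F (x i) = q i) ∧
      ∀ i < m, ρ (x i) (x (i + 1)) = qd F (q i) (q (i + 1)) := by
  -- an open lift
  choose nxt h1 h2 using fun (x : Z) (q : QZ F) => qd_lift (F := F) x q
  let y : ℕ → Z := fun i => Nat.rec x0 (fun i z => nxt z (q (i + 1))) i
  have hy0 : y 0 = x0 := rfl
  have hyS : ∀ i, y (i + 1) = nxt (y i) (q (i + 1)) := fun i => rfl
  have hyq : ∀ i, qmk F (y i) = q i := by
    intro i
    cases i with
    | zero => exact hx0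
    | succ i => rw [hyS]; exact h1 _ _
  have hyd : ∀ i, ρ (y i) (y (i + 1)) = qd F (qmk F (y i)) (qmk F (y (i + 1))) := by
    intro i
    rw [hyq (i + 1), hyS, h2]
  obtain ⟨k, hk, hkm⟩ := qmk_eq_iff.1 (show qmk F (y 0) = qmk F (y m) by
    rw [hyq, hyq, hq])
  obtain ⟨κ, k1, k2, k3, k4, _⟩ := polygon m hm y (fun i _ => min_iff.2 (hyd i)) k hk hkm
  refine ⟨fun i => κ i • y i, by simp [k2, hy0], by simp [k3, hy0], ?_, ?_⟩
  · intro i _
    rw [qmk_smul (k1 i), hyq]
  · intro i hi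
    rw [k4 i hi, hyd i, hyq i, hyq (i + 1)]

/-- **The quotient has the same four point constant.** -/
theorem hyp_qd (hm : 5 * Th ≤ T) : Hyp (qd F) δ := by
  intro a b c d
  obtain ⟨x0, hx0⟩ := qmk_surj a
  let q : ℕ → QZ F := fun i => if i = 1 then c else if i = 2 then b else if i = 3 then d else a
  obtain ⟨x, h0, h4, hq, hd⟩ := exists_closed_lift (F := F) 4 hm q (by simp [q]) x0
    (by simp [q, hx0])
  have q0 := hq 0 (by omega)
  have q1 := hq 1 (by omega)
  have q2 := hq 2 (by omega)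
  have q3 := hq 3 (by omega)
  have d0 := hd 0 (by omega)
  have d1 := hd 1 (by omega)
  have d2 := hd 2 (by omega)
  have d3 := hd 3 (by omega)
  have e0 : q 0 = a := by simp [q]
  have e1 : q 1 = c := by simp [q]
  have e2 : q 2 = b := by simp [q]
  have e3 : q 3 = d := by simp [q]
  have e4 : q 4 = a := by simp [q]
  simp only [Nat.zero_add] at d0
  norm_num at d1 d2 d3
  rw [e0] at q0
  rw [e1] at q1
  rw [e2] at q2
  rw [e3] at q3
  rw [e0, e1] at d0
  rw [e1, e2] at d1
  rw [e2, e3] at d2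
  rw [e3, e4, h4, ← h0] at d3
  have hh := F.hyp (x 0) (x 2) (x 1) (x 3)
  have l1 := qd_le (F := F) (x 0) (x 2)
  have l2 := qd_le (F := F) (x 1) (x 3)
  rw [q0, q2] at l1
  rw [q1, q3] at l2
  have s1 : ρ (x 1) (x 2) = ρ (x 2) (x 1) := F.geo.symm _ _
  have s2 : ρ (x 0) (x 3) = ρ (x 3) (x 0) := F.geo.symm _ _
  have s3 := (isGeod_qd (F := F)).symm c b
  have s4 := (isGeod_qd (F := F)).symm d a
  omega

/-! ### The action of `G ⧸ K` -/

/-- the action on the quotient -/
def qsmul (F : RotFam G Z Γ ρ δ S Th T) (g : G) (q : QZ F) : QZ F :=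
  Quotient.lift (fun x => qmk F (g • x)) (by
    rintro a b ⟨⟨k, hk⟩, h1⟩
    have h1' : k • b = a := h1
    change qmk F (g • a) = qmk F (g • b)
    rw [← h1']
    have hk' : g * k * g⁻¹ ∈ KA F := (KA_normal F).conj_mem k hk g
    have e : g • k • b = (g * k * g⁻¹) • g • b := by
      rw [← mul_smul, ← mul_smul]; congr 1; group
    rw [e, qmk_smul hk']) q

theorem qsmul_mk (g : G) (x : Z) : qsmul F g (qmk F x) = qmk F (g • x) := rfl

theorem qsmul_mul (g g' : G) (q : QZ F) : qsmul F (g * g') q = qsmul F g (qsmul F g' q) := by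
  obtain ⟨x, rfl⟩ := qmk_surj q
  rw [qsmul_mk, qsmul_mk, qsmul_mk, mul_smul]

theorem qsmul_of_mem {k : G} (hk : k ∈ KA F) (q : QZ F) : qsmul F k q = q := by
  obtain ⟨x, rfl⟩ := qmk_surj q
  rw [qsmul_mk, qmk_smul hk]

theorem od_smul (g : G) (x y : Z) : od F (g • x) (g • y) = od F x y := by
  have key : ∀ (g : G) (x y : Z), od F (g • x) (g • y) ≤ od F x y := by
    intro g x y
    obtain ⟨l, hl, h⟩ := od_spec (F := F) x y
    have h1 := od_le (F := F) (g • x) (g • y) ((KA_normal F).conj_mem l hl g)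
    have e : (g * l * g⁻¹) • g • y = g • l • y := by
      rw [← mul_smul, ← mul_smul]; congr 1; group
    rw [e, F.inv, h] at h1
    exact h1
  apply le_antisymm (key g x y)
  have := key g⁻¹ (g • x) (g • y)
  rwa [inv_smul_smul, inv_smul_smul] at this

theorem qd_smul (g : G) (a b : QZ F) : qd F (qsmul F g a) (qsmul F g b) = qd F a b := by
  obtain ⟨x, rfl⟩ := qmk_surj a
  obtain ⟨y, rfl⟩ := qmk_surj b
  exact od_smul g x y

/-- the action of the quotient group -/
instance qAct (F : RotFam G Z Γ ρ δ S Th T) : MulAction (G ⧸ KA F) (QZ F) where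
  smul g q := Quotient.liftOn' g (fun g => qsmul F g q) (by
    intro a b h
    rw [QuotientGroup.leftRel_apply] at h
    change qsmul F a q = qsmul F b q
    have e : b = a * (a⁻¹ * b) := by group
    rw [e, qsmul_mul, qsmul_of_mem h])
  one_smul q := by
    obtain ⟨x, rfl⟩ := qmk_surj q
    change qsmul F 1 (qmk F x) = qmk F x
    rw [qsmul_mk, one_smul]
  mul_smul a b q := by
    obtain ⟨a, rfl⟩ := QuotientGroup.mk_surjective a
    obtain ⟨b, rfl⟩ := QuotientGroup.mk_surjective b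
    change qsmul F (a * b) q = qsmul F a (qsmul F b q)
    exact qsmul_mul a b q

theorem mk_smul_qmk (g : G) (x : Z) :
    (QuotientGroup.mk g : G ⧸ KA F) • qmk F x = qmk F (g • x) := rfl

theorem qd_inv (g : G ⧸ KA F) (a b : QZ F) : qd F (g • a) (g • b) = qd F a b := by
  obtain ⟨g, rfl⟩ := QuotientGroup.mk_surjective g
  exact qd_smul g a b

/-- the stabiliser of a point which is not an apex maps isomorphically -/
theorem qsmul_fix_iff {g : G} {x : Z} :
    (QuotientGroup.mk g : G ⧸ KA F) • qmk F x = qmk F x ↔ ∃ k ∈ KA F, (k * g) • x = x := by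
  rw [mk_smul_qmk, qmk_eq_iff]
  constructor
  · rintro ⟨k, hk, h⟩
    exact ⟨k, hk, by rw [mul_smul, ← h]⟩
  · rintro ⟨k, hk, h⟩
    exact ⟨k, hk, by rw [← mul_smul, h]⟩

end RotFam

end Burn
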