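import Pool.Agent.W_MP_3ab0ed_burn.ConeL5
import Pool.Agent.W_MP_3ab0ed_h82.StepHyp

/-!
From the class `Cls` to `Up`; the facts A1 and A5 for the rotation family of the cone-off.
-/

set_option linter.style.haveILetI false
set_option linter.unusedVariables false

namespace Burn

namespace Up

variable {n δ B q : ℕ} {G V : Type} [Group G] [MulAction G V] {M : IMet V}

theorem of_cls (hne : Nonempty V) (hp : n.Prime) (ho : Odd n) (hδ : 1 ≤ δ) (hq : 1 ≤ q)
    (H : Cls n (δ : ℤ) (B : ℤ) (q : ℤ) G M) : Up n δ B q G V M where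
  ne := hne
  inv := H.inv
  hyp := H.hyp
  hδ := hδ
  hq := hq
  hn := hp.ne_zero
  T := H.dich
  cyc g hg := Cls.cyc hp.ne_zero (by exact_mod_cast hδ) (by exact_mod_cast hq) H hg
  noinv u v hu := Cls.no_inv ho (by exact_mod_cast hδ) (by exact_mod_cast hq) H hu
  lc4 R hR g h x y h1 h2 h3 h4 h5 :=
    Cls.lc4 hp ho (by exact_mod_cast hδ) (by exact_mod_cast hq) (by positivity) H hR h1 h2 h3 h4 h5

theorem dich (H : Up n δ B q G V M) (g : G) : g ^ n = 1 ∨ ∀ j : ℕ, j ≠ 0 → g ^ j ≠ 1 := by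
  haveI := H.ne
  rcases H.T g with h | h
  · exact Or.inl h
  · exact Or.inr fun j hj => h.pow_ne hj

theorem cyc' (H : Up n δ B q G V M) (g : G) (hg : g ^ n ≠ 1) :
    ∃ w : G, ∀ u : G, Commute u g ↔ u ∈ Subgroup.zpowers w := by
  rcases H.T g with h | h
  · exact absurd h hg
  · exact H.cyc g h

section rf

variable {N R T : ℕ}

theorem mem_rf (H : Up n δ B q G V M) (hN : 40 * δ + 3 + B + 20000 * δ ≤ N)
    (hR : Cone.depth ≤ R) (hT : T * (q * N) ≤ n) (hTh : 2 * ((12 * Cone.dX + 11) * 2 ^ R) ≤ T)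
    (z : Cone (Yx n δ B q M (G := G)) R) :
    letI := apAct (n := n) (δ := δ) (B := B) (q := q) H.inv
    letI := Cone.coneAct (R := R) (Yx_smul (n := n) (δ := δ) (B := B) (q := q) H.inv)
    z ∈ (rf H hN hR hT hTh).V ↔ ∃ C : Ap n δ B q G M, Cone.apex C = z := Iff.rfl

theorem rf_H (H : Up n δ B q G V M) (hN : 40 * δ + 3 + B + 20000 * δ ≤ N)
    (hR : Cone.depth ≤ R) (hT : T * (q * N) ≤ n) (hTh : 2 * ((12 * Cone.dX + 11) * 2 ^ R) ≤ T)
    (C : Ap n δ B q G M) :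
    letI := apAct (n := n) (δ := δ) (B := B) (q := q) H.inv
    letI := Cone.coneAct (R := R) (Yx_smul (n := n) (δ := δ) (B := B) (q := q) H.inv)
    (rf H hN hR hT hTh).H (Cone.apex C) = Subgroup.zpowers (C.1 ^ n) := rfl

/-- A1 of `StepHyp` for the rotation family of the cone-off -/
theorem A1_rf (H : Up n δ B q G V M) (hN : 40 * δ + 3 + B + 20000 * δ ≤ N)
    (hR : Cone.depth ≤ R) (hT : T * (q * N) ≤ n) (hTh : 2 * ((12 * Cone.dX + 11) * 2 ^ R) ≤ T)
    {m0 b e : ℕ} (hm0 : 1 ≤ m0) (hm : N * (e * 2 ^ (b + e)) ≤ m0) (hbe : b + e ≤ R) :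
    letI := apAct (n := n) (δ := δ) (B := B) (q := q) H.inv
    letI := Cone.coneAct (R := R) (Yx_smul (n := n) (δ := δ) (B := B) (q := q) H.inv)
    ∀ (z : Cone (Yx n δ B q M (G := G)) R) (g : G), z ∉ (rf H hN hR hT hTh).V →
      Cone.rho (resc M.nd N) z (g • z) ≤ b → Cone.rho (resc M.nd N) z (g ^ m0 • z) ≤ e →
      g ^ n = 1 ∨ ∃ c ∈ (rf H hN hR hT hTh).V, g • c = c := by
  letI := apAct (n := n) (δ := δ) (B := B) (q := q) H.inv
  letI := Cone.coneAct (R := R) (Yx_smul (n := n) (δ := δ) (B := B) (q := q) H.inv)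
  intro z g hz h1 h2
  have hz' : ∀ C, z ≠ Cone.apex C := fun C hC => hz ((mem_rf H hN hR hT hTh z).mpr ⟨C, hC.symm⟩)
  rcases factA1 H hN hm0 hm hbe z g hz' h1 h2 with h | ⟨C, hC⟩
  · exact Or.inl h
  · refine Or.inr ⟨Cone.apex C, ⟨C, rfl⟩, ?_⟩
    show Cone.gact _ g (Cone.apex C) = Cone.apex C
    rw [Cone.gact_apex, hC]

/-- A4 of `StepHyp` for the rotation family of the cone-off -/
theorem A4_rf (H : Up n δ B q G V M) (hN : 40 * δ + 3 + B + 20000 * δ ≤ N)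
    (hR : Cone.depth ≤ R) (hT : T * (q * N) ≤ n) (hTh : 2 * ((12 * Cone.dX + 11) * 2 ^ R) ≤ T) :
    letI := apAct (n := n) (δ := δ) (B := B) (q := q) H.inv
    letI := Cone.coneAct (R := R) (Yx_smul (n := n) (δ := δ) (B := B) (q := q) H.inv)
    ∀ c ∈ (rf H hN hR hT hTh).V, ∃ a : G, (∀ g : G, g • c = c ↔ g ∈ Subgroup.zpowers a) ∧
      a ^ n ∈ RotFam.KA (rf H hN hR hT hTh) := by
  letI := apAct (n := n) (δ := δ) (B := B) (q := q) H.inv
  letI := Cone.coneAct (R := R) (Yx_smul (n := n) (δ := δ) (B := B) (q := q) H.inv)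
  rintro _ ⟨C, rfl⟩
  refine ⟨C.1, fun g => ?_, ?_⟩
  · have h1 : g • (Cone.apex C : Cone (Yx n δ B q M (G := G)) R) = Cone.apex (g • C) := rfl
    rw [h1, ← stab_eq H.inv C, MulAction.mem_stabilizer_iff]
    constructor
    · intro h
      exact Cone.apex.inj h
    · intro h
      rw [h]
  · exact Subgroup.subset_closure ⟨Cone.apex C, ⟨C, rfl⟩, Subgroup.mem_zpowers (C.1 ^ n)⟩

end rf

end Up

end Burn
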