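import Pool.Agent.W_MP_3ab0ed_burn.P3Pass

/-!
Burnside part, piece P3, file 2: abstract rotation families (apices, rotation groups, germs)
and mills.
-/

namespace Burn

/-- Input of the windmill construction. `Th` : threshold for the passing property,
`T` : minimal displacement of germs under rotations. -/
structure RotFam (G Z Γ : Type*) [Group G] [MulAction G Z] [MulAction G Γ]
    (ρ : Z → Z → ℕ) (δ S Th T : ℕ) where
  geo : IsGeod ρ
  hyp : Hyp ρ δ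
  inv : ∀ (g : G) x y, ρ (g • x) (g • y) = ρ x y
  dpos : 1 ≤ δ
  hS : 16 * δ < S
  V : Set Z
  V_smul : ∀ (g : G) c, c ∈ V → g • c ∈ V
  sep : ∀ c ∈ V, ∀ c' ∈ V, c ≠ c' → S ≤ ρ c c'
  H : Z → Subgroup G
  H_fix : ∀ c ∈ V, ∀ h ∈ H c, h • c = c
  H_conj : ∀ c ∈ V, ∀ g : G, ∀ h ∈ H c, g * h * g⁻¹ ∈ H (g • c)
  dG : Γ → Γ → ℕ
  dG_symm : ∀ a b, dG a b = dG b a
  dG_tri : ∀ a b c, dG a c ≤ dG a b + dG b c
  dG_inv : ∀ (g : G) a b, dG (g • a) (g • b) = dG a b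
  germ : Z → Z → Set Γ
  germ_ne : ∀ c ∈ V, ∀ u, u ≠ c → (germ c u).Nonempty
  germ_smul : ∀ c ∈ V, ∀ u, u ≠ c → ∀ (g : G), ∀ y ∈ germ c u, g • y ∈ germ (g • c) (g • u)
  passing : ∀ c ∈ V, ∀ u, u ≠ c → ∀ u', u' ≠ c → ∀ y ∈ germ c u, ∀ y' ∈ germ c u',
    Th ≤ dG y y' → Pass ρ u c u'
  exactness : ∀ c ∈ V, ∀ c' ∈ V, c ≠ c' → ∀ u, Pass ρ c c' u → germ c u = germ c c'
  diam : ∀ c ∈ V, ∀ u, u ≠ c → ∀ y ∈ germ c u, ∀ y' ∈ germ c u, dG y y' < Th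
  rot : ∀ c ∈ V, ∀ h ∈ H c, h ≠ 1 → ∀ u, u ≠ c → ∀ y ∈ germ c u, T ≤ dG y (h • y)
  hT : 2 * Th ≤ T

namespace RotFam

variable {G Z Γ : Type*} [Group G] [MulAction G Z] [MulAction G Γ]
  {ρ : Z → Z → ℕ} {δ S Th T : ℕ} (F : RotFam G Z Γ ρ δ S Th T)

/-- the group generated by the rotations about the apices in `W` -/
def KK (W : Set Z) : Subgroup G := Subgroup.closure {g | ∃ c, c ∈ F.V ∧ c ∈ W ∧ g ∈ F.H c}

/-- new apices near `W` -/
def C1 (W : Set Z) : Set Z := {c | c ∈ F.V ∧ c ∉ W ∧ ∃ w ∈ W, ρ c w ≤ 14 * δ}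

def W1 (W : Set Z) : Set Z := W ∪ F.C1 W

structure Mill (W : Set Z) : Prop where
  ne : W.Nonempty
  qc : ∀ x ∈ W, ∀ y ∈ W, ∀ p, ρ x p + ρ p y = ρ x y → ∃ w ∈ W, ρ p w ≤ 2 * δ
  st : ∀ c ∈ F.V, c ∈ W → ∀ h ∈ F.H c, ∀ x ∈ W, h • x ∈ W
  cl : ∀ c ∈ F.V, (∃ w ∈ W, ρ c w ≤ 5 * δ) → c ∈ W

theorem KK_mono {W W' : Set Z} (h : W ⊆ W') : F.KK W ≤ F.KK W' := by
  apply Subgroup.closure_mono
  rintro g ⟨c, hc, hcW, hg⟩
  exact ⟨c, hc, h hcW, hg⟩

theorem H_le_KK {W : Set Z} {c : Z} (hc : c ∈ F.V) (hcW : c ∈ W) : F.H c ≤ F.KK W := by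
  intro g hg
  exact Subgroup.subset_closure ⟨c, hc, hcW, hg⟩

variable {F}

theorem Mill.KK_smul {W : Set Z} (hW : F.Mill W) {g : G} (hg : g ∈ F.KK W) :
    ∀ x, g • x ∈ W ↔ x ∈ W := by
  induction hg using Subgroup.closure_induction with
  | mem g hg =>
    obtain ⟨c, hc, hcW, hg⟩ := hg
    intro x
    refine ⟨fun h => ?_, fun h => hW.st c hc hcW g hg x h⟩
    have := hW.st c hc hcW g⁻¹ ((F.H c).inv_mem hg) (g • x) h
    rwa [inv_smul_smul] at this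
  | one => intro x; rw [one_smul]
  | mul a b _ _ ha hb => intro x; rw [mul_smul, ha, hb]
  | inv a _ ha =>
    intro x
    rw [← ha (a⁻¹ • x), smul_inv_smul]

/-- a vertex of `W1` together with the nearby vertex of `W` : basic alternative -/
theorem W1_near {W : Set Z} {u : Z} (hu : u ∈ F.W1 W) :
    ∃ w ∈ W, ρ u w ≤ 14 * δ ∧ (u ∈ W → w = u) ∧ (u ∉ W → u ∈ F.V) := by
  rcases hu with hu | hu
  · exact ⟨u, hu, by rw [F.geo.self]; omega, fun _ => rfl, fun h => absurd hu h⟩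
  · obtain ⟨h1, h2, w, hw, h3⟩ := hu
    exact ⟨w, hw, h3, fun h => absurd h h2, fun _ => h1⟩

theorem far_of_not_mem {W : Set Z} (hW : F.Mill W) {c : Z} (hc : c ∈ F.V) (hcW : c ∉ W) :
    ∀ w ∈ W, 5 * δ < ρ c w := by
  intro w hw
  by_contra h
  exact hcW (hW.cl c hc ⟨w, hw, by omega⟩)

/-- 2.1 : no geodesic between points of `W1` passes through another apex outside `W`. -/
theorem not_between {W : Set Z} (hW : F.Mill W) {c u u' : Z} (hc : c ∈ F.V) (hcW : c ∉ W)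
    (hu : u ∈ F.W1 W) (hu' : u' ∈ F.W1 W) (huc : u ≠ c) (huc' : u' ≠ c) :
    ρ u c + ρ c u' ≠ ρ u u' := by
  intro hI
  have hS := F.hS
  have hd := F.dpos
  obtain ⟨w, hw, hw1, hw2, hw3⟩ := W1_near hu
  obtain ⟨w', hw', hw1', hw2', hw3'⟩ := W1_near hu'
  have far := far_of_not_mem hW hc hcW
  -- the side alternatives are impossible
  have side : ∀ v z : Z, v ≠ c → z ∈ W → ρ v z ≤ 14 * δ → (v ∈ W → z = v) → (v ∉ W → v ∈ F.V) →
      ¬ (ρ v c + ρ c z ≤ ρ v z + 2 * δ) := by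
    intro v z hvc hz h1 h2 h3 h4
    by_cases hv : v ∈ W
    · have := h2 hv
      subst this
      have f1 := far z hz
      have s1 := F.geo.symm z c
      rw [F.geo.self] at h4
      omega
    · have hvV := h3 hv
      have s1 := F.sep v hvV c hc hvc
      have f1 := far z hz
      omega
  rcases ptripod F.geo F.hyp (e := 0) (le_of_eq hI) w with h | h
  · exact side u w huc hw hw1 hw2 hw3 (by omega)
  · rcases ptripod F.geo F.hyp h w' with h' | h'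
    · exact side u' w' huc' hw' hw1' hw2' hw3' (by omega)
    · obtain ⟨q, hq1, hq2⟩ := near_interval F.geo F.hyp h'
      obtain ⟨z, hz, hz1⟩ := hW.qc w hw w' hw' q hq1
      have := far z hz
      have := F.geo.tri c q z
      omega

/-- 2.2 -/
theorem small_angle {W : Set Z} (hW : F.Mill W) {c u u' : Z} (hc : c ∈ F.V) (hcW : c ∉ W)
    (hu : u ∈ F.W1 W) (hu' : u' ∈ F.W1 W) (huc : u ≠ c) (huc' : u' ≠ c)
    {y y' : Γ} (hy : y ∈ F.germ c u) (hy' : y' ∈ F.germ c u') : F.dG y y' < Th := by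
  by_contra h
  exact not_between hW hc hcW hu hu' huc huc'
    (F.passing c hc u huc u' huc' y hy y' hy' (by omega)).1

/-- 2.3 -/
theorem W1_qc {W : Set Z} (hW : F.Mill W) {u u' p : Z}
    (hu : u ∈ F.W1 W) (hu' : u' ∈ F.W1 W) (hI : ρ u p + ρ p u' = ρ u u') :
    ∃ a ∈ F.W1 W, ρ p a ≤ 8 * δ := by
  obtain ⟨w, hw, hw1, hw2, hw3⟩ := W1_near hu
  obtain ⟨w', hw', hw1', hw2', hw3'⟩ := W1_near hu'
  rcases ptripod F.geo F.hyp (e := 0) (le_of_eq hI) w with h | h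
  · rcases Nat.le_total (ρ u p) (ρ p w) with hle | hle
    · exact ⟨u, hu, by rw [F.geo.symm p u]; omega⟩
    · exact ⟨w, Or.inl hw, by omega⟩
  · rcases ptripod F.geo F.hyp h w' with h' | h'
    · rcases Nat.le_total (ρ u' p) (ρ p w') with hle | hle
      · exact ⟨u', hu', by rw [F.geo.symm p u']; omega⟩
      · exact ⟨w', Or.inl hw', by omega⟩
    · obtain ⟨q, hq1, hq2⟩ := near_interval F.geo F.hyp h'
      obtain ⟨z, hz, hz1⟩ := hW.qc w hw w' hw' q hq1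
      have := F.geo.tri p q z
      exact ⟨z, Or.inl hz, by omega⟩

end RotFam

end Burn
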