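import Pool.Agent.W_MP_3ab0ed_burn.Angle
import Pool.Agent.W_MP_3ab0ed_burn.P3Mill

/-!
Group actions on the cone-off and the rotation family of the apices.
-/

namespace Burn

namespace Cone

variable {X V : Type*} {Y : V → Set X} {R : ℕ} {d : X → X → ℕ}

section act

variable {G : Type*} [Group G] [MulAction G X] [MulAction G V]

theorem hor_congr {C C' : V} {y y' : X} {hy : y ∈ Y C} {hy' : y' ∈ Y C'} {k k' : ℕ}
    {hk : k < R} {hk' : k' < R} (h1 : C = C') (h2 : y = y') (h3 : k = k') :
    (hor C y hy k hk : Cone Y R) = hor C' y' hy' k' hk' := by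
  subst h1
  subst h2
  subst h3
  rfl

/-- the action of `g` on the cone-off -/
def gact (hY : ∀ (g : G) (C : V) (y : X), y ∈ Y C → g • y ∈ Y (g • C)) (g : G) :
    Cone Y R → Cone Y R
  | pt x => pt (g • x)
  | hor C y hy k hk => hor (g • C) (g • y) (hY g C y hy) k hk
  | apex C => apex (g • C)

/-- the action on the cone-off -/
@[reducible] def coneAct (hY : ∀ (g : G) (C : V) (y : X), y ∈ Y C → g • y ∈ Y (g • C)) :
    MulAction G (Cone Y R) where
  smul g u := gact hY g u
  one_smul u := by
    show gact hY 1 u = u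
    cases u with
    | pt x => simp [gact]
    | hor C y hy k hk => exact hor_congr (one_smul _ _) (one_smul _ _) rfl
    | apex C => simp [gact]
  mul_smul a b u := by
    show gact hY (a * b) u = gact hY a (gact hY b u)
    cases u with
    | pt x => simp [gact, mul_smul]
    | hor C y hy k hk => exact hor_congr (mul_smul _ _ _) (mul_smul _ _ _) rfl
    | apex C => simp [gact, mul_smul]

variable {hY : ∀ (g : G) (C : V) (y : X), y ∈ Y C → g • y ∈ Y (g • C)}

theorem gact_pt (g : G) (x : X) : gact hY g (pt x : Cone Y R) = pt (g • x) := rfl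

theorem gact_apex (g : G) (C : V) : gact hY g (apex C : Cone Y R) = apex (g • C) := rfl

theorem gact_col (g : G) (C : V) (y : X) (hy : y ∈ Y C) (k : ℕ) :
    gact hY g (col C y hy k : Cone Y R) = col (g • C) (g • y) (hY g C y hy) k := by
  cases k with
  | zero => rfl
  | succ k =>
    by_cases h : k < R
    · rw [col_succ C y hy h, col_succ _ _ _ h]
      rfl
    · rw [col_top C y hy (by omega), col_top _ _ _ (by omega)]
      rfl

theorem gact_St (hinv : ∀ (g : G) x y, d (g • x) (g • y) = d x y) (g : G) {u v : Cone Y R}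
    (h : St d u v) : St d (gact hY g u) (gact hY g v) := by
  cases h with
  | base h => exact St.base (by rw [hinv]; exact h)
  | hor hy hy' k hk h => exact St.hor _ _ k hk (by rw [hinv]; exact h)
  | up hy k hk =>
    rw [gact_col, gact_col]
    exact St.up _ k hk

theorem gact_Sx (hinv : ∀ (g : G) x y, d (g • x) (g • y) = d x y) (g : G) {u v : Cone Y R}
    (h : Sx d u v) : Sx d (gact hY g u) (gact hY g v) := by
  rcases h with h | h
  · exact Or.inl (gact_St hinv g h)
  · exact Or.inr (gact_St hinv g h)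

theorem gact_chn (hinv : ∀ (g : G) x y, d (g • x) (g • y) = d x y) (g : G) {n : ℕ}
    {u v : Cone Y R} (h : Chn (Sx d) n u v) :
    Chn (Sx d) n (gact hY g u) (gact hY g v) := by
  induction n generalizing u with
  | zero =>
    have : u = v := h
    subst this
    rfl
  | succ n ih =>
    obtain ⟨w, h1, h2⟩ := h
    exact ⟨_, gact_Sx hinv g h1, ih h2⟩

theorem gact_inv_left (g : G) (u : Cone Y R) : gact hY g⁻¹ (gact hY g u) = u := by
  letI := coneAct (R := R) hY
  exact inv_smul_smul g u

theorem rho_gact (hd : IsGeod d) (hne : ∀ C, (Y C).Nonempty)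
    (hinv : ∀ (g : G) x y, d (g • x) (g • y) = d x y) (g : G) (u v : Cone Y R) :
    rho d (gact hY g u) (gact hY g v) = rho d u v := by
  apply le_antisymm
  · exact rdist_le (gact_chn hinv g (rdist_chn (connected hd hne) u v))
  · have h := rdist_le (gact_chn (hY := hY) hinv g⁻¹
      (rdist_chn (connected hd hne) (gact hY g u) (gact hY g v)))
    rw [gact_inv_left, gact_inv_left] at h
    exact h

/-- the rotation family of the apices of the cone-off -/
noncomputable def rotFam (hd : IsGeod d) (hh : Hyp d 2) (hF : Fam d Y 2 2)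
    (hY : ∀ (g : G) (C : V) (y : X), y ∈ Y C → g • y ∈ Y (g • C))
    (hinv : ∀ (g : G) x y, d (g • x) (g • y) = d x y)
    (hR1 : 6 * dX + 6 ≤ R) (hR2 : 2 * t1 + 2 ≤ R) (hR3 : 8 * dX < R)
    (hR4 : 2 * c6 < (12 * dX + 11) * 2 ^ R)
    (hdX : 1 ≤ dX)
    (Rot : V → Subgroup G)
    (hfix : ∀ C, ∀ h ∈ Rot C, h • C = C)
    (hconj : ∀ C, ∀ g : G, ∀ h ∈ Rot C, g * h * g⁻¹ ∈ Rot (g • C))
    {T : ℕ} (hT : 2 * ((12 * dX + 11) * 2 ^ R) ≤ T)
    (hrot : ∀ C, ∀ h ∈ Rot C, h ≠ 1 → ∀ y ∈ Y C, T ≤ d y (h • y)) :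
    letI := coneAct (R := R) hY
    RotFam G (Cone Y R) X (rho d) dX (2 * R + 2) ((12 * dX + 11) * 2 ^ R) T :=
  letI := coneAct (R := R) hY
  { geo := isGeod_rho hd hF.ne
    hyp := hyp_cone hd hh hF
    inv := fun g x y => rho_gact hd hF.ne hinv g x y
    dpos := hdX
    hS := by omega
    V := Set.range apex
    V_smul := by
      rintro g _ ⟨C, rfl⟩
      exact ⟨g • C, rfl⟩
    sep := by
      rintro _ ⟨C, rfl⟩ _ ⟨C', rfl⟩ h
      exact apex_apex hd hF.ne (fun h' => h (by rw [h']))
    H := fun c => match c with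
      | apex C => Rot C
      | _ => ⊥
    H_fix := by
      rintro _ ⟨C, rfl⟩ h hh
      show gact hY h (apex C) = apex C
      rw [gact_apex, hfix C h hh]
    H_conj := by
      rintro _ ⟨C, rfl⟩ g h hh
      exact hconj C g h hh
    dG := d
    dG_symm := hd.symm
    dG_tri := hd.tri
    dG_inv := hinv
    germ := germ d
    germ_ne := by
      rintro _ ⟨C, rfl⟩ u hu
      exact germ_ne hd hF.ne hu
    germ_smul := by
      rintro _ ⟨C, rfl⟩ u hu g y hy
      obtain ⟨hyC, h⟩ := mem_germ hy
      refine ⟨g • C, hY g C y hyC, rfl, ?_⟩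
      have h1 := rho_gact (hY := hY) hd hF.ne hinv g (col C y hyC R) u
      have h2 := rho_gact (hY := hY) (R := R) hd hF.ne hinv g (apex C) u
      rw [gact_col] at h1
      rw [gact_apex] at h2
      show rho d (col (g • C) (g • y) _ R) (gact hY g u) + 1 =
        rho d (apex (g • C)) (gact hY g u)
      rw [h1, h2]
      exact h
    passing := by
      rintro _ ⟨C, rfl⟩ u hu u' hu' y hy y' hy' h
      exact passing hd hh hF hR1 hu hu' hy hy' h
    exactness := by
      rintro _ ⟨C, rfl⟩ _ ⟨C', rfl⟩ hne u hp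
      exact exactness hd hF.ne (fun h => hne (by rw [h])) hp
    diam := by
      rintro _ ⟨C, rfl⟩ u _ y hy y' hy'
      exact lt_of_le_of_lt (germ_diam hd hh hF hR2 hy hy') hR4
    rot := by
      rintro _ ⟨C, rfl⟩ h hh hne u _ y hy
      obtain ⟨hyC, _⟩ := mem_germ hy
      exact hrot C h hh hne y hyC
    hT := hT }

end act

theorem one_le_dX : 1 ≤ dX := by
  rw [dX_eq]
  unfold Bow.Dl
  omega

/-- a depth which is large enough for all purposes -/
noncomputable def depth : ℕ := 8 * dX + 2 * t1 + c6 + 7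

theorem depth_ok : 6 * dX + 6 ≤ depth ∧ 2 * t1 + 2 ≤ depth ∧ 8 * dX < depth ∧
    2 * c6 < (12 * dX + 11) * 2 ^ depth := by
  refine ⟨by unfold depth; omega, by unfold depth; omega, by unfold depth; omega, ?_⟩
  have h1 : c6 ≤ depth := by unfold depth; omega
  have h2 : depth < 2 ^ depth := Nat.lt_two_pow_self
  have h3 : 2 * 2 ^ depth ≤ (12 * dX + 11) * 2 ^ depth := Nat.mul_le_mul_right _ (by omega)
  omega

end Cone

end Burn
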