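import Pool.Agent.W_MP_3ab0ed_burn.Family

/-!
L5 of row 77: points of the cone-off with a small displacement; fact A1 of the step.
-/

set_option linter.style.haveILetI false
set_option linter.unusedVariables false

namespace Burn

namespace Cone

variable {X V : Type*} {Y : V → Set X} {R : ℕ} {d : X → X → ℕ}
variable {G : Type*} [Group G] [MulAction G X] [MulAction G V]
variable {hY : ∀ (g : G) (C : V) (y : X), y ∈ Y C → g • y ∈ Y (g • C)}

theorem lev_gact (g : G) (z : Cone Y R) : lev (gact hY g z) = lev z := by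
  cases z with
  | pt x => rfl
  | hor C y hy k hk => rfl
  | apex C => rfl

theorem kC_gact (g : G) (C : V) (z : Cone Y R) : kC (g • C) (gact hY g z) = kC C z := by
  classical
  cases z with
  | pt x => rfl
  | hor D y hy k hk =>
    simp only [gact, kC, smul_left_cancel_iff]
  | apex D =>
    simp only [gact, kC, smul_left_cancel_iff]

theorem base_gact (y0 : V → X) (g : G) {z : Cone Y R} (hz : ∀ C, z ≠ apex C) :
    base y0 (gact hY g z) = g • base y0 z := by
  cases z with
  | pt x => rfl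
  | hor C y hy k hk => rfl
  | apex C => exact absurd rfl (hz C)

theorem exists_kC {z : Cone Y R} (h : 0 < lev z) : ∃ C, kC C z = lev z := by
  cases z with
  | pt x => simp [lev] at h
  | hor C y hy k hk => exact ⟨C, by simp [kC, lev]⟩
  | apex C => exact ⟨C, by simp [kC, lev]⟩

/-- a point of high level: all elements which move it little fix its horoball -/
theorem exists_fix_of_lev (hd : IsGeod d) (hne : ∀ C, (Y C).Nonempty)
    {z : Cone Y R} {b : ℕ} (hb : b < lev z) :
    ∃ C, 0 < kC C z ∧ ∀ g : G, rho d z (gact hY g z) ≤ b → g • C = C := by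
  obtain ⟨C, hC⟩ := exists_kC (show 0 < lev z by omega)
  refine ⟨C, by omega, fun g hg => ?_⟩
  have h1 := kC_lip hd hne C (gact hY g z) z
  have hge := isGeod_rho (R := R) (Y := Y) hd hne
  rw [hge.symm] at h1
  have h2 : 0 < kC C (gact hY g z) := by omega
  have h3 : 0 < kC (g • C) (gact hY g z) := by
    rw [kC_gact]
    omega
  exact kC_unique h3 h2

/-- a point of low level: the base point is moved by a bounded amount -/
theorem base_disp (hd : IsGeod d) (hne : ∀ C, (Y C).Nonempty) (y0 : V → X) {z : Cone Y R}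
    (hz : ∀ C, z ≠ apex C) {g : G} {b e m : ℕ} (hb : lev z ≤ b)
    (he : rho d z (gact hY g z) ≤ e) (hm : m ≤ R) (hbe : 2 * b + e ≤ 2 * m + 1) :
    d (base y0 z) (g • base y0 z) ≤ e * 2 ^ m := by
  rw [← base_gact (hY := hY) y0 g hz]
  refine le_trans (base_le hd hne y0 hm ?_) (Nat.mul_le_mul_right _ he)
  rw [lev_gact]
  omega

/-- L5 -/
theorem small_disp (hd : IsGeod d) (hne : ∀ C, (Y C).Nonempty) (y0 : V → X) {z : Cone Y R}
    (hz : ∀ C, z ≠ apex C) {b : ℕ} (hb : 2 * b ≤ R) :
    (∃ C, 0 < kC C z ∧ ∀ g : G, rho d z (gact hY g z) ≤ b → g • C = C) ∨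
      (lev z ≤ b ∧ ∀ g : G, rho d z (gact hY g z) ≤ b →
        d (base y0 z) (g • base y0 z) ≤ b * 2 ^ (2 * b)) := by
  rcases Nat.lt_or_ge b (lev z) with h | h
  · exact Or.inl (exists_fix_of_lev hd hne h)
  · exact Or.inr ⟨h, fun g hg => base_disp hd hne y0 hz h hg hb (by omega)⟩

end Cone

namespace Up

variable {n δ B q : ℕ} {G V : Type} [Group G] [MulAction G V] {M : IMet V}

/-- a choice of base points -/
noncomputable def y0 (c : Ap n δ B q G M) : V := (Yx_ne c).choose

theorem y0_mem (c : Ap n δ B q G M) : y0 c ∈ Yx n δ B q M c := (Yx_ne c).choose_spec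

/-- back from the rescaled metric -/
theorem le_of_resc {N : ℕ} (hN : 0 < N) {x y : V} {e : ℕ} (h : resc M.nd N x y ≤ e) :
    M.d x y ≤ ((N * e : ℕ) : ℤ) := by
  have h1 := (resc_bounds (d := M.nd) hN x y).1
  have c1 := M.nd_cast x y
  rw [← c1]
  exact_mod_cast h1.trans (Nat.mul_le_mul_left N h)

/-- A1 -/
theorem factA1 (H : Up n δ B q G V M) {N R m0 b e : ℕ} (hN : 40 * δ + 3 + B + 20000 * δ ≤ N)
    (hm0 : 1 ≤ m0) (hm : N * (e * 2 ^ (b + e)) ≤ m0) (hR : b + e ≤ R)
    (z : Cone (Yx n δ B q M (G := G)) R) (g : G) (hz : ∀ C, z ≠ Cone.apex C)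
    (h1 : letI := apAct (n := n) (δ := δ) (B := B) (q := q) H.inv
      Cone.rho (resc M.nd N) z
        (Cone.gact (Yx_smul (n := n) (δ := δ) (B := B) (q := q) H.inv) g z) ≤ b)
    (h2 : letI := apAct (n := n) (δ := δ) (B := B) (q := q) H.inv
      Cone.rho (resc M.nd N) z
        (Cone.gact (Yx_smul (n := n) (δ := δ) (B := B) (q := q) H.inv) (g ^ m0) z) ≤ e) :
    letI := apAct (n := n) (δ := δ) (B := B) (q := q) H.inv
    g ^ n = 1 ∨ ∃ C : Ap n δ B q G M, g • C = C := by
  letI := apAct (n := n) (δ := δ) (B := B) (q := q) H.inv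
  have hd : IsGeod (resc M.nd N) := isGeod_resc M.isGeod (by omega)
  rcases Nat.lt_or_ge b (Cone.lev z) with h | h
  · obtain ⟨C, _, hC⟩ := Cone.exists_fix_of_lev
      (hY := Yx_smul (n := n) (δ := δ) (B := B) (q := q) H.inv) hd Yx_ne h
    exact Or.inr ⟨C, hC g h1⟩
  · have h3 := Cone.base_disp (hY := Yx_smul (n := n) (δ := δ) (B := B) (q := q) H.inv)
      hd Yx_ne y0 hz h h2 hR (by omega)
    have h4 := le_of_resc (by omega) h3
    have h5 : M.d (Cone.base y0 z) (g ^ m0 • Cone.base y0 z) ≤ m0 :=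
      h4.trans (by exact_mod_cast hm)
    rcases H.T g with hg | hg
    · exact Or.inl hg
    · right
      obtain ⟨c, hc⟩ := exists_apex H hg hm0 h5
      refine ⟨c, ?_⟩
      have h6 : g ∈ MulAction.stabilizer G c := by
        rw [stab_eq H.inv c]
        exact hc
      exact h6

end Up

end Burn
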