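import Pool.Agent.W_MP_3ab0ed_burn.Main2

/-!
ADD: a point of `X` which is almost between `a` and `b` in `X` is almost between `a` and `b` in the
cone-off, unless for some `C` its projection is far from the projections of both ends (helper44).
-/

namespace Burn

namespace Cone

variable {X V : Type*} {Y : V → Set X} {R : ℕ} {d : X → X → ℕ}

/-- near a point of a geodesic implies almost between -/
theorem btw_of_near_geod {Z : Type*} {ρ : Z → Z → ℕ} (hg : IsGeod ρ) {g : ℕ → Z} {m : ℕ}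
    (hgs : GeodSeq ρ g m) {z : Z} {i e : ℕ} (hi : i ≤ m) (h : ρ z (g i) ≤ e) :
    Btw ρ (2 * e) (g 0) z (g m) := by
  have h1 := hgs.mem hi
  have t1 := hg.tri (g 0) (g i) z
  have t2 := hg.tri z (g i) (g m)
  have s1 := hg.symm z (g i)
  unfold Btw
  omega

/-- the excess constant -/
noncomputable def Kadd (c κ : ℕ) : ℕ := 2 * (3 * c + κ + 50 + t0)

/-- ADD -/
theorem excess (hd : IsGeod d) (hh : Hyp d 2) (hF : Fam d Y 2 2) {a b x : X} {c κ : ℕ}
    (hb : Btw d c a x b)
    (hC : ∀ C, d (proj d (Y C) a) (proj d (Y C) x) ≤ κ ∨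
      d (proj d (Y C) x) (proj d (Y C) b) ≤ κ) :
    Btw (rho d) (Kadd c κ) (pt a : Cone Y R) (pt x) (pt b) := by
  have hy0 : ∀ C, (fun C => (hF.ne C).some) C ∈ Y C := fun C => (hF.ne C).some_mem
  have hg := isGeod_rho (R := R) (Y := Y) hd hF.ne
  obtain ⟨p, hp1, _, hp3⟩ := exists_near_of_btw hd hh hb
  obtain ⟨g, g0, gm, hgs⟩ := exists_geodSeq hg (pt a : Cone Y R) (pt b)
  have hxp : rho d (pt x : Cone Y R) (pt p) ≤ c + 2 :=
    (rho_pt_pt hd x p).trans hp3
  have fin : ∀ (i e : ℕ) (z : Cone Y R), i ≤ rho d (pt a : Cone Y R) (pt b) →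
      rho d z (g i) ≤ t0 → rho d (pt x) z ≤ e → e ≤ 3 * c + κ + 50 →
      Btw (rho d) (Kadd c κ) (pt a : Cone Y R) (pt x) (pt b) := by
    intro i e z hi h1 h2 h3
    have t := hg.tri (pt x : Cone Y R) z (g i)
    have := btw_of_near_geod hg hgs (z := (pt x : Cone Y R)) (e := 3 * c + κ + 50 + t0) hi
      (by omega)
    rw [g0, gm] at this
    exact this
  rcases near_or_deep hd hh hF hy0 hp1 hgs g0 gm with ⟨i, hi, h⟩ | ⟨C, hD⟩
  · exact fin i (c + 2) (pt p) hi h hxp (by omega)
  · obtain ⟨_, hn, _, _, _, _⟩ := deep_pt hd hh hF hy0 hD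
    have hrel := hD.rel hd hh hF hy0
    obtain ⟨y, hy, hpy⟩ := hn
    have h1 := proj_le (d := d) (hF.ne C) x hy
    have h2 := hd.tri x p y
    have h3 := hd.tri p x (proj d (Y C) x)
    have h4 := hd.symm p x
    have hpx : d p (proj d (Y C) x) ≤ 2 * c + 50 - 2 := by omega
    have key : ∀ s : X, (s = a ∨ s = b) → d (proj d (Y C) s) (proj d (Y C) x) ≤ κ →
        Btw (rho d) (Kadd c κ) (pt a : Cone Y R) (pt x) (pt b) := by
      intro s hs hk
      have hmem : (pt (proj d (Y C) s) : Cone Y R) ∈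
          Ag d (fun C => (hF.ne C).some) (pt a) (pt b) := by
        rcases hs with rfl | rfl
        · exact foot_mem hF hrel
        · exact foot_mem' hF hrel
      obtain ⟨i, hi, h⟩ := Ag_near hd hh hF hy0 hmem hgs g0 gm
      have t1 := hg.tri (pt x : Cone Y R) (pt p) (pt (proj d (Y C) s))
      have t2 := rho_pt_pt (R := R) (Y := Y) hd p (proj d (Y C) s)
      have t3 := hd.tri p (proj d (Y C) x) (proj d (Y C) s)
      have t4 := hd.symm (proj d (Y C) x) (proj d (Y C) s)
      exact fin i (c + 2 + (2 * c + 48 + κ)) _ hi h (by omega) (by omega)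
    rcases hC C with h | h
    · exact key a (Or.inl rfl) h
    · exact key b (Or.inr rfl) (by rw [hd.symm]; exact h)

end Cone

end Burn
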