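import Pool.Agent.W_MP_3ab0ed_burn.Proj

/-!
Rescaling: `resc d N x y = ⌈d x y / N⌉` (helper44).
-/

namespace Burn

variable {X : Type*} {d : X → X → ℕ}

/-- the rescaled metric -/
def resc (d : X → X → ℕ) (N : ℕ) (x y : X) : ℕ := (d x y + N - 1) / N

/-- `d ≤ N * resc` and `N * resc ≤ d + N - 1` -/
theorem resc_bounds {N : ℕ} (hN : 0 < N) (x y : X) :
    d x y ≤ N * resc d N x y ∧ N * resc d N x y ≤ d x y + (N - 1) := by
  have h1 := Nat.div_add_mod (d x y + N - 1) N
  have h2 := Nat.mod_lt (d x y + N - 1) hN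
  unfold resc
  generalize N * ((d x y + N - 1) / N) = t at *
  omega

theorem resc_le {N : ℕ} (hN : 0 < N) {x y : X} {k : ℕ} (h : d x y ≤ N * k) :
    resc d N x y ≤ k := by
  unfold resc
  have h3 : d x y + N - 1 < N * (k + 1) := by
    rw [mul_add, mul_one]
    omega
  have := Nat.div_lt_of_lt_mul h3
  omega

theorem le_of_resc_le {N : ℕ} (hN : 0 < N) {x y : X} {k : ℕ} (h : resc d N x y ≤ k) :
    d x y ≤ N * k :=
  (resc_bounds hN x y).1.trans (Nat.mul_le_mul_left N h)

theorem isGeod_resc (hd : IsGeod d) {N : ℕ} (hN : 0 < N) : IsGeod (resc d N) where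
  self x := by
    unfold resc
    rw [hd.self]
    exact Nat.div_eq_of_lt (by omega)
  eq x y h := by
    apply hd.eq
    have := le_of_resc_le (d := d) hN (x := x) (y := y) (k := 0) (by omega)
    omega
  symm x y := by
    unfold resc
    rw [hd.symm]
  tri x y z := by
    apply resc_le hN
    have h1 := (resc_bounds (d := d) hN x y).1
    have h2 := (resc_bounds (d := d) hN y z).1
    have h3 := hd.tri x y z
    rw [mul_add]
    omega
  geod x y k hk := by
    by_cases h : k = resc d N x y
    · refine ⟨y, h.symm, ?_⟩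
      have : resc d N y y = 0 := by
        unfold resc
        rw [hd.self]
        exact Nat.div_eq_of_lt (by omega)
      omega
    · have hlt : N * k < d x y := by
        by_contra hcon
        have := resc_le (d := d) hN (x := x) (y := y) (k := k) (by omega)
        omega
      obtain ⟨z, hz1, hz2⟩ := hd.geod x y (N * k) hlt.le
      refine ⟨z, ?_, ?_⟩
      · apply le_antisymm
        · exact resc_le hN (by omega)
        · by_contra hcon
          have h1 := le_of_resc_le (d := d) hN (x := x) (y := z) (k := resc d N x z) le_rfl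
          have h2 : N * (resc d N x z + 1) ≤ N * k := Nat.mul_le_mul_left N (by omega)
          rw [mul_add, mul_one] at h2
          omega
      · have e : resc d N x y = resc d N z y + k := by
          unfold resc
          have : d x y + N - 1 = d z y + N - 1 + N * k := by omega
          rw [this, Nat.add_mul_div_left _ _ hN]
        omega

theorem hyp_resc {δ N : ℕ} (hh : Hyp d δ) (hN : 0 < N) (hδ : δ ≤ N) :
    Hyp (resc d N) 2 := by
  intro x y z w
  have a1 := (resc_bounds (d := d) hN x y).2
  have a2 := (resc_bounds (d := d) hN z w).2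
  have b1 := (resc_bounds (d := d) hN x z).1
  have b2 := (resc_bounds (d := d) hN y w).1
  have b3 := (resc_bounds (d := d) hN x w).1
  have b4 := (resc_bounds (d := d) hN y z).1
  have h := hh x y z w
  generalize resc d N x y = r1 at *
  generalize resc d N z w = r2 at *
  generalize resc d N x z = r3 at *
  generalize resc d N y w = r4 at *
  generalize resc d N x w = r5 at *
  generalize resc d N y z = r6 at *
  by_contra hcon
  push Not at hcon
  have c1 : r3 + r4 ≤ max (r3 + r4) (r5 + r6) := le_max_left _ _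
  have c2 : r5 + r6 ≤ max (r3 + r4) (r5 + r6) := le_max_right _ _
  have h1 : N * (max (r3 + r4) (r5 + r6) + 3) ≤ N * (r1 + r2) :=
    Nat.mul_le_mul_left N (by omega)
  have h2 : N * (r3 + r4) ≤ N * max (r3 + r4) (r5 + r6) := Nat.mul_le_mul_left N c1
  have h3 : N * (r5 + r6) ≤ N * max (r3 + r4) (r5 + r6) := Nat.mul_le_mul_left N c2
  rw [mul_add] at h1 h2 h3
  rw [mul_add] at h1
  rcases le_total (d x z + d y w) (d x w + d y z) with h5 | h5
  · rw [max_eq_right h5] at h
    omega
  · rw [max_eq_left h5] at h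
    omega

theorem near_of_near_resc {N : ℕ} (hN : 0 < N) {Y : Set X} {s : ℕ} {p : X}
    (h : Near (resc d N) Y s p) : Near d Y (N * s) p := by
  obtain ⟨y, hy, h⟩ := h
  exact ⟨y, hy, le_of_resc_le hN h⟩

theorem near_resc_of_near {N : ℕ} (hN : 0 < N) {Y : Set X} {s k : ℕ} {p : X}
    (h : Near d Y s p) (hk : s ≤ N * k) : Near (resc d N) Y k p := by
  obtain ⟨y, hy, h⟩ := h
  exact ⟨y, hy, resc_le hN (h.trans hk)⟩

theorem qc_resc (hd : IsGeod d) {δ κ N : ℕ} (hh : Hyp d δ) (hN : κ + δ ≤ N) (hN0 : 0 < N)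
    {Y : Set X} (hq : QC d Y κ) : QC (resc d N) Y 2 := by
  intro y y' p hy hy' h
  have a1 := (resc_bounds (d := d) hN0 y p).1
  have a2 := (resc_bounds (d := d) hN0 p y').1
  have a3 := (resc_bounds (d := d) hN0 y y').2
  have hb : Btw d (N - 1) y p y' := by
    unfold Btw
    rw [← h, mul_add] at a3
    omega
  exact near_resc_of_near hN0 (near_of_btw_qc hd hh hq hy hy' hb) (by omega)

/-- small scale overlap controls overlaps at all scales -/
theorem ov_scale (hd : IsGeod d) {δ κ M' : ℕ} (hh : Hyp d δ) {Y Y' : Set X}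
    (hq : QC d Y κ) (hq' : QC d Y' κ)
    (hov : ∀ a b, Near d Y (κ + 3 * δ) a → Near d Y' (κ + 3 * δ) a → Near d Y (κ + 3 * δ) b →
      Near d Y' (κ + 3 * δ) b → d a b ≤ M')
    {s : ℕ} {a b : X} (h1 : Near d Y s a) (h2 : Near d Y' s a) (h3 : Near d Y s b)
    (h4 : Near d Y' s b) : d a b ≤ 2 * s + 4 * δ + 2 + M' := by
  by_contra hcon
  push Not at hcon
  -- points in the middle are near the sets
  have key : ∀ (Z : Set X), QC d Z κ → Near d Z s a → Near d Z s b → ∀ p,
      d a p + d p b = d a b → s + 2 * δ < d a p → s + 2 * δ < d p b →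
      Near d Z (κ + 3 * δ) p := by
    intro Z hZ ha hb p hp hpa hpb
    obtain ⟨qa, hqa, ha⟩ := ha
    obtain ⟨qb, hqb, hb⟩ := hb
    have hb0 : Btw d 0 a p b := by unfold Btw; omega
    rcases tripod hd hh hb0 qb with h | h
    · rcases tripod hd hh h qa with h' | h'
      · unfold Btw at h'
        omega
      · have := near_of_btw_qc hd hh hZ hqb hqa h'
        exact this.mono (by omega)
    · unfold Btw at h
      have := hd.symm b p
      omega
  obtain ⟨p, hp1, hp2⟩ := hd.geod a b (s + 2 * δ + 1) (by omega)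
  obtain ⟨p', hp1', hp2'⟩ := hd.geod b a (s + 2 * δ + 1) (by rw [hd.symm b a]; omega)
  have s1 := hd.symm b a
  have s2 := hd.symm p' a
  have s3 := hd.symm b p'
  have s4 := hd.symm p p'
  have e1 := hov p p' (key Y hq h1 h3 p (by omega) (by omega) (by omega))
    (key Y' hq' h2 h4 p (by omega) (by omega) (by omega))
    (key Y hq h1 h3 p' (by omega) (by omega) (by omega))
    (key Y' hq' h2 h4 p' (by omega) (by omega) (by omega))
  have t1 := hd.tri a p b
  have t2 := hd.tri p p' b
  omega

theorem fam_resc (hd : IsGeod d) {δ κ M' N : ℕ} (hh : Hyp d δ) {V : Type*} {Y : V → Set X}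
    (hne : ∀ C, (Y C).Nonempty) (hq : ∀ C, QC d (Y C) κ)
    (hov : ∀ C C', C ≠ C' → ∀ a b, Near d (Y C) (κ + 3 * δ) a → Near d (Y C') (κ + 3 * δ) a →
      Near d (Y C) (κ + 3 * δ) b → Near d (Y C') (κ + 3 * δ) b → d a b ≤ M')
    (hN : κ + 4 * δ + 2 + M' ≤ N) : Fam (resc d N) Y 2 2 where
  ne := hne
  qc C := qc_resc hd hh (by omega) (by omega) (hq C)
  ov C C' hC s a b h1 h2 h3 h4 := by
    have hN0 : 0 < N := by omega
    have h := ov_scale hd hh (hq C) (hq C') (hov C C' hC) (near_of_near_resc hN0 h1)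
      (near_of_near_resc hN0 h2) (near_of_near_resc hN0 h3) (near_of_near_resc hN0 h4)
    apply resc_le hN0
    have e : N * (2 * s + 2) = 2 * (N * s) + 2 * N := by ring
    omega

end Burn
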