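import Pool.Agent.Burn.LC4
import Pool.Agent.W_MP_3ab0ed_h44.Adapter
import Pool.Agent.W_MP_3ab0ed_burn.Rescale
import Pool.Agent.W_MP_3ab0ed_burn.ConeAct

/-!
The family of short maximal cyclic subgroups: apices, action, quasiconvex axes, overlaps,
rotation family of the cone-off.
-/

set_option linter.style.haveILetI false
set_option linter.unusedVariables false

namespace Burn

/-- Facts about an action used to build the cone-off. -/
structure Up (n δ B q : ℕ) (G V : Type) [Group G] [MulAction G V] (M : IMet V) : Prop where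
  ne : Nonempty V
  inv : M.Inv G
  hyp : M.Hyp (δ : ℤ)
  hδ : 1 ≤ δ
  hq : 1 ≤ q
  hn : n ≠ 0
  T : ∀ g : G, g ^ n = 1 ∨ M.Lox (q : ℤ) g
  cyc : ∀ g : G, M.Lox (q : ℤ) g → ∃ w : G, ∀ u : G, Commute u g ↔ u ∈ Subgroup.zpowers w
  noinv : ∀ u v : G, M.Lox (q : ℤ) u → v * u * v⁻¹ ≠ u⁻¹
  lc4 : ∀ R : ℤ, 1000 * (δ : ℤ) ≤ R → ∀ (g h : G) (x y : V), M.d x (g • x) ≤ R →
    M.d y (g • y) ≤ R → M.d x (h • x) ≤ R → M.d y (h • y) ≤ R →
    (B : ℤ) + 20 * R < M.d x y → ∃ z : G, g ∈ Subgroup.zpowers z ∧ h ∈ Subgroup.zpowers z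

namespace Up

variable {n δ B q : ℕ} {G V : Type} [Group G] [MulAction G V] {M : IMet V}

/-- the elements labelling the apices -/
def IsAp (n δ B q : ℕ) (M : IMet V) (c : G) : Prop :=
  M.Lox (q : ℤ) c ∧ (∀ u : G, Commute u c ↔ u ∈ Subgroup.zpowers c) ∧
    (∃ z : V, M.d z (c • z) ≤ 5 * (δ : ℤ)) ∧
    WellOrderingRel (ConjClasses.mk c) (ConjClasses.mk c⁻¹)

/-- the type of apices -/
def Ap (n δ B q : ℕ) (G : Type) [Group G] {V : Type} [MulAction G V] (M : IMet V) : Type :=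
  {c : G // IsAp n δ B q M c}

theorem mk_conj (g c : G) : ConjClasses.mk (g * c * g⁻¹) = ConjClasses.mk c := by
  rw [ConjClasses.mk_eq_mk_iff_isConj]
  exact (isConj_iff.mpr ⟨g, rfl⟩).symm

theorem commute_conj (g u c : G) : Commute u (g * c * g⁻¹) ↔ Commute (g⁻¹ * u * g) c := by
  constructor
  · intro h
    show (g⁻¹ * u * g) * c = c * (g⁻¹ * u * g)
    have h1 : u * (g * c * g⁻¹) = (g * c * g⁻¹) * u := h
    calc (g⁻¹ * u * g) * c = g⁻¹ * (u * (g * c * g⁻¹)) * g := by group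
      _ = g⁻¹ * ((g * c * g⁻¹) * u) * g := by rw [h1]
      _ = c * (g⁻¹ * u * g) := by group
  · intro h
    show u * (g * c * g⁻¹) = (g * c * g⁻¹) * u
    have h1 : (g⁻¹ * u * g) * c = c * (g⁻¹ * u * g) := h
    calc u * (g * c * g⁻¹) = g * ((g⁻¹ * u * g) * c) * g⁻¹ := by group
      _ = g * (c * (g⁻¹ * u * g)) * g⁻¹ := by rw [h1]
      _ = (g * c * g⁻¹) * u := by group

theorem mem_zpowers_conj (g u c : G) :
    u ∈ Subgroup.zpowers (g * c * g⁻¹) ↔ g⁻¹ * u * g ∈ Subgroup.zpowers c := by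
  rw [Subgroup.mem_zpowers_iff, Subgroup.mem_zpowers_iff]
  constructor
  · rintro ⟨k, hk⟩
    exact ⟨k, by rw [← hk, conj_zpow]; group⟩
  · rintro ⟨k, hk⟩
    exact ⟨k, by rw [conj_zpow, hk]; group⟩

theorem IsAp.conj (hi : M.Inv G) {c : G} (hc : IsAp n δ B q M c) (g : G) :
    IsAp n δ B q M (g * c * g⁻¹) := by
  obtain ⟨h1, h2, ⟨z, hz⟩, h4⟩ := hc
  refine ⟨h1.conj hi g, ?_, ⟨g • z, ?_⟩, ?_⟩
  · intro u
    rw [commute_conj, mem_zpowers_conj, h2]
  · have e : (g * c * g⁻¹) • g • z = g • c • z := by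
      rw [← mul_smul, ← mul_smul]; congr 1; group
    rw [e, hi]
    exact hz
  · have e : (g * c * g⁻¹)⁻¹ = g * c⁻¹ * g⁻¹ := by group
    rw [e, mk_conj, mk_conj]
    exact h4

/-- conjugation action on the apices -/
@[reducible] def apAct (hi : M.Inv G) : MulAction G (Ap n δ B q G M) where
  smul g c := ⟨g * c.1 * g⁻¹, c.2.conj hi g⟩
  one_smul c := Subtype.ext (by
    show 1 * c.1 * 1⁻¹ = c.1
    group)
  mul_smul a b c := Subtype.ext (by
    show (a * b) * c.1 * (a * b)⁻¹ = a * (b * c.1 * b⁻¹) * a⁻¹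
    group)

theorem apAct_val (hi : M.Inv G) (g : G) (c : Ap n δ B q G M) :
    letI := apAct (n := n) (δ := δ) (B := B) (q := q) hi
    (g • c).1 = g * c.1 * g⁻¹ := rfl

theorem stab_eq (hi : M.Inv G) (c : Ap n δ B q G M) :
    letI := apAct (n := n) (δ := δ) (B := B) (q := q) hi
    MulAction.stabilizer G c = Subgroup.zpowers c.1 := by
  letI := apAct (n := n) (δ := δ) (B := B) (q := q) hi
  ext g
  rw [MulAction.mem_stabilizer_iff, ← c.2.2.1 g]
  constructor
  · intro h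
    have h1 : g * c.1 * g⁻¹ = c.1 := congrArg Subtype.val h
    show g * c.1 = c.1 * g
    calc g * c.1 = (g * c.1 * g⁻¹) * g := by group
      _ = c.1 * g := by rw [h1]
  · intro h
    apply Subtype.ext
    show g * c.1 * g⁻¹ = c.1
    rw [h.eq]; group

/-- 1.5 and the choice of orientation: every short loxodromic element lies in a cyclic group
labelled by an apex. -/
theorem exists_apex (H : Up n δ B q G V M) {g : G} (hg : M.Lox (q : ℤ) g) {x : V} {m : ℕ}
    (hm : 1 ≤ m) (hx : M.d x (g ^ m • x) ≤ m) :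
    ∃ c : Ap n δ B q G M, g ∈ Subgroup.zpowers c.1 := by
  haveI := H.ne
  obtain ⟨w, hw⟩ := H.cyc g hg
  have hgw : g ∈ Subgroup.zpowers w := (hw g).mp (Commute.refl g)
  obtain ⟨a, ha⟩ := Subgroup.mem_zpowers_iff.mp hgw
  have hwg : Commute w g := (hw w).mpr (Subgroup.mem_zpowers w)
  -- `w` is loxodromic
  have hwl : M.Lox (q : ℤ) w := by
    rcases H.T w with h | h
    · exfalso
      apply hg.pow_ne H.hn
      rw [← ha, ← zpow_natCast, ← zpow_mul, mul_comm, zpow_mul, zpow_natCast, h, one_zpow]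
    · exact h
  have hcent : ∀ u : G, Commute u w ↔ u ∈ Subgroup.zpowers w := by
    intro u
    constructor
    · intro hu
      rw [← hw, ← ha]
      exact hu.zpow_right a
    · intro hu
      obtain ⟨k, hk⟩ := Subgroup.mem_zpowers_iff.mp hu
      rw [← hk]
      exact (Commute.refl w).zpow_left k
  have hane : a ≠ 0 := by
    rintro rfl
    rw [zpow_zero] at ha
    exact hg.pow_ne (j := 1) one_ne_zero (by rw [pow_one]; exact ha.symm)
  have hshort : ∃ z : V, M.d z (w • z) ≤ 5 * (δ : ℤ) := by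
    by_contra hcon
    push Not at hcon
    have hδ := H.hδ
    have h1 := M.lox H.inv H.hyp (by exact_mod_cast hδ) w (5 * δ + 1) (by omega)
      (fun x => by have := hcon x; omega) x (m * a.natAbs)
    have h2 : M.d x (w ^ (m * a.natAbs) • x) = M.d x (g ^ m • x) := by
      have e1 := IMet.disp_zpow (M := M) H.inv w x (a * m)
      have e2 : w ^ (a * (m : ℤ)) = g ^ m := by
        rw [zpow_mul, ha, zpow_natCast]
      rw [e2, Int.natAbs_mul, Int.natAbs_natCast, mul_comm a.natAbs m] at e1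
      exact e1.symm
    rw [h2] at h1
    have h3 : 1 ≤ a.natAbs := Int.natAbs_pos.mpr hane
    have h4 : (m : ℤ) ≤ ((m * a.natAbs : ℕ) : ℤ) := by
      push_cast
      nlinarith
    have h5 : (0 : ℤ) < m := by exact_mod_cast hm
    nlinarith
  have hne : ConjClasses.mk w ≠ ConjClasses.mk w⁻¹ := by
    intro h
    rw [ConjClasses.mk_eq_mk_iff_isConj, isConj_iff] at h
    obtain ⟨v, hv⟩ := h
    exact H.noinv w v hwl hv
  rcases trichotomous_of WellOrderingRel (ConjClasses.mk w) (ConjClasses.mk w⁻¹) with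
    h | h | h
  · exact ⟨⟨w, hwl, hcent, hshort, h⟩, hgw⟩
  · exact absurd h hne
  · refine ⟨⟨w⁻¹, ?_, ?_, ?_, ?_⟩, ?_⟩
    · have := hwl.zpow H.inv (p := -1) (by norm_num)
      rwa [zpow_neg_one] at this
    · intro u
      rw [Subgroup.zpowers_inv, ← hcent]
      exact Commute.inv_right_iff
    · obtain ⟨z, hz⟩ := hshort
      refine ⟨z, ?_⟩
      rw [← H.inv w, smul_inv_smul, M.symm]
      exact hz
    · rw [inv_inv]
      exact h
    · show g ∈ Subgroup.zpowers w⁻¹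
      rw [Subgroup.zpowers_inv]
      exact hgw

/-- the axis of an apex -/
def Yx (n δ B q : ℕ) (M : IMet V) (c : Ap n δ B q G M) : Set V :=
  {x | M.d x (c.1 • x) ≤ 16 * (δ : ℤ)}

theorem Yx_ne (c : Ap n δ B q G M) : (Yx n δ B q M c).Nonempty := by
  obtain ⟨z, hz⟩ := c.2.2.2.1
  exact ⟨z, by show M.d z (c.1 • z) ≤ 16 * (δ : ℤ); omega⟩

theorem Yx_smul (hi : M.Inv G) (g : G) (c : Ap n δ B q G M) (y : V)
    (hy : y ∈ Yx n δ B q M c) :
    letI := apAct (n := n) (δ := δ) (B := B) (q := q) hi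
    g • y ∈ Yx n δ B q M (g • c) := by
  show M.d (g • y) ((g * c.1 * g⁻¹) • g • y) ≤ 16 * (δ : ℤ)
  have e : (g * c.1 * g⁻¹) • g • y = g • c.1 • y := by
    rw [← mul_smul, ← mul_smul]; congr 1; group
  rw [e, hi]
  exact hy

/-- powers move a point of small displacement linearly -/
theorem disp_pow_bound (hi : M.Inv G) (g : G) (p z : V) (j : ℕ) {t : ℤ}
    (hz : M.d z (g • z) ≤ t) (ht : 0 ≤ t) : M.d p (g ^ j • p) ≤ 2 * M.d p z + j * t := by
  have h1 := M.disp_pow_le hi g z j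
  have h2 := M.tri p z (g ^ j • p)
  have h3 := M.tri z (g ^ j • z) (g ^ j • p)
  have h4 := hi (g ^ j) z p
  have h5 := M.symm z p
  have h6 : (j : ℤ) * M.d z (g • z) ≤ j * t := mul_le_mul_of_nonneg_left hz (by positivity)
  omega

/-- 2.1: axes are quasiconvex -/
theorem Yx_qc (H : Up n δ B q G V M) (c : Ap n δ B q G M) :
    QC M.nd (Yx n δ B q M c) (36 * δ + 1) := by
  intro y y' p hy hy' hp
  have hδ : (1 : ℤ) ≤ δ := by exact_mod_cast H.hδ
  have c1 := M.nd_cast y p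
  have c2 := M.nd_cast p y'
  have c3 := M.nd_cast y y'
  have hE : M.E p y y' = 0 := by unfold IMet.E; omega
  by_cases hdeep : 36 * δ + 1 ≤ M.nd y p ∧ 36 * δ + 1 ≤ M.nd p y'
  · -- `p` itself is on the axis
    refine ⟨p, ?_, by rw [M.isGeod.self]; omega⟩
    have hy1 : M.d y (c.1 • y) ≤ 16 * (δ : ℤ) := hy
    have hy2 : M.d y' (c.1 • y') ≤ 16 * (δ : ℤ) := hy'
    have hD : M.Deep y y' 0 (36 * δ + 1) p := ⟨by omega, by omega, by omega⟩
    have hax := M.deep_axis H.inv H.hyp (by omega) hy1 hy2 hD (by omega) (by omega)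
    show M.d p (c.1 • p) ≤ 16 * (δ : ℤ)
    by_contra hcon
    push Not at hcon
    obtain ⟨z, hz⟩ := c.2.2.2.1
    -- linear growth with slope `> 5 δ`
    have key : ∀ j : ℕ, (j : ℤ) * (M.d p (c.1 • p) - 11 * δ) ≤ 2 * M.d p z + j * (5 * δ) := by
      intro j
      have h1 := M.chain_length H.hyp (a := 10 * δ) (ℓ := M.d p (c.1 • p))
        (fun i => c.1 ^ i • p) j
        (fun i _ => by
          have e1 : c.1 ^ (i + 1) • p = c.1 ^ i • (c.1 • p) := by rw [pow_succ, mul_smul]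
          have e2 : c.1 ^ (i + 2) • p = c.1 ^ i • (c.1 ^ 2 • p) := by rw [pow_add, mul_smul]
          show M.E (c.1 ^ (i + 1) • p) (c.1 ^ i • p) (c.1 ^ (i + 2) • p) ≤ 10 * δ
          rw [e1, e2, H.inv.E]
          exact hax)
        (fun i _ => by
          have e1 : c.1 ^ (i + 1) • p = c.1 ^ i • (c.1 • p) := by rw [pow_succ, mul_smul]
          show M.d p (c.1 • p) ≤ M.d (c.1 ^ i • p) (c.1 ^ (i + 1) • p)
          rw [e1, H.inv])
        (by omega) (by omega) (by omega)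
      have h2 := disp_pow_bound (M := M) H.inv c.1 p z j hz (by omega)
      have e0 : M.d ((fun i => c.1 ^ i • p) 0) ((fun i => c.1 ^ i • p) j) =
        M.d p (c.1 ^ j • p) := by simp
      rw [e0] at h1
      have e3 : (M.d p (c.1 • p) - (10 * (δ : ℤ) + δ)) = M.d p (c.1 • p) - 11 * δ := by ring
      rw [e3] at h1
      omega
    have n0 := M.nonneg p z
    have := key (2 * (M.d p z).toNat + 1)
    have e4 : ((2 * (M.d p z).toNat + 1 : ℕ) : ℤ) = 2 * M.d p z + 1 := by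
      push_cast
      rw [Int.toNat_of_nonneg n0]
    rw [e4] at this
    nlinarith
  · -- `p` is near one of the ends
    rcases not_and_or.mp hdeep with h | h
    · exact ⟨y, hy, by rw [M.isGeod.symm]; omega⟩
    · exact ⟨y', hy', by omega⟩

/-- different apices have different cyclic groups -/
theorem ap_eq_of_common (H : Up n δ B q G V M) {c c' : Ap n δ B q G M} {z : G}
    (h : c.1 ∈ Subgroup.zpowers z) (h' : c'.1 ∈ Subgroup.zpowers z) : c = c' := by
  haveI := H.ne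
  have hz : ∀ b : Ap n δ B q G M, b.1 ∈ Subgroup.zpowers z →
      Subgroup.zpowers b.1 = Subgroup.zpowers z := by
    intro b hb
    apply le_antisymm
    · rwa [Subgroup.zpowers_le]
    · rw [Subgroup.zpowers_le, ← b.2.2.1 z]
      obtain ⟨k, hk⟩ := Subgroup.mem_zpowers_iff.mp hb
      rw [← hk]
      exact (Commute.refl z).zpow_right k
  have heq : Subgroup.zpowers c.1 = Subgroup.zpowers c'.1 := (hz c h).trans (hz c' h').symm
  have h1 : c'.1 ∈ Subgroup.zpowers c.1 := by rw [heq]; exact Subgroup.mem_zpowers _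
  have h2 : c.1 ∈ Subgroup.zpowers c'.1 := by rw [← heq]; exact Subgroup.mem_zpowers _
  obtain ⟨a, ha⟩ := Subgroup.mem_zpowers_iff.mp h1
  obtain ⟨b, hb⟩ := Subgroup.mem_zpowers_iff.mp h2
  have hab : a * b = 1 := by
    have h3 : c.1 ^ (a * b - 1) = 1 := by
      rw [zpow_sub, zpow_mul, ha, hb, zpow_one, mul_inv_cancel]
    by_contra hne
    exact c.2.1.zpow_ne (j := a * b - 1) (by omega) h3
  rcases Int.eq_one_or_neg_one_of_mul_eq_one hab with h3 | h3
  · apply Subtype.ext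
    rw [← ha, h3, zpow_one]
  · exfalso
    rw [h3, zpow_neg_one] at ha
    have o1 := c.2.2.2.2
    have o2 := c'.2.2.2.2
    rw [← ha, inv_inv] at o2
    exact (asymm o1 o2)

/-- 2.2 : overlap of two axes -/
theorem Yx_overlap (H : Up n δ B q G V M) {c c' : Ap n δ B q G M} (hne : c ≠ c') {a b : V}
    (h1 : Near M.nd (Yx n δ B q M c) (36 * δ + 1 + 3 * δ) a)
    (h2 : Near M.nd (Yx n δ B q M c') (36 * δ + 1 + 3 * δ) a)
    (h3 : Near M.nd (Yx n δ B q M c) (36 * δ + 1 + 3 * δ) b)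
    (h4 : Near M.nd (Yx n δ B q M c') (36 * δ + 1 + 3 * δ) b) :
    M.nd a b ≤ B + 20000 * δ := by
  have hδ := H.hδ
  have key : ∀ (e : Ap n δ B q G M) (v : V),
      Near M.nd (Yx n δ B q M e) (36 * δ + 1 + 3 * δ) v → M.d v (e.1 • v) ≤ 1000 * (δ : ℤ) := by
    rintro e v ⟨y, hy, hv⟩
    have hy1 : M.d y (e.1 • y) ≤ 16 * (δ : ℤ) := hy
    have c1 := M.nd_cast v y
    have t1 := M.tri v y (e.1 • v)
    have t2 := M.tri y (e.1 • y) (e.1 • v)
    have t3 := H.inv e.1 y v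
    have t4 := M.symm y v
    omega
  by_contra hcon
  push Not at hcon
  have c1 := M.nd_cast a b
  obtain ⟨z, hz1, hz2⟩ := H.lc4 (1000 * δ) le_rfl c.1 c'.1 a b (key c a h1) (key c b h3)
    (key c' a h2) (key c' b h4) (by omega)
  exact hne (ap_eq_of_common H hz1 hz2)

/-- the family of axes at scale `N` -/
theorem fam (H : Up n δ B q G V M) {N : ℕ} (hN : 40 * δ + 3 + B + 20000 * δ ≤ N) :
    Fam (resc M.nd N) (Yx n δ B q M (G := G)) 2 2 := by
  apply fam_resc (κ := 36 * δ + 1) (M' := B + 20000 * δ) (δ := δ) M.isGeod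
    (M.hyp_nd.mp H.hyp) Yx_ne (Yx_qc H)
  · intro c c' hc a b h1 h2 h3 h4
    exact Yx_overlap H hc h1 h2 h3 h4
  · omega

/-- rotation groups -/
def Rot (n δ B q : ℕ) (M : IMet V) (c : Ap n δ B q G M) : Subgroup G :=
  Subgroup.zpowers (c.1 ^ n)

theorem Rot_fix (hi : M.Inv G) (c : Ap n δ B q G M) (h : G) (hh : h ∈ Rot n δ B q M c) :
    letI := apAct (n := n) (δ := δ) (B := B) (q := q) hi
    h • c = c := by
  letI := apAct (n := n) (δ := δ) (B := B) (q := q) hi
  have h1 : h ∈ MulAction.stabilizer G c := by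
    rw [stab_eq hi c]
    have : Rot n δ B q M c ≤ Subgroup.zpowers c.1 := by
      unfold Rot
      rw [Subgroup.zpowers_le]
      exact Subgroup.pow_mem _ (Subgroup.mem_zpowers _) n
    exact this hh
  exact h1

theorem Rot_conj (hi : M.Inv G) (c : Ap n δ B q G M) (g h : G) (hh : h ∈ Rot n δ B q M c) :
    letI := apAct (n := n) (δ := δ) (B := B) (q := q) hi
    g * h * g⁻¹ ∈ Rot n δ B q M (g • c) := by
  obtain ⟨k, hk⟩ := Subgroup.mem_zpowers_iff.mp hh
  show g * h * g⁻¹ ∈ Subgroup.zpowers ((g * c.1 * g⁻¹) ^ n)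
  rw [Subgroup.mem_zpowers_iff]
  refine ⟨k, ?_⟩
  rw [← hk, conj_pow, conj_zpow]

theorem Rot_disp (H : Up n δ B q G V M) {N T : ℕ} (hN : 0 < N) (hT : T * (q * N) ≤ n)
    (c : Ap n δ B q G M) (h : G) (hh : h ∈ Rot n δ B q M c) (hne : h ≠ 1) (y : V) :
    T ≤ resc M.nd N y (h • y) := by
  haveI := H.ne
  obtain ⟨k, hk⟩ := Subgroup.mem_zpowers_iff.mp hh
  have hk0 : k ≠ 0 := by
    rintro rfl
    exact hne (by rw [← hk, zpow_zero])
  have e : h = c.1 ^ ((n : ℤ) * k) := by rw [← hk, zpow_mul, zpow_natCast]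
  have h1 := c.2.1 y ((n : ℤ) * k).natAbs
  rw [← IMet.disp_zpow (M := M) H.inv, ← e, Int.natAbs_mul, Int.natAbs_natCast] at h1
  have h2 : 1 ≤ k.natAbs := Int.natAbs_pos.mpr hk0
  have h3 : n ≤ n * k.natAbs := by nlinarith
  have c1 := M.nd_cast y (h • y)
  have h4 : n ≤ q * M.nd y (h • y) := by
    have : ((n * k.natAbs : ℕ) : ℤ) ≤ ((q * M.nd y (h • y) : ℕ) : ℤ) := by
      push_cast
      rw [c1]
      push_cast at h1
      exact h1
    have h5 : n * k.natAbs ≤ q * M.nd y (h • y) := by exact_mod_cast this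
    omega
  have h6 := (resc_bounds (d := M.nd) hN y (h • y)).1
  have h7 : T * (q * N) ≤ resc M.nd N y (h • y) * (q * N) := by
    calc T * (q * N) ≤ n := hT
      _ ≤ q * M.nd y (h • y) := h4
      _ ≤ q * (N * resc M.nd N y (h • y)) := Nat.mul_le_mul_left _ h6
      _ = resc M.nd N y (h • y) * (q * N) := by ring
  have hq : 0 < q * N := Nat.mul_pos (Nat.lt_of_lt_of_le Nat.zero_lt_one H.hq) hN
  exact Nat.le_of_mul_le_mul_right h7 hq

theorem resc_inv (hi : M.Inv G) (N : ℕ) (g : G) (x y : V) :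
    resc M.nd N (g • x) (g • y) = resc M.nd N x y := by
  unfold resc IMet.nd
  rw [hi]

/-- THE ROTATION FAMILY of the cone-off of depth `R` at scale `N`. -/
noncomputable def rf (H : Up n δ B q G V M) {N R T : ℕ}
    (hN : 40 * δ + 3 + B + 20000 * δ ≤ N) (hR : Cone.depth ≤ R)
    (hT : T * (q * N) ≤ n) (hTh : 2 * ((12 * Cone.dX + 11) * 2 ^ R) ≤ T) :
    letI := apAct (n := n) (δ := δ) (B := B) (q := q) H.inv
    letI := Cone.coneAct (R := R) (Yx_smul (n := n) (δ := δ) (B := B) (q := q) H.inv)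
    RotFam G (Cone (Yx n δ B q M (G := G)) R) V (Cone.rho (resc M.nd N)) Cone.dX (2 * R + 2)
      ((12 * Cone.dX + 11) * 2 ^ R) T :=
  letI := apAct (n := n) (δ := δ) (B := B) (q := q) H.inv
  Cone.rotFam (d := resc M.nd N) (isGeod_resc M.isGeod (by omega))
    (hyp_resc (M.hyp_nd.mp H.hyp) (by omega) (by omega)) (fam H hN)
    (Yx_smul (n := n) (δ := δ) (B := B) (q := q) H.inv) (resc_inv H.inv N)
    (le_trans Cone.depth_ok.1 hR |>.trans le_rfl) (le_trans Cone.depth_ok.2.1 hR)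
    (lt_of_lt_of_le Cone.depth_ok.2.2.1 hR)
    (lt_of_lt_of_le Cone.depth_ok.2.2.2
      (Nat.mul_le_mul_left _ (Nat.pow_le_pow_right (by norm_num) hR)))
    Cone.one_le_dX (Rot n δ B q M) (Rot_fix H.inv) (Rot_conj H.inv) hTh
    (fun c h hh hne y _ => Rot_disp H (by omega) hT c h hh hne y)

end Up

end Burn
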