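import Pool.Agent.W_MP_3ab0ed_burn.Cone2

/-!
The guess sets of the cone-off at scale one: constants `δ = 2`, `κ = 2`, `M = 2`,
`c2 = 20`, `s2 = 44`, `s0 = 49`, `B = 2 ^ 9 = 512`, relevance threshold `10`, `T = 1536`.
-/

namespace Burn

namespace Cone

variable {X V : Type*} {Y : V → Set X} {R : ℕ} {d : X → X → ℕ}

/-- projection of the base point -/
noncomputable def bC (d : X → X → ℕ) (y0 : V → X) (C : V) (u : Cone Y R) : X :=
  proj d (Y C) (base y0 u)

/-- depth function -/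
noncomputable def SC (d : X → X → ℕ) (y0 : V → X) (C : V) (u : Cone Y R) (p : X) : ℕ :=
  2 ^ (kC C u) + d p (bC d y0 C u)

/-- level up to which the guess path climbs in the horoball `C` -/
noncomputable def LC (d : X → X → ℕ) (y0 : V → X) (C : V) (u v : Cone Y R) : ℕ :=
  max (max (kC C u) (kC C v)) (Nat.clog 2 (d (bC d y0 C u) (bC d y0 C v)))

/-- `p` is a `C`-deep point of the interval of base points -/
def Deep (d : X → X → ℕ) (y0 : V → X) (C : V) (u v : Cone Y R) (p : X) : Prop :=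
  d (base y0 u) p + d p (base y0 v) = d (base y0 u) (base y0 v) ∧ Near d (Y C) 49 p ∧
    1536 ≤ SC d y0 C u p ∧ 1536 ≤ SC d y0 C v p

/-- shallow points -/
def Shallow (d : X → X → ℕ) (y0 : V → X) (u v : Cone Y R) (p : X) : Prop :=
  d (base y0 u) p + d p (base y0 v) = d (base y0 u) (base y0 v) ∧ ∀ C, ¬ Deep d y0 C u v p

/-- the part of the column over `b_C(u)` between the level of `u` and `L` -/
def InV (d : X → X → ℕ) (y0 : V → X) (C : V) (u : Cone Y R) (L : ℕ) (w : Cone Y R) : Prop :=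
  ∃ (j : ℕ) (hy : bC d y0 C u ∈ Y C), kC C u ≤ j ∧ j ≤ L ∧ w = col C (bC d y0 C u) hy j

/-- the guess set -/
def Ag (d : X → X → ℕ) (y0 : V → X) (u v : Cone Y R) : Set (Cone Y R) :=
  {w | w = u ∨ w = v ∨ (∃ p, Shallow d y0 u v p ∧ w = pt p) ∨
    ∃ C, 10 ≤ LC d y0 C u v ∧ (InV d y0 C u (LC d y0 C u v) w ∨ InV d y0 C v (LC d y0 C u v) w)}

section

variable {y0 : V → X}

theorem LC_symm (hd : IsGeod d) (C : V) (u v : Cone Y R) : LC d y0 C u v = LC d y0 C v u := by
  unfold LC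
  rw [hd.symm (bC d y0 C u) (bC d y0 C v), max_comm (kC C u) (kC C v)]

theorem Deep.symm (hd : IsGeod d) {C : V} {u v : Cone Y R} {p : X} (h : Deep d y0 C u v p) :
    Deep d y0 C v u p := by
  obtain ⟨h1, h2, h3, h4⟩ := h
  refine ⟨?_, h2, h4, h3⟩
  rw [hd.symm (base y0 v) p, hd.symm p (base y0 u), hd.symm (base y0 v) (base y0 u)]
  omega

theorem Shallow.symm (hd : IsGeod d) {u v : Cone Y R} {p : X} (h : Shallow d y0 u v p) :
    Shallow d y0 v u p := by
  obtain ⟨h1, h2⟩ := h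
  refine ⟨?_, fun C h3 => h2 C (h3.symm hd)⟩
  rw [hd.symm (base y0 v) p, hd.symm p (base y0 u), hd.symm (base y0 v) (base y0 u)]
  omega

theorem Ag_symm (hd : IsGeod d) (u v : Cone Y R) : Ag d y0 u v = Ag d y0 v u := by
  have key : ∀ u v : Cone Y R, Ag d y0 u v ⊆ Ag d y0 v u := by
    intro u v w hw
    rcases hw with h | h | ⟨p, hp, h⟩ | ⟨C, hC, h⟩
    · exact Or.inr (Or.inl h)
    · exact Or.inl h
    · exact Or.inr (Or.inr (Or.inl ⟨p, hp.symm hd, h⟩))
    · refine Or.inr (Or.inr (Or.inr ⟨C, ?_, ?_⟩))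
      · rwa [LC_symm hd]
      · rw [LC_symm hd C v u]
        exact h.symm
  exact Set.Subset.antisymm (key u v) (key v u)

theorem bC_mem (hF : Fam d Y 2 2) (C : V) (u : Cone Y R) : bC d y0 C u ∈ Y C :=
  proj_mem (hF.ne C) _

/-- inside the horoball the projection of the base point is the base point -/
theorem bC_eq (hd : IsGeod d) (hy0 : ∀ C, y0 C ∈ Y C) {C : V} {u : Cone Y R}
    (h : 0 < kC C u) : bC d y0 C u = base y0 u := by
  obtain ⟨hy, _⟩ := eq_col hy0 h
  exact proj_self hd hy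

theorem base_mem (hy0 : ∀ C, y0 C ∈ Y C) {C : V} {u : Cone Y R} (h : 0 < kC C u) :
    base y0 u ∈ Y C := (eq_col hy0 h).1

/-- inside the horoball, `u` is on the column over `b_C(u)` -/
theorem eq_col_bC (hd : IsGeod d) (hF : Fam d Y 2 2) (hy0 : ∀ C, y0 C ∈ Y C) {C : V}
    {u : Cone Y R} (h : 0 < kC C u) :
    u = col C (bC d y0 C u) (bC_mem hF C u) (kC C u) := by
  obtain ⟨hy, h1⟩ := eq_col hy0 h
  have h2 := bC_eq hd hy0 h
  conv_lhs => rw [h1]
  congr 1
  exact h2.symm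

/-- E5: a point whose depth is small is near the foot of the column -/
theorem near_foot (hd : IsGeod d) (hF : Fam d Y 2 2) {C : V} {u : Cone Y R} {p : X} {a : ℕ}
    (h : SC d y0 C u p < a) :
    rho d (pt p : Cone Y R) (col C (bC d y0 C u) (bC_mem hF C u) (kC C u)) ≤ a := by
  have hg := isGeod_rho (R := R) (Y := Y) hd hF.ne
  have h1 := rho_pt_pt (Y := Y) (R := R) hd p (bC d y0 C u)
  have h2 := rho_col_le (R := R) (d := d) C (bC d y0 C u) (bC_mem hF C u) (Nat.zero_le (kC C u))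
  rw [col_zero] at h2
  have h3 := hg.tri (pt p : Cone Y R) (pt (bC d y0 C u)) (col C (bC d y0 C u) (bC_mem hF C u) (kC C u))
  have h4 : kC C u < 2 ^ kC C u := Nat.lt_two_pow_self
  unfold SC at h
  omega

/-- E1 (a) for one side -/
theorem Deep.btw (hd : IsGeod d) (hh : Hyp d 2) (hF : Fam d Y 2 2) (hy0 : ∀ C, y0 C ∈ Y C)
    {C : V} {u v : Cone Y R} {p : X} (h : Deep d y0 C u v p) :
    Btw d 20 (base y0 u) (bC d y0 C u) p := by
  obtain ⟨_, ⟨q, hq, hpq⟩, h3, _⟩ := h
  rcases Nat.eq_zero_or_pos (kC C u) with h0 | h0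
  · unfold SC at h3
    rw [h0, pow_zero] at h3
    have hp := proj_le (d := d) (hF.ne C) p hq
    have t1 := hd.tri p (proj d (Y C) p) (bC d y0 C u)
    have s1 := hd.symm (bC d y0 C u) (proj d (Y C) p)
    have h4 := proj2 hd hh (hF.ne C) (hF.qc C) (base y0 u) p (by
      show 4 * 2 + 5 * 2 + 2 < 2 * d (bC d y0 C u) (proj d (Y C) p)
      omega)
    have h4' : d (base y0 u) (bC d y0 C u) + d (bC d y0 C u) (proj d (Y C) p) +
      d (proj d (Y C) p) p ≤ d (base y0 u) p + (4 * 2 + 5 * 2 + 2) := h4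
    have t2 := hd.tri (bC d y0 C u) (proj d (Y C) p) p
    unfold Btw
    omega
  · rw [bC_eq hd hy0 h0]
    unfold Btw
    rw [hd.self]
    omega

/-- E1 (b) -/
theorem Deep.btw2 (hd : IsGeod d) (hh : Hyp d 2) (hF : Fam d Y 2 2) (hy0 : ∀ C, y0 C ∈ Y C)
    {C : V} {u v : Cone Y R} {p : X} (h : Deep d y0 C u v p) :
    Btw d 40 (bC d y0 C u) p (bC d y0 C v) := by
  have h1 := h.btw hd hh hF hy0
  have h2 := (h.symm hd).btw hd hh hF hy0
  have h3 := h.1
  unfold Btw at *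
  have t1 := hd.tri (base y0 u) (bC d y0 C u) (base y0 v)
  have t2 := hd.tri (bC d y0 C u) (bC d y0 C v) (base y0 v)
  have s1 := hd.symm (base y0 v) (bC d y0 C v)
  have s2 := hd.symm (bC d y0 C v) p
  have s3 := hd.symm (base y0 v) p
  omega

/-- E1 (c) -/
theorem Deep.near (hd : IsGeod d) (hh : Hyp d 2) (hF : Fam d Y 2 2) (hy0 : ∀ C, y0 C ∈ Y C)
    {C : V} {u v : Cone Y R} {p : X} (h : Deep d y0 C u v p) : Near d (Y C) 44 p :=
  near_of_btw_qc hd hh (hF.qc C) (bC_mem hF C u) (bC_mem hF C v) (h.btw2 hd hh hF hy0)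

/-- a level bound from `LC < 10` -/
theorem of_LC_lt {C : V} {u v : Cone Y R} (h : LC d y0 C u v < 10) :
    kC C u ≤ 9 ∧ kC C v ≤ 9 ∧ d (bC d y0 C u) (bC d y0 C v) ≤ 512 := by
  unfold LC at h
  have h1 : kC C u < 10 := lt_of_le_of_lt ((le_max_left _ _).trans (le_max_left _ _)) h
  have h2 : kC C v < 10 := lt_of_le_of_lt ((le_max_right _ _).trans (le_max_left _ _)) h
  have h3 : Nat.clog 2 (d (bC d y0 C u) (bC d y0 C v)) < 10 := lt_of_le_of_lt (le_max_right _ _) h
  refine ⟨by omega, by omega, ?_⟩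
  have h4 := Nat.le_pow_clog (b := 2) (by norm_num) (d (bC d y0 C u) (bC d y0 C v))
  have h5 := Nat.pow_le_pow_right (n := 2) (by norm_num)
    (show Nat.clog 2 (d (bC d y0 C u) (bC d y0 C v)) ≤ 9 by omega)
  have h6 : (2 : ℕ) ^ 9 = 512 := by norm_num
  omega

/-- conversely, large data give `10 ≤ LC` -/
theorem ten_le_LC {C : V} {u v : Cone Y R}
    (h : 10 ≤ kC C u ∨ 10 ≤ kC C v ∨ 512 < d (bC d y0 C u) (bC d y0 C v)) :
    10 ≤ LC d y0 C u v := by
  by_contra hcon
  obtain ⟨h1, h2, h3⟩ := of_LC_lt (not_le.mp hcon)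
  omega

theorem kC_le_LC (C : V) (u v : Cone Y R) : kC C u ≤ LC d y0 C u v :=
  (le_max_left _ _).trans (le_max_left _ _)

theorem kC_le_LC' (C : V) (u v : Cone Y R) : kC C v ≤ LC d y0 C u v :=
  (le_max_right _ _).trans (le_max_left _ _)

theorem dist_le_LC (C : V) (u v : Cone Y R) :
    d (bC d y0 C u) (bC d y0 C v) ≤ 2 ^ LC d y0 C u v :=
  (Nat.le_pow_clog (by norm_num) _).trans
    (Nat.pow_le_pow_right (by norm_num) (le_max_right _ _))

/-- small levels have small powers -/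
theorem two_pow_le_512 {k : ℕ} (h : k ≤ 9) : 2 ^ k ≤ 512 := by
  have := Nat.pow_le_pow_right (n := 2) (by norm_num) h
  norm_num at this
  exact this

/-- large powers have large levels -/
theorem ten_le_of_pow {k : ℕ} (h : 512 < 2 ^ k) : 10 ≤ k := by
  by_contra hcon
  have := two_pow_le_512 (k := k) (by omega)
  omega

/-- E1 (d) -/
theorem Deep.rel (hd : IsGeod d) (hh : Hyp d 2) (hF : Fam d Y 2 2) (hy0 : ∀ C, y0 C ∈ Y C)
    {C : V} {u v : Cone Y R} {p : X} (h : Deep d y0 C u v p) : 10 ≤ LC d y0 C u v := by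
  apply ten_le_LC
  by_contra hcon
  push Not at hcon
  obtain ⟨h1, h2, h3⟩ := hcon
  have h4 := h.btw2 hd hh hF hy0
  obtain ⟨_, _, h5, h6⟩ := h
  unfold SC at h5 h6
  have h7 := two_pow_le_512 (k := kC C u) (by omega)
  have h8 := two_pow_le_512 (k := kC C v) (by omega)
  unfold Btw at h4
  have s1 := hd.symm p (bC d y0 C u)
  omega

/-- E3: at most one `C` is deep at `p` -/
theorem Deep.unique (hd : IsGeod d) (hh : Hyp d 2) (hF : Fam d Y 2 2) (hy0 : ∀ C, y0 C ∈ Y C)
    {C C' : V} {u v : Cone Y R} {p : X} (h : Deep d y0 C u v p) (h' : Deep d y0 C' u v p) :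
    C = C' := by
  by_contra hne
  have a1 := (h.symm hd).btw hd hh hF hy0
  have a2 := (h'.symm hd).btw hd hh hF hy0
  have key := overlap_lemma (M := 2) hd hh (hF.qc C) (hF.qc C') (hF.ov C C' hne)
    (bC_mem hF C v) (bC_mem hF C' v) a1 a2 (h.near hd hh hF hy0) (h'.near hd hh hF hy0)
  obtain ⟨_, _, _, b1⟩ := h
  obtain ⟨_, _, _, b2⟩ := h'
  unfold SC at b1 b2
  unfold Btw at a1 a2
  have s1 := hd.symm p (bC d y0 C v)
  have s2 := hd.symm p (bC d y0 C' v)
  have s3 := hd.symm p (base y0 v)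
  rcases Nat.eq_zero_or_pos (kC C v) with k1 | k1
  · rcases Nat.eq_zero_or_pos (kC C' v) with k2 | k2
    · rw [k1, pow_zero] at b1
      rw [k2, pow_zero] at b2
      omega
    · rw [k1, pow_zero] at b1
      have e := bC_eq (d := d) hd hy0 k2
      rw [e] at key
      omega
  · have k2 : kC C' v = 0 := by
      by_contra k2
      exact hne (kC_unique k1 (Nat.pos_of_ne_zero k2))
    rw [k2, pow_zero] at b2
    have e := bC_eq (d := d) hd hy0 k1
    rw [e] at key
    omega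

/-- E4 -/
theorem btw_of_rel (hd : IsGeod d) (hh : Hyp d 2) (hF : Fam d Y 2 2) (hy0 : ∀ C, y0 C ∈ Y C)
    {C : V} {u v : Cone Y R} (h : 10 ≤ LC d y0 C u v) (hk : kC C u = 0) :
    Btw d 20 (base y0 u) (bC d y0 C u) (base y0 v) := by
  rcases lt_or_ge (4 * 2 + 5 * 2 + 2) (2 * d (bC d y0 C u) (bC d y0 C v)) with h1 | h1
  · exact proj4 hd hh (hF.ne C) (hF.qc C) (base y0 u) (base y0 v) h1
  · have hv : 0 < kC C v := by
      by_contra hv
      have hv0 : kC C v = 0 := by omega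
      have : LC d y0 C u v < 10 := by
        unfold LC
        rw [hk, hv0]
        have h2 : Nat.clog 2 (d (bC d y0 C u) (bC d y0 C v)) ≤ 9 :=
          Nat.clog_le_of_le_pow (by norm_num; omega)
        simp only [max_self]
        omega
      omega
    have e := bC_eq (d := d) hd hy0 hv
    have hm := base_mem hy0 hv
    have h3 := proj_le (d := d) (hF.ne C) (base y0 u) hm
    rw [e] at h1
    unfold Btw
    have : d (base y0 u) (bC d y0 C u) ≤ d (base y0 u) (base y0 v) := h3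
    omega

end

end Cone

end Burn
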