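import Pool.Agent.W_MP_3ab0ed_burn.Bowditch
import Pool.Agent.W_MP_3ab0ed_burn.Chain
import Pool.Agent.W_MP_3ab0ed_burn.Adj

/-!
The cone-off at scale one is hyperbolic with a constant independent of the depth `R`;
exit germs; comparison of geodesics.
-/

namespace Burn

namespace Cone

variable {X V : Type*} {Y : V → Set X} {R : ℕ} {d : X → X → ℕ} {y0 : V → X}

theorem ex_const (n : ℕ) : ∃ m, m = n := ⟨n, rfl⟩

/-- guess sets are close to geodesics (hidden from the kernel by `choose`) -/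
noncomputable def t0 : ℕ := (ex_const (Bow.T0 5154)).choose

/-- geodesics are close to guess sets -/
noncomputable def t1 : ℕ := (ex_const (Bow.T1 5154)).choose

/-- the universal hyperbolicity constant of all cone-offs -/
noncomputable def dX : ℕ := (ex_const (Bow.Dl 5154)).choose

theorem t0_eq : t0 = Bow.T0 5154 := (ex_const (Bow.T0 5154)).choose_spec

theorem t1_eq : t1 = Bow.T1 5154 := (ex_const (Bow.T1 5154)).choose_spec

theorem dX_eq : dX = Bow.Dl 5154 := (ex_const (Bow.Dl 5154)).choose_spec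

theorem guess (hd : IsGeod d) (hh : Hyp d 2) (hF : Fam d Y 2 2) (hy0 : ∀ C, y0 C ∈ Y C) :
    Bow.Guess (rho d : Cone Y R → Cone Y R → ℕ) (Ag d y0) 5154 where
  left _ _ := Or.inl rfl
  right _ _ := Or.inr (Or.inl rfl)
  chain u v := chain hd hh hF hy0 u v
  thin u v w a ha := thin hd hh hF hy0 u v w a ha
  adj u v a h ha := adj hd hh hF hy0 u v a h ha

/-- MAIN THEOREM of P2: the cone-off is hyperbolic with a universal constant. -/
theorem hyp_cone (hd : IsGeod d) (hh : Hyp d 2) (hF : Fam d Y 2 2) :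
    Hyp (rho d : Cone Y R → Cone Y R → ℕ) dX := by
  have hy0 : ∀ C, (fun C => (hF.ne C).some) C ∈ Y C := fun C => (hF.ne C).some_mem
  rw [dX_eq]
  exact Bow.hyp (isGeod_rho hd hF.ne) (guess hd hh hF hy0)

theorem near_Ag (hd : IsGeod d) (hh : Hyp d 2) (hF : Fam d Y 2 2) (hy0 : ∀ C, y0 C ∈ Y C)
    {u v w : Cone Y R} (hw : rho d u w + rho d w v = rho d u v) :
    ∃ a ∈ Ag d y0 u v, rho d w a ≤ t1 := by
  obtain ⟨g, g0, gw, gv, hg⟩ := exists_geodSeq_through (isGeod_rho hd hF.ne) hw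
  have := Bow.near_guess (isGeod_rho hd hF.ne) (guess hd hh hF hy0) hg
    (j := rho d u w) (by omega)
  rw [g0, gv, gw, ← t1_eq] at this
  exact this

theorem Ag_near (hd : IsGeod d) (hh : Hyp d 2) (hF : Fam d Y 2 2) (hy0 : ∀ C, y0 C ∈ Y C)
    {u v a : Cone Y R} (ha : a ∈ Ag d y0 u v) {g : ℕ → Cone Y R} {m : ℕ}
    (hg : GeodSeq (rho d) g m) (g0 : g 0 = u) (gm : g m = v) :
    ∃ i, i ≤ m ∧ rho d a (g i) ≤ t0 := by
  subst g0
  subst gm
  rw [t0_eq]
  exact Bow.guess_near (isGeod_rho hd hF.ne) (guess hd hh hF hy0) hg ha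

/-- the exit constant -/
noncomputable def c6 : ℕ := t1 * 2 ^ (2 * t1 + 1)

/-- 8.1: exit germs: a geodesic from an outside vertex `u` to the apex `C` enters the horoball
near the projection of the base of `u`. -/
theorem exit_germ (hd : IsGeod d) (hh : Hyp d 2) (hF : Fam d Y 2 2) (hy0 : ∀ C, y0 C ∈ Y C)
    (hR : 2 * t1 + 2 ≤ R) {C : V} {u : Cone Y R} (hu : kC C u = 0) {y : X} (hy : y ∈ Y C)
    (hyI : rho d (apex C) (pt y : Cone Y R) + rho d (pt y) u = rho d (apex C) u) :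
    d y (bC d y0 C u) ≤ c6 := by
  have hg := isGeod_rho (R := R) (Y := Y) hd hF.ne
  have hw : rho d (apex C) (col C y hy (t1 + 1) : Cone Y R) +
      rho d (col C y hy (t1 + 1)) u = rho d (apex C) u := by
    have e1 := apex_col (R := R) (d := d) hd hF.ne hy (show t1 + 1 ≤ R + 1 by omega)
    have e2 := apex_pt (R := R) (d := d) hd hF.ne hy
    have e3 := rho_col_le (R := R) (d := d) C y hy (Nat.zero_le (t1 + 1))
    rw [col_zero, hg.symm] at e3
    have t := hg.tri (col C y hy (t1 + 1)) (pt y) u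
    have t' := hg.tri (apex C) (col C y hy (t1 + 1)) u
    omega
  obtain ⟨a, ha, hwa⟩ := near_Ag hd hh hF hy0 hw
  have k0 := kC_col_self (R := R) C y hy (t1 + 1)
  have k1 := kC_lip (R := R) (d := d) hd hF.ne C (col C y hy (t1 + 1)) a
  have k2 := kC_lip (R := R) (d := d) hd hF.ne C a (col C y hy (t1 + 1))
  rw [hg.symm] at k2
  have hpos : 0 < kC C a := by omega
  have hlt : kC C a ≤ 2 * t1 + 1 := by omega
  have bad : a ≠ apex C := by
    intro h
    rw [h, kC_apex_self] at hlt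
    omega
  rcases ha with h | h | ⟨p, _, h⟩ | ⟨C', _, ⟨j, hy', hj1, _, h⟩ | ⟨j, hy', hj1, _, h⟩⟩
  · exact absurd h bad
  · rw [h, hu] at hpos
    omega
  · rw [h, kC_pt] at hpos
    omega
  · have hC : C' = C := by
      by_contra hne
      rw [h, kC_col_ne hne] at hpos
      omega
    subst hC
    rw [kC_apex_self] at hj1
    rw [col_top C' _ hy' (by omega)] at h
    exact absurd h bad
  · have hC : C' = C := by
      by_contra hne
      rw [h, kC_col_ne hne] at hpos
      omega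
    subst hC
    have hja : kC C' a = min j (R + 1) := by rw [h, kC_col_self]
    have hj : j ≤ 2 * t1 + 1 := by omega
    have l1 := lev_col (R := R) C' y hy (t1 + 1)
    have l2 : lev a = min j (R + 1) := by rw [h, lev_col]
    have hb := base_le (R := R) (d := d) hd hF.ne y0 (m := 2 * t1 + 1) (by omega)
      (u := col C' y hy (t1 + 1)) (v := a) (by omega)
    rw [base_col y0 C' y hy (by omega)] at hb
    have hba : base y0 a = bC d y0 C' u := by
      rw [h, base_col y0 C' _ hy' (by omega)]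
    rw [hba] at hb
    exact hb.trans (Nat.mul_le_mul_right _ hwa)

/-- 8.2: points of geodesics of `X` are near geodesics of the cone-off, or deep. -/
theorem near_or_deep (hd : IsGeod d) (hh : Hyp d 2) (hF : Fam d Y 2 2) (hy0 : ∀ C, y0 C ∈ Y C)
    {x x' p : X} (hp : d x p + d p x' = d x x') {g : ℕ → Cone Y R} {m : ℕ}
    (hg : GeodSeq (rho d) g m) (g0 : g 0 = pt x) (gm : g m = pt x') :
    (∃ i, i ≤ m ∧ rho d (pt p) (g i) ≤ t0) ∨
      ∃ C, Deep d y0 C (pt x : Cone Y R) (pt x') p := by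
  by_cases h : ∃ C, Deep d y0 C (pt x : Cone Y R) (pt x') p
  · exact Or.inr h
  · left
    push Not at h
    have hmem : (pt p : Cone Y R) ∈ Ag d y0 (pt x) (pt x') :=
      Or.inr (Or.inr (Or.inl ⟨p, ⟨hp, h⟩, rfl⟩))
    exact Ag_near hd hh hF hy0 hmem hg g0 gm

/-- a deep point, unfolded for points of `X` -/
theorem deep_pt (hd : IsGeod d) (hh : Hyp d 2) (hF : Fam d Y 2 2) (hy0 : ∀ C, y0 C ∈ Y C)
    {x x' p : X} {C : V} (h : Deep d y0 C (pt x : Cone Y R) (pt x') p) :
    d x p + d p x' = d x x' ∧ Near d (Y C) 44 p ∧ 1535 ≤ d p (proj d (Y C) x) ∧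
      1535 ≤ d p (proj d (Y C) x') ∧ Btw d 20 x (proj d (Y C) x) p ∧
      Btw d 20 x' (proj d (Y C) x') p := by
  refine ⟨h.1, h.near hd hh hF hy0, ?_, ?_, h.btw hd hh hF hy0, (h.symm hd).btw hd hh hF hy0⟩
  · have h1 : 1536 ≤ 2 ^ 0 + d p (proj d (Y C) x) := h.2.2.1
    rw [pow_zero] at h1
    omega
  · have h1 : 1536 ≤ 2 ^ 0 + d p (proj d (Y C) x') := h.2.2.2
    rw [pow_zero] at h1
    omega

/-- 8.3: points of geodesics of the cone-off between points of `X` -/
theorem near_base (hd : IsGeod d) (hh : Hyp d 2) (hF : Fam d Y 2 2)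
    {x x' : X} {w : Cone Y R}
    (hw : rho d (pt x) w + rho d w (pt x') = rho d (pt x : Cone Y R) (pt x')) :
    (∃ p, d x p + d p x' = d x x' ∧ rho d w (pt p) ≤ t1) ∨
      ∃ (C : V) (j : ℕ), 512 < d (proj d (Y C) x) (proj d (Y C) x') ∧
        j ≤ Nat.clog 2 (d (proj d (Y C) x) (proj d (Y C) x')) ∧
        ((∃ hy : proj d (Y C) x ∈ Y C, rho d w (col C (proj d (Y C) x) hy j) ≤ t1) ∨
          (∃ hy : proj d (Y C) x' ∈ Y C, rho d w (col C (proj d (Y C) x') hy j) ≤ t1)) := by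
  have hy0 : ∀ C, (fun C => (hF.ne C).some) C ∈ Y C := fun C => (hF.ne C).some_mem
  obtain ⟨a, ha, hwa⟩ := near_Ag hd hh hF hy0 hw
  rcases ha with h | h | ⟨p, hp, h⟩ | ⟨C, hC, h⟩
  · left
    refine ⟨x, by rw [hd.self]; omega, ?_⟩
    rw [← h]; exact hwa
  · left
    refine ⟨x', by rw [hd.self]; omega, ?_⟩
    rw [← h]; exact hwa
  · left
    exact ⟨p, hp.1, by rw [← h]; exact hwa⟩
  · right
    have hLC : LC d (fun C => (hF.ne C).some) C (pt x : Cone Y R) (pt x') =
      max (max 0 0) (Nat.clog 2 (d (proj d (Y C) x) (proj d (Y C) x'))) := rfl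
    have hLC' : LC d (fun C => (hF.ne C).some) C (pt x : Cone Y R) (pt x') =
      Nat.clog 2 (d (proj d (Y C) x) (proj d (Y C) x')) := by
      rw [hLC]; simp
    rw [hLC'] at hC h
    have hbig : 512 < d (proj d (Y C) x) (proj d (Y C) x') := by
      by_contra hcon
      have : Nat.clog 2 (d (proj d (Y C) x) (proj d (Y C) x')) ≤ 9 :=
        Nat.clog_le_of_le_pow (by norm_num; omega)
      omega
    rcases h with ⟨j, hy, _, hj, h⟩ | ⟨j, hy, _, hj, h⟩
    · exact ⟨C, j, hbig, hj, Or.inl ⟨hy, by rw [h] at hwa; exact hwa⟩⟩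
    · exact ⟨C, j, hbig, hj, Or.inr ⟨hy, by rw [h] at hwa; exact hwa⟩⟩

end Cone

end Burn
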