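import Pool.Agent.W_MP_3ab0ed_burn.P3Free
import Pool.Agent.W_MP_3ab0ed_h43.Apex

/-!
Burnside part, piece P3, file 8: adapter from the rotation family to `ApexFree`.
-/

namespace Burn

namespace RotFam

section

variable {G Z Γ : Type*} [Group G] [MulAction G Z] [MulAction G Γ]
  {ρ : Z → Z → ℕ} {δ S Th T : ℕ}

/-- the action on the apices -/
@[reducible] def vAct (F : RotFam G Z Γ ρ δ S Th T) : MulAction G F.V where
  smul g v := ⟨g • v.1, F.V_smul g v.1 v.2⟩
  one_smul v := Subtype.ext (one_smul G v.1)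
  mul_smul a b v := Subtype.ext (mul_smul a b v.1)

end

open W3ab0ed.Rel in
/-- The rotation family of the `p`-th powers of the generators of the stabilizers gives
the structure `ApexFree`; the group `rotK` is the whole rotation group. -/
theorem toApexFree {κ : Type} {N : Subgroup (FreeGroup κ)} [hN : N.Normal] {Z Γ : Type}
    [MulAction (FreeGroup κ ⧸ N) Z] [MulAction (FreeGroup κ ⧸ N) Γ]
    {ρ : Z → Z → ℕ} {δ S Th T : ℕ} (F : RotFam (FreeGroup κ ⧸ N) Z Γ ρ δ S Th T)
    (c : Z → FreeGroup κ ⧸ N) (p : ℕ) (hp : p ≠ 0)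
    (hst : ∀ v ∈ F.V, ∀ g : FreeGroup κ ⧸ N, g • v = v ↔ g ∈ Subgroup.zpowers (c v))
    (hc : ∀ v ∈ F.V, ∀ g : FreeGroup κ ⧸ N, c (g • v) = g * c v * g⁻¹)
    (hH : ∀ v ∈ F.V, F.H v = Subgroup.zpowers (c v ^ p))
    (hinf : ∀ v ∈ F.V, ∀ m : ℤ, c v ^ m = 1 → m = 0) :
    letI := F.vAct
    ApexFree (N := N) (fun v : F.V => c v.1) p ∧
      rotK (N := N) (fun v : F.V => c v.1) p = KA F := by
  letI := F.vAct
  have hK : rotK (N := N) (fun v : F.V => c v.1) p = KA F := by
    apply le_antisymm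
    · rw [rotK, Subgroup.closure_le]
      rintro g ⟨v, rfl⟩
      apply H_le_KA v.2
      rw [hH v.1 v.2]
      exact Subgroup.mem_zpowers _
    · rw [KA, Subgroup.closure_le]
      rintro g ⟨v, hv, hg⟩
      rw [hH v hv] at hg
      have : Subgroup.zpowers (c v ^ p) ≤ rotK (N := N) (fun v : F.V => c v.1) p := by
        rw [Subgroup.zpowers_le]
        exact Subgroup.subset_closure ⟨⟨v, hv⟩, rfl⟩
      exact this hg
  refine ⟨⟨?_, ?_, ?_⟩, hK⟩
  · intro v
    ext g
    rw [MulAction.mem_stabilizer_iff, ← hst v.1 v.2 g]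
    exact Subtype.ext_iff
  · intro g v
    exact hc v.1 v.2 g
  · obtain ⟨Tr, hTr, h1, h2, h3⟩ := exists_transversal (F := F) (fun v => c v ^ p) hH
      (by
        intro v hv m hm
        rw [← zpow_natCast, ← zpow_mul] at hm
        have := hinf v hv _ hm
        have hp' : (p : ℤ) ≠ 0 := by exact_mod_cast hp
        exact (mul_eq_zero.1 this).resolve_left hp')
      (by
        intro v hv g
        change c (g • v) ^ p = g * c v ^ p * g⁻¹
        rw [hc v hv g, conj_pow])
    refine ⟨{t | t.1 ∈ Tr}, ?_, ?_, ?_⟩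
    · intro v
      obtain ⟨t, ⟨ht, k, hk, hkt⟩, huq⟩ := h1 v.1 v.2
      refine ⟨⟨t, hTr ht⟩, ⟨ht, k, by rw [hK]; exact hk, Subtype.ext hkt⟩, ?_⟩
      rintro ⟨t', ht'V⟩ ⟨ht', k', hk', hkt'⟩
      apply Subtype.ext
      exact huq t' ⟨ht', k', by rw [← hK]; exact hk', congrArg Subtype.val hkt'⟩
    · let e : {t : F.V | t.1 ∈ Tr} → Tr := fun t => ⟨t.1.1, t.2⟩
      have he : Function.Injective e := by
        intro a b hab
        have h4 : (e a).1 = (e b).1 := congrArg Subtype.val hab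
        exact Subtype.ext (Subtype.ext h4)
      have hcomp : FreeGroup.lift (fun t : {t : F.V | t.1 ∈ Tr} => c t.1.1 ^ p) =
          (FreeGroup.lift (fun t : Tr => c t ^ p)).comp (FreeGroup.map e) := by
        ext t
        simp [e]
      rw [hcomp, MonoidHom.coe_comp]
      exact h2.comp (FreeGroup.map_injective he)
    · rw [hK, ← h3]
      congr 1
      ext g
      constructor
      · rintro ⟨v, hv, rfl⟩
        exact ⟨v.1, hv, rfl⟩
      · rintro ⟨v, hv, rfl⟩
        exact ⟨⟨v, hTr hv⟩, hv, rfl⟩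

end RotFam

end Burn
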