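import Pool.Agent.W_MP_3ab0ed_burn.P3Mill

/-!
Burnside part, piece P3, file 3: chains of rotations.
-/

namespace Burn

namespace RotFam

variable {G Z Γ : Type*} [Group G] [MulAction G Z] [MulAction G Γ]
  {ρ : Z → Z → ℕ} {δ S Th T : ℕ} (F : RotFam G Z Γ ρ δ S Th T)

/-- `Ch W c y` : `y` is reached from `W1` by a reduced chain of rotations about apices
of `C1 W`, the first one being about `c`. -/
inductive Ch (W : Set Z) : Z → Z → Prop
  | base (c : Z) (η : G) (v : Z) : c ∈ F.C1 W → η ∈ F.H c → η ≠ 1 → v ∈ F.W1 W → v ≠ c →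
      Ch W c (η • v)
  | step (c c' : Z) (η : G) (y : Z) : c ∈ F.C1 W → η ∈ F.H c → η ≠ 1 → c' ≠ c →
      Ch W c' y → Ch W c (η • y)

/-- the same for group elements -/
inductive ChE (W : Set Z) : Z → G → Prop
  | base (c : Z) (η κ : G) : c ∈ F.C1 W → η ∈ F.H c → η ≠ 1 → κ ∈ F.KK W → ChE W c (η * κ)
  | step (c c' : Z) (η k : G) : c ∈ F.C1 W → η ∈ F.H c → η ≠ 1 → c' ≠ c →
      ChE W c' k → ChE W c (η * k)

variable {F}

theorem Ch.mem_C1 {W : Set Z} {c y : Z} (h : F.Ch W c y) : c ∈ F.C1 W := by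
  cases h <;> assumption

theorem ChE.mem_C1 {W : Set Z} {c : Z} {k : G} (h : F.ChE W c k) : c ∈ F.C1 W := by
  cases h <;> assumption

theorem C1.V {W : Set Z} {c : Z} (h : c ∈ F.C1 W) : c ∈ F.V := h.1

theorem C1.notW {W : Set Z} {c : Z} (h : c ∈ F.C1 W) : c ∉ W := h.2.1

theorem C1.W1 {W : Set Z} {c : Z} (h : c ∈ F.C1 W) : c ∈ F.W1 W := Or.inr h

/-- `K_W` preserves `C1`. -/
theorem Mill.C1_smul {W : Set Z} (hW : F.Mill W) {g : G} (hg : g ∈ F.KK W) {c : Z}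
    (hc : c ∈ F.C1 W) : g • c ∈ F.C1 W := by
  obtain ⟨h1, h2, w, hw, h3⟩ := hc
  refine ⟨F.V_smul g c h1, fun h => h2 ((hW.KK_smul hg c).1 h), g • w,
    (hW.KK_smul hg w).2 hw, ?_⟩
  rw [F.inv]; exact h3

theorem Mill.W1_smul {W : Set Z} (hW : F.Mill W) {g : G} (hg : g ∈ F.KK W) {u : Z}
    (hu : u ∈ F.W1 W) : g • u ∈ F.W1 W := by
  rcases hu with hu | hu
  · exact Or.inl ((hW.KK_smul hg u).2 hu)
  · exact Or.inr (hW.C1_smul hg hu)

/-- key step. If `y' ≠ c` and all germs of `y'` at `c` are close to the germs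
of all points of `W1`, then a rotation about `c` makes everything pass through `c`. -/
theorem pass_of_small {W : Set Z} {c : Z} (hc : c ∈ F.C1 W) {η : G} (hη : η ∈ F.H c)
    (hη1 : η ≠ 1) {u y' : Z} (huc : u ≠ c) (hy'c : y' ≠ c)
    (hsm : ∀ a ∈ F.germ c u, ∀ b ∈ F.germ c y', F.dG a b < Th) :
    Pass ρ u c (η • y') ∧ η • y' ≠ c := by
  have hcV := C1.V hc
  have hfix := F.H_fix c hcV η hη
  have hne : η • y' ≠ c := by
    intro h
    apply hy'c
    have h2 : η • y' = η • c := by rw [h, hfix]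
    exact (MulAction.injective η) h2
  refine ⟨?_, hne⟩
  obtain ⟨a, ha⟩ := F.germ_ne c hcV u huc
  obtain ⟨b, hb⟩ := F.germ_ne c hcV y' hy'c
  have hb' : η • b ∈ F.germ c (η • y') := by
    have := F.germ_smul c hcV y' hy'c η b hb
    rwa [hfix] at this
  apply F.passing c hcV u huc (η • y') hne a ha (η • b) hb'
  have h1 := hsm a ha b hb
  have h2 := F.rot c hcV η hη hη1 y' hy'c b hb
  have h3 := F.dG_tri b a (η • b)
  rw [F.dG_symm b a] at h3
  have := F.hT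
  omega

/-- 3.1 -/
theorem Ch.pass {W : Set Z} (hW : F.Mill W) {c y : Z} (h : F.Ch W c y) :
    y ≠ c ∧ ∀ u ∈ F.W1 W, u ≠ c → Pass ρ u c y := by
  induction h with
  | base c η v hc hη hη1 hv hvc =>
    have key : ∀ u ∈ F.W1 W, u ≠ c → Pass ρ u c (η • v) ∧ η • v ≠ c := by
      intro u hu huc
      apply pass_of_small hc hη hη1 huc hvc
      intro a ha b hb
      exact small_angle hW (C1.V hc) (C1.notW hc) hu hv huc hvc ha hb
    obtain ⟨w, hw⟩ := hW.ne
    have hwc : w ≠ c := fun h => C1.notW hc (h ▸ hw)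
    exact ⟨(key w (Or.inl hw) hwc).2, fun u hu huc => (key u hu huc).1⟩
  | step c c' η y hc hη hη1 hc'c hCh ih =>
    have hc' := hCh.mem_C1
    have hp := ih.2 c (C1.W1 hc) hc'c.symm
    have hyc : y ≠ c := by
      intro h
      have h1 := hp.1
      rw [h, F.geo.self] at h1
      have h2 := F.geo.pos_of_ne hc'c
      have h3 := F.geo.symm c c'
      omega
    have hg := F.exactness c (C1.V hc) c' (C1.V hc') hc'c.symm y hp
    have key : ∀ u ∈ F.W1 W, u ≠ c → Pass ρ u c (η • y) ∧ η • y ≠ c := by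
      intro u hu huc
      apply pass_of_small hc hη hη1 huc hyc
      intro a ha b hb
      rw [hg] at hb
      exact small_angle hW (C1.V hc) (C1.notW hc) hu (C1.W1 hc') huc hc'c ha hb
    obtain ⟨w, hw⟩ := hW.ne
    have hwc : w ≠ c := fun h => C1.notW hc (h ▸ hw)
    exact ⟨(key w (Or.inl hw) hwc).2, fun u hu huc => (key u hu huc).1⟩

/-- 3.2 -/
theorem Ch.not_W1 {W : Set Z} (hW : F.Mill W) {c y : Z} (h : F.Ch W c y) : y ∉ F.W1 W := by
  intro hy
  have hc := h.mem_C1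
  obtain ⟨h1, h2⟩ := h.pass hW
  obtain ⟨w, hw⟩ := hW.ne
  have hwc : w ≠ c := fun h => C1.notW hc (h ▸ hw)
  exact not_between hW (C1.V hc) (C1.notW hc) (Or.inl hw) hy hwc h1 (h2 w (Or.inl hw) hwc).1

theorem Ch.unique {W : Set Z} (hW : F.Mill W) {c c' y : Z} (h : F.Ch W c y)
    (h' : F.Ch W c' y) : c = c' := by
  by_contra hne
  have hc := h.mem_C1
  have hc' := h'.mem_C1
  obtain ⟨w, hw⟩ := hW.ne
  have hwc : w ≠ c := fun h => C1.notW hc (h ▸ hw)
  have hwc' : w ≠ c' := fun h => C1.notW hc' (h ▸ hw)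
  have p1 := (h.pass hW).2 w (Or.inl hw) hwc
  have p2 := (h'.pass hW).2 w (Or.inl hw) hwc'
  rcases p1.split F.geo p2.1 with h3 | h3
  · exact not_between hW (C1.V hc') (C1.notW hc') (Or.inl hw) (C1.W1 hc) hwc' hne h3
  · have p11 := p1.1
    have p21 := p2.1
    exact not_between hW (C1.V hc) (C1.notW hc) (Or.inl hw) (C1.W1 hc') hwc (Ne.symm hne)
      (by omega)

/-- the saturation of `W1` under the next group -/
def A (F : RotFam G Z Γ ρ δ S Th T) (W : Set Z) : Set Z :=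
  {x | ∃ k ∈ F.KK (F.W1 W), ∃ u ∈ F.W1 W, x = k • u}

theorem W1_sub_A (W : Set Z) : F.W1 W ⊆ A F W :=
  fun u hu => ⟨1, Subgroup.one_mem _, u, hu, by rw [one_smul]⟩

theorem A_smul {W : Set Z} {k : G} (hk : k ∈ F.KK (F.W1 W)) {x : Z} (hx : x ∈ A F W) :
    k • x ∈ A F W := by
  obtain ⟨k', hk', u, hu, rfl⟩ := hx
  exact ⟨k * k', Subgroup.mul_mem _ hk hk', u, hu, by rw [mul_smul]⟩

theorem KK_le_W1 (W : Set Z) : F.KK W ≤ F.KK (F.W1 W) := F.KK_mono (fun _ h => Or.inl h)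

theorem H_le_KK_W1 {W : Set Z} {c : Z} (hc : c ∈ F.C1 W) : F.H c ≤ F.KK (F.W1 W) :=
  F.H_le_KK (C1.V hc) (C1.W1 hc)

/-- 3.3 -/
theorem Ch.qc {W : Set Z} (hW : F.Mill W) {c y : Z} (h : F.Ch W c y) :
    ∀ u ∈ F.W1 W, ∀ p, ρ u p + ρ p y = ρ u y → ∃ a ∈ A F W, ρ p a ≤ 8 * δ := by
  -- it suffices to treat the part beyond `c`
  have red : ∀ c y, F.Ch W c y →
      (∀ p, ρ c p + ρ p y = ρ c y → ∃ a ∈ A F W, ρ p a ≤ 8 * δ) →
      ∀ u ∈ F.W1 W, ∀ p, ρ u p + ρ p y = ρ u y → ∃ a ∈ A F W, ρ p a ≤ 8 * δ := by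
    intro c y h hq u hu p hp
    by_cases huc : u = c
    · subst huc; exact hq p hp
    · have hpass := (h.pass hW).2 u hu huc
      rcases hpass.split F.geo hp with h1 | h1
      · obtain ⟨a, ha, ha1⟩ := W1_qc hW hu (C1.W1 h.mem_C1) h1
        exact ⟨a, W1_sub_A W ha, ha1⟩
      · exact hq p h1
  have main : ∀ p, ρ c p + ρ p y = ρ c y → ∃ a ∈ A F W, ρ p a ≤ 8 * δ := by
    induction h with
    | base c η v hc hη hη1 hv hvc =>
      intro p hp
      have hfix := F.H_fix c (C1.V hc) η hη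
      have e1 : ρ c (η⁻¹ • p) = ρ c p := by
        rw [← F.inv η, smul_inv_smul, hfix]
      have e2 : ρ (η⁻¹ • p) v = ρ p (η • v) := by
        rw [← F.inv η, smul_inv_smul]
      have e3 : ρ c v = ρ c (η • v) := by
        rw [← F.inv η, hfix]
      obtain ⟨a, ha, ha1⟩ := W1_qc hW (C1.W1 hc) hv (p := η⁻¹ • p) (by omega)
      refine ⟨η • a, A_smul (H_le_KK_W1 hc hη) (W1_sub_A W ha), ?_⟩
      rw [← F.inv η, smul_inv_smul] at ha1
      exact ha1
    | step c c' η y hc hη hη1 hc'c hCh ih =>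
      intro p hp
      have hfix := F.H_fix c (C1.V hc) η hη
      have e1 : ρ c (η⁻¹ • p) = ρ c p := by
        rw [← F.inv η, smul_inv_smul, hfix]
      have e2 : ρ (η⁻¹ • p) y = ρ p (η • y) := by
        rw [← F.inv η, smul_inv_smul]
      have e3 : ρ c y = ρ c (η • y) := by
        rw [← F.inv η, hfix]
      obtain ⟨a, ha, ha1⟩ := red c' y hCh ih c (C1.W1 hc) (η⁻¹ • p) (by omega)
      refine ⟨η • a, A_smul (H_le_KK_W1 hc hη) ha, ?_⟩
      rw [← F.inv η, smul_inv_smul] at ha1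
      exact ha1
  exact red c y h main

/-- conjugating a chain by `K_W` -/
theorem ChE.left_mul {W : Set Z} (hW : F.Mill W) {c : Z} {k : G} (h : F.ChE W c k) :
    ∀ g ∈ F.KK W, F.ChE W (g • c) (g * k) := by
  induction h with
  | base c η κ hc hη hη1 hκ =>
    intro g hg
    have e : g * (η * κ) = (g * η * g⁻¹) * (g * κ) := by group
    rw [e]
    apply ChE.base _ _ _ (hW.C1_smul hg hc) (F.H_conj c (C1.V hc) g η hη)
    · intro h
      apply hη1
      have := congrArg (fun x => g⁻¹ * x * g) h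
      simpa [mul_assoc] using this
    · exact Subgroup.mul_mem _ hg hκ
  | step c c' η k hc hη hη1 hc'c hCh ih =>
    intro g hg
    have e : g * (η * k) = (g * η * g⁻¹) * (g * k) := by group
    rw [e]
    apply ChE.step _ (g • c') _ _ (hW.C1_smul hg hc) (F.H_conj c (C1.V hc) g η hη)
    · intro h
      apply hη1
      have := congrArg (fun x => g⁻¹ * x * g) h
      simpa [mul_assoc] using this
    · intro h
      exact hc'c (MulAction.injective g h)
    · exact ih g hg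

theorem ChE.rot_mul {W : Set Z} {c : Z} (hc : c ∈ F.C1 W) {η : G} (hη : η ∈ F.H c) {k : G}
    (h : k ∈ F.KK W ∨ ∃ c, F.ChE W c k) : η * k ∈ F.KK W ∨ ∃ c, F.ChE W c (η * k) := by
  by_cases hη1 : η = 1
  · subst hη1; rw [one_mul]; exact h
  rcases h with h | ⟨c', h⟩
  · exact Or.inr ⟨c, ChE.base c η k hc hη hη1 h⟩
  · by_cases hcc : c' = c
    · subst hcc
      cases h with
      | base _ η' κ _ hη' hη1' hκ =>
        rw [← mul_assoc]
        by_cases h1 : η * η' = 1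
        · rw [h1, one_mul]; exact Or.inl hκ
        · exact Or.inr ⟨c', ChE.base c' _ κ hc ((F.H c').mul_mem hη hη') h1 hκ⟩
      | step _ c'' η' k' _ hη' hη1' hc'' hCh =>
        rw [← mul_assoc]
        by_cases h1 : η * η' = 1
        · rw [h1, one_mul]; exact Or.inr ⟨c'', hCh⟩
        · exact Or.inr ⟨c', ChE.step c' c'' _ k' hc ((F.H c').mul_mem hη hη') h1 hc'' hCh⟩
    · exact Or.inr ⟨c, ChE.step c c' η k hc hη hη1 hcc h⟩

/-- 3.4 -/
theorem mem_KK_W1 {W : Set Z} (hW : F.Mill W) {k : G} (hk : k ∈ F.KK (F.W1 W)) :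
    k ∈ F.KK W ∨ ∃ c, F.ChE W c k := by
  have gen : ∀ g : G, (∃ c, c ∈ F.V ∧ c ∈ F.W1 W ∧ g ∈ F.H c) → ∀ k : G,
      (k ∈ F.KK W ∨ ∃ c, F.ChE W c k) → (g * k ∈ F.KK W ∨ ∃ c, F.ChE W c (g * k)) := by
    rintro g ⟨c, hcV, hc, hg⟩ k h
    rcases hc with hc | hc
    · have hgK : g ∈ F.KK W := F.H_le_KK hcV hc hg
      rcases h with h | ⟨c', h⟩
      · exact Or.inl (Subgroup.mul_mem _ hgK h)
      · exact Or.inr ⟨_, h.left_mul hW g hgK⟩
    · exact ChE.rot_mul hc hg h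
  induction hk using Subgroup.closure_induction_left with
  | one => exact Or.inl (Subgroup.one_mem _)
  | mul_left x hx y _ ih => exact gen x hx y ih
  | inv_mul_cancel x hx y _ ih =>
    obtain ⟨c, hcV, hc, hg⟩ := hx
    exact gen x⁻¹ ⟨c, hcV, hc, (F.H c).inv_mem hg⟩ y ih

/-- 3.5 -/
theorem ChE.smul {W : Set Z} (hW : F.Mill W) {c : Z} {k : G} (h : F.ChE W c k) :
    ∀ v ∈ F.W1 W, k • v ∈ F.W1 W ∨ F.Ch W c (k • v) := by
  induction h with
  | base c η κ hc hη hη1 hκ =>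
    intro v hv
    rw [mul_smul]
    have hv' := hW.W1_smul hκ hv
    by_cases h : κ • v = c
    · left; rw [h, F.H_fix c (C1.V hc) η hη]; exact C1.W1 hc
    · right; exact Ch.base c η _ hc hη hη1 hv' h
  | step c c' η k hc hη hη1 hc'c hCh ih =>
    intro v hv
    rw [mul_smul]
    rcases ih v hv with h1 | h1
    · by_cases h : k • v = c
      · left; rw [h, F.H_fix c (C1.V hc) η hη]; exact C1.W1 hc
      · right; exact Ch.base c η _ hc hη hη1 h1 h
    · right; exact Ch.step c c' η _ hc hη hη1 hc'c h1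

theorem ChE.smul_W {W : Set Z} (hW : F.Mill W) {c : Z} {k : G} (h : F.ChE W c k) :
    ∀ v ∈ W, F.Ch W c (k • v) := by
  induction h with
  | base c η κ hc hη hη1 hκ =>
    intro v hv
    rw [mul_smul]
    have hv' := (hW.KK_smul hκ v).2 hv
    exact Ch.base c η _ hc hη hη1 (Or.inl hv') (fun h => C1.notW hc (h ▸ hv'))
  | step c c' η k hc hη hη1 hc'c hCh ih =>
    intro v hv
    rw [mul_smul]
    exact Ch.step c c' η _ hc hη hη1 hc'c (ih v hv)

theorem mem_A {W : Set Z} (hW : F.Mill W) {x : Z} (hx : x ∈ A F W) :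
    x ∈ F.W1 W ∨ ∃ c, F.Ch W c x := by
  obtain ⟨k, hk, u, hu, rfl⟩ := hx
  rcases mem_KK_W1 hW hk with h | ⟨c, h⟩
  · exact Or.inl (hW.W1_smul h hu)
  · rcases h.smul hW u hu with h1 | h1
    · exact Or.inl h1
    · exact Or.inr ⟨c, h1⟩

/-- `A` is quasiconvex -/
theorem A_qc {W : Set Z} (hW : F.Mill W) {x y p : Z} (hx : x ∈ A F W) (hy : y ∈ A F W)
    (hp : ρ x p + ρ p y = ρ x y) : ∃ a ∈ A F W, ρ p a ≤ 8 * δ := by
  obtain ⟨k, hk, u, hu, rfl⟩ := hx
  have hy' : k⁻¹ • y ∈ A F W := A_smul (Subgroup.inv_mem _ hk) hy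
  have e1 : ρ u (k⁻¹ • p) = ρ (k • u) p := by rw [← F.inv k, smul_inv_smul]
  have e2 : ρ (k⁻¹ • p) (k⁻¹ • y) = ρ p y := F.inv _ _ _
  have e3 : ρ u (k⁻¹ • y) = ρ (k • u) y := by rw [← F.inv k, smul_inv_smul]
  have key : ∃ a ∈ A F W, ρ (k⁻¹ • p) a ≤ 8 * δ := by
    rcases mem_A hW hy' with h | ⟨c, h⟩
    · obtain ⟨a, ha, ha1⟩ := W1_qc hW hu h (p := k⁻¹ • p) (by omega)
      exact ⟨a, W1_sub_A W ha, ha1⟩
    · exact h.qc hW u hu _ (by omega)
  obtain ⟨a, ha, ha1⟩ := key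
  refine ⟨k • a, A_smul hk ha, ?_⟩
  rw [← F.inv k, smul_inv_smul] at ha1
  exact ha1

end RotFam

end Burn
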