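import Pool.Agent.W_MP_3ab0ed_burn.P3Poly

/-!
Burnside part, piece P3, file 10: the direct lemma. If no apex is seen from `u` and `v` with an
angle larger than `T - 2 Th`, then `(u, v)` realises the distance of the orbits.
-/

namespace Burn

namespace RotFam

variable {G Z Γ : Type*} [Group G] [MulAction G Z] [MulAction G Γ]
  {ρ : Z → Z → ℕ} {δ S Th T : ℕ} {F : RotFam G Z Γ ρ δ S Th T}

theorem direct {u v : Z}
    (h : ∀ c ∈ F.V, u ≠ c → v ≠ c → ∀ y ∈ F.germ c u, ∀ y' ∈ F.germ c v,
      F.dG y y' + 2 * Th ≤ T) : Min F u v := by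
  intro k hk
  by_contra hcon
  have hlt0 : ρ u (k • v) < ρ u v := by omega
  -- minimal counterexample with respect to the distance of the orbits, then `ρ v (k v)`
  have main : ∀ n m : ℕ, ∀ k ∈ KA F, ρ u (k • v) = m → ρ v (k • v) = n → ¬ (m < ρ u v) := by
    intro n
    induction n using Nat.strong_induction_on with
    | _ n ih =>
    intro m k hk h1 h2 h3
    by_cases hk1 : k = 1
    · subst hk1
      rw [one_smul] at h1
      omega
    rcases greendlinger v hk hk1 with ⟨hV, hH⟩ | hGr
    · rw [F.H_fix _ hV k hH] at h1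
      omega
    · obtain ⟨c, r, hc, hvc, hkv, hr, hr1, hp, hlt, hsm, hbig⟩ := hGr.angle
      have hrK : r * k ∈ KA F := Subgroup.mul_mem _ (H_le_KA hc hr) hk
      have hle : ρ u ((r * k) • v) ≤ m := by
        rw [mul_smul]
        by_cases huc : u = c
        · subst huc
          rw [dist_smul_apex hc hr]; omega
        · obtain ⟨z, hz⟩ := F.germ_ne c hc u huc
          obtain ⟨y, hy⟩ := F.germ_ne c hc v hvc
          obtain ⟨y', hy'⟩ := F.germ_ne c hc _ hkv
          have b1 := hbig y hy y' hy'
          have b2 := h c hc huc hvc z hz y hy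
          have b3 := F.dG_tri y z y'
          rw [F.dG_symm y z] at b3
          have hpass := F.passing c hc u huc _ hkv z hz y' hy' (by omega)
          have t1 := F.geo.tri u c (r • k • v)
          rw [dist_smul_apex hc hr] at t1
          have := hpass.1
          omega
      refine ih _ (by rw [← h2]; exact hlt) _ (r * k) hrK rfl ?_ ?_
      · rw [mul_smul]
      · omega
  exact main _ _ k hk rfl rfl hlt0

end RotFam

end Burn
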