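import Pool.Agent.W_MP_3ab0ed_burn.P3Gr

/-!
Burnside part, piece P3, file 7: the rotation group is free on the rotations of a transversal.
-/

namespace Burn

namespace RotFam

variable {G Z Γ : Type*} [Group G] [MulAction G Z] [MulAction G Γ]
  {ρ : Z → Z → ℕ} {δ S Th T : ℕ} {F : RotFam G Z Γ ρ δ S Th T}

/-- points of `W1` in the same orbit under the next group are in the same orbit under `K_W` -/
theorem ChE.orbit {W : Set Z} (hW : F.Mill W) {c : Z} {k : G} (h : F.ChE W c k) :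
    ∀ v ∈ F.W1 W, k • v ∈ F.W1 W → ∃ κ ∈ F.KK W, k • v = κ • v := by
  induction h with
  | base c η κ hc hη hη1 hκ =>
    intro v hv hkv
    rw [mul_smul] at hkv ⊢
    by_cases h1 : κ • v = c
    · exact ⟨κ, hκ, by rw [h1, F.H_fix c (C1.V hc) η hη]⟩
    · exact absurd hkv (Ch.base c η _ hc hη hη1 (hW.W1_smul hκ hv) h1 |>.not_W1 hW)
  | step c c' η k hc hη hη1 hc'c hCh ih =>
    intro v hv hkv
    rw [mul_smul] at hkv ⊢
    rcases hCh.smul hW v hv with h1 | h1
    · obtain ⟨κ, hκ, h2⟩ := ih v hv h1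
      by_cases h3 : k • v = c
      · exact ⟨κ, hκ, by rw [h3, F.H_fix c (C1.V hc) η hη, ← h3, h2]⟩
      · exact absurd hkv (Ch.base c η _ hc hη hη1 h1 h3 |>.not_W1 hW)
    · exact absurd hkv (Ch.step c c' η _ hc hη hη1 hc'c h1 |>.not_W1 hW)

theorem orbit_W1 {W : Set Z} (hW : F.Mill W) {k : G} (hk : k ∈ F.KK (F.W1 W)) {v : Z}
    (hv : v ∈ F.W1 W) (hkv : k • v ∈ F.W1 W) : ∃ κ ∈ F.KK W, k • v = κ • v := by
  rcases mem_KK_W1 hW hk with h | ⟨c, h⟩
  · exact ⟨k, h, rfl⟩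
  · exact h.orbit hW v hv hkv

/-- a transversal of the new apices -/
def tr (F : RotFam G Z Γ ρ δ S Th T) (W : Set Z) : Set Z :=
  {x | x ∈ F.C1 W ∧ (Quotient.out (Quotient.mk (MulAction.orbitRel (F.KK W) Z) x)) = x}

theorem tr_exists {W : Set Z} (hW : F.Mill W) {c : Z} (hc : c ∈ F.C1 W) :
    ∃ t ∈ F.tr W, ∃ κ ∈ F.KK W, c = κ • t := by
  set t := Quotient.out (Quotient.mk (MulAction.orbitRel (F.KK W) Z) c) with ht
  have h1 : Quotient.mk (MulAction.orbitRel (F.KK W) Z) t =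
      Quotient.mk (MulAction.orbitRel (F.KK W) Z) c := Quotient.out_eq _
  have h2 := Quotient.exact h1
  obtain ⟨⟨κ, hκ⟩, h3⟩ := h2
  have h4 : κ • c = t := h3
  refine ⟨t, ⟨?_, ?_⟩, κ⁻¹, Subgroup.inv_mem _ hκ, ?_⟩
  · rw [← h4]; exact hW.C1_smul hκ hc
  · rw [h1]
  · rw [← h4, inv_smul_smul]

theorem tr_unique {W : Set Z} {t t' : Z} (ht : t ∈ F.tr W) (ht' : t' ∈ F.tr W) {κ : G}
    (hκ : κ ∈ F.KK W) (h : κ • t = t') : t = t' := by
  have h1 : Quotient.mk (MulAction.orbitRel (F.KK W) Z) t' =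
      Quotient.mk (MulAction.orbitRel (F.KK W) Z) t := by
    apply Quotient.sound
    exact ⟨⟨κ, hκ⟩, h⟩
  rw [← ht.2, ← ht'.2, h1]

section

variable (F) (h : Z → G)

/-- words in the generators attached to the points of `T` -/
def Wd (Z : Type*) (T : Set Z) : Subgroup (FreeGroup Z) := Subgroup.closure (FreeGroup.of '' T)

/-- reduced words with first new apex `c` -/
inductive ChW (W Tn : Set Z) : Z → FreeGroup Z → Prop
  | base (t : Z) (κ κ' : FreeGroup Z) (m : ℤ) : t ∈ F.tr W → κ ∈ Wd Z Tn → κ' ∈ Wd Z Tn →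
      m ≠ 0 → ChW W Tn (FreeGroup.lift h κ • t) (κ * FreeGroup.of t ^ m * κ⁻¹ * κ')
  | step (c' t : Z) (κ w : FreeGroup Z) (m : ℤ) : t ∈ F.tr W → κ ∈ Wd Z Tn → m ≠ 0 →
      c' ≠ FreeGroup.lift h κ • t → ChW W Tn c' w →
      ChW W Tn (FreeGroup.lift h κ • t) (κ * FreeGroup.of t ^ m * κ⁻¹ * w)

/-- the properties of a partial transversal -/
structure Tv (W Tn : Set Z) : Prop where
  sub : Tn ⊆ W
  subV : Tn ⊆ F.V
  ex : ∀ v ∈ F.V, v ∈ W → ∃ t ∈ Tn, ∃ k ∈ F.KK W, k • t = v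
  uq : ∀ t ∈ Tn, ∀ t' ∈ Tn, ∀ k ∈ F.KK W, k • t = t' → t = t'
  gen : Subgroup.closure (h '' Tn) = F.KK W
  inj : ∀ w ∈ Wd Z Tn, FreeGroup.lift h w = 1 → w = 1

end

variable {h : Z → G}

theorem lift_mem {W Tn : Set Z} (hT : Tv F h W Tn) {w : FreeGroup Z} (hw : w ∈ Wd Z Tn) :
    FreeGroup.lift h w ∈ F.KK W := by
  rw [← hT.gen]
  unfold Wd at hw
  induction hw using Subgroup.closure_induction with
  | mem x hx =>
    obtain ⟨t, ht, rfl⟩ := hx
    rw [FreeGroup.lift_apply_of]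
    exact Subgroup.subset_closure ⟨t, ht, rfl⟩
  | one => rw [map_one]; exact Subgroup.one_mem _
  | mul a b _ _ ha hb => rw [map_mul]; exact Subgroup.mul_mem _ ha hb
  | inv a _ ha => rw [map_inv]; exact Subgroup.inv_mem _ ha

theorem conj_zpow_mem (hH : ∀ c ∈ F.V, F.H c = Subgroup.zpowers (h c))
    (hinf : ∀ c ∈ F.V, ∀ m : ℤ, h c ^ m = 1 → m = 0)
    {t : Z} (ht : t ∈ F.V) (g : G) {m : ℤ} (hm : m ≠ 0) :
    g * h t ^ m * g⁻¹ ∈ F.H (g • t) ∧ g * h t ^ m * g⁻¹ ≠ 1 := by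
  refine ⟨F.H_conj t ht g _ ?_, ?_⟩
  · rw [hH t ht]; exact Subgroup.zpow_mem _ (Subgroup.mem_zpowers _) m
  · intro h1
    apply hm
    apply hinf t ht m
    have := congrArg (fun x => g⁻¹ * x * g) h1
    simpa [mul_assoc] using this

theorem ChW.toE {W Tn : Set Z} (hW : F.Mill W) (hT : Tv F h W Tn)
    (hH : ∀ c ∈ F.V, F.H c = Subgroup.zpowers (h c))
    (hinf : ∀ c ∈ F.V, ∀ m : ℤ, h c ^ m = 1 → m = 0)
    {c : Z} {w : FreeGroup Z} (hw : ChW F h W Tn c w) : F.ChE W c (FreeGroup.lift h w) := by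
  induction hw with
  | base t κ κ' m ht hκ hκ' hm =>
    have h1 := conj_zpow_mem hH hinf (C1.V ht.1) (FreeGroup.lift h κ) hm
    have e : FreeGroup.lift h (κ * FreeGroup.of t ^ m * κ⁻¹ * κ') =
        (FreeGroup.lift h κ * h t ^ m * (FreeGroup.lift h κ)⁻¹) * FreeGroup.lift h κ' := by
      simp only [map_mul, map_zpow, map_inv, FreeGroup.lift_apply_of]
    rw [e]
    exact ChE.base _ _ _ (hW.C1_smul (lift_mem hT hκ) ht.1) h1.1 h1.2 (lift_mem hT hκ')
  | step c' t κ w m ht hκ hm hc' hw ih =>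
    have h1 := conj_zpow_mem hH hinf (C1.V ht.1) (FreeGroup.lift h κ) hm
    have e : FreeGroup.lift h (κ * FreeGroup.of t ^ m * κ⁻¹ * w) =
        (FreeGroup.lift h κ * h t ^ m * (FreeGroup.lift h κ)⁻¹) * FreeGroup.lift h w := by
      simp only [map_mul, map_zpow, map_inv, FreeGroup.lift_apply_of]
    rw [e]
    exact ChE.step _ c' _ _ (hW.C1_smul (lift_mem hT hκ) ht.1) h1.1 h1.2 hc' ih

theorem ChW.left {W Tn : Set Z} {c : Z} {w : FreeGroup Z} (hw : ChW F h W Tn c w) :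
    ∀ g ∈ Wd Z Tn, ChW F h W Tn (FreeGroup.lift h g • c) (g * w) := by
  induction hw with
  | base t κ κ' m ht hκ hκ' hm =>
    intro g hg
    have e : g * (κ * FreeGroup.of t ^ m * κ⁻¹ * κ') =
        (g * κ) * FreeGroup.of t ^ m * (g * κ)⁻¹ * (g * κ') := by group
    rw [e, ← mul_smul, ← map_mul]
    exact ChW.base t _ _ m ht (Subgroup.mul_mem _ hg hκ) (Subgroup.mul_mem _ hg hκ') hm
  | step c' t κ w m ht hκ hm hc' hw ih =>
    intro g hg
    have e : g * (κ * FreeGroup.of t ^ m * κ⁻¹ * w) =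
        (g * κ) * FreeGroup.of t ^ m * (g * κ)⁻¹ * (g * w) := by group
    rw [e, ← mul_smul, ← map_mul]
    refine ChW.step (FreeGroup.lift h g • c') t _ _ m ht (Subgroup.mul_mem _ hg hκ) hm ?_
      (ih g hg)
    rw [map_mul, mul_smul]
    intro h1
    exact hc' (MulAction.injective _ h1)

theorem ChW.rot {W Tn : Set Z} (hW : F.Mill W) (hT : Tv F h W Tn)
    {t : Z} (ht : t ∈ F.tr W) {κ : FreeGroup Z} (hκ : κ ∈ Wd Z Tn) (m : ℤ) {w : FreeGroup Z}
    (hw : w ∈ Wd Z Tn ∨ ∃ c, ChW F h W Tn c w) :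
    κ * FreeGroup.of t ^ m * κ⁻¹ * w ∈ Wd Z Tn ∨
      ∃ c, ChW F h W Tn c (κ * FreeGroup.of t ^ m * κ⁻¹ * w) := by
  by_cases hm : m = 0
  · subst hm
    simpa using hw
  rcases hw with hw | ⟨c', hw⟩
  · exact Or.inr ⟨_, ChW.base t κ w m ht hκ hw hm⟩
  · by_cases hcc : c' = FreeGroup.lift h κ • t
    · -- merging
      have key : ∀ t' κ₁, t' ∈ F.tr W → κ₁ ∈ Wd Z Tn →
          FreeGroup.lift h κ₁ • t' = FreeGroup.lift h κ • t → t' = t ∧ κ₁ = κ := by
        intro t' κ₁ ht' hκ₁ he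
        have hK : FreeGroup.lift h (κ⁻¹ * κ₁) ∈ F.KK W :=
          lift_mem hT (Subgroup.mul_mem _ (Subgroup.inv_mem _ hκ) hκ₁)
        have he2 : FreeGroup.lift h (κ⁻¹ * κ₁) • t' = t := by
          rw [map_mul, mul_smul, he, map_inv, inv_smul_smul]
        have htt : t' = t := tr_unique ht' ht hK he2
        subst htt
        refine ⟨rfl, ?_⟩
        have h1 := H_inf_KK hW (C1.V ht.1) (C1.notW ht.1) hK he2
        have h2 := hT.inj _ (Subgroup.mul_mem _ (Subgroup.inv_mem _ hκ) hκ₁) h1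
        rw [inv_mul_eq_one] at h2
        exact h2.symm
      cases hw with
      | base t' κ₁ κ' m' ht' hκ₁ hκ' hm' =>
        obtain ⟨h1, h2⟩ := key t' κ₁ ht' hκ₁ hcc
        subst h1; subst h2
        have e : κ₁ * FreeGroup.of t' ^ m * κ₁⁻¹ *
            (κ₁ * FreeGroup.of t' ^ m' * κ₁⁻¹ * κ') =
            κ₁ * FreeGroup.of t' ^ (m + m') * κ₁⁻¹ * κ' := by
          rw [zpow_add]; group
        rw [e]
        by_cases hmm : m + m' = 0
        · rw [hmm]; left; simpa using hκ'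
        · exact Or.inr ⟨_, ChW.base t' κ₁ κ' _ ht' hκ₁ hκ' hmm⟩
      | step c'' t' κ₁ w' m' ht' hκ₁ hm' hc'' hw' =>
        obtain ⟨h1, h2⟩ := key t' κ₁ ht' hκ₁ hcc
        subst h1; subst h2
        have e : κ₁ * FreeGroup.of t' ^ m * κ₁⁻¹ *
            (κ₁ * FreeGroup.of t' ^ m' * κ₁⁻¹ * w') =
            κ₁ * FreeGroup.of t' ^ (m + m') * κ₁⁻¹ * w' := by
          rw [zpow_add]; group
        rw [e]
        by_cases hmm : m + m' = 0
        · rw [hmm]; right; exact ⟨c'', by simpa using hw'⟩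
        · exact Or.inr ⟨_, ChW.step c'' t' κ₁ w' _ ht' hκ₁ hmm hc'' hw'⟩
    · exact Or.inr ⟨_, ChW.step c' t κ w m ht hκ hm hcc hw⟩

theorem ChW.all {W Tn : Set Z} (hW : F.Mill W) (hT : Tv F h W Tn) {w : FreeGroup Z}
    (hw : w ∈ Wd Z (Tn ∪ F.tr W)) : w ∈ Wd Z Tn ∨ ∃ c, ChW F h W Tn c w := by
  have left : ∀ g ∈ Wd Z Tn, ∀ w, (w ∈ Wd Z Tn ∨ ∃ c, ChW F h W Tn c w) →
      (g * w ∈ Wd Z Tn ∨ ∃ c, ChW F h W Tn c (g * w)) := by
    rintro g hg w (h1 | ⟨c, h1⟩)
    · exact Or.inl (Subgroup.mul_mem _ hg h1)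
    · exact Or.inr ⟨_, h1.left g hg⟩
  unfold Wd at hw
  induction hw using Subgroup.closure_induction_left with
  | one => exact Or.inl (Subgroup.one_mem _)
  | mul_left x hx y _ ih =>
    obtain ⟨t, ht, rfl⟩ := hx
    rcases ht with ht | ht
    · exact left _ (Subgroup.subset_closure ⟨t, ht, rfl⟩) y ih
    · have := ChW.rot hW hT ht (Subgroup.one_mem _) 1 ih
      simpa using this
  | inv_mul_cancel x hx y _ ih =>
    obtain ⟨t, ht, rfl⟩ := hx
    rcases ht with ht | ht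
    · exact left _ (Subgroup.inv_mem _ (Subgroup.subset_closure ⟨t, ht, rfl⟩)) y ih
    · have := ChW.rot hW hT ht (Subgroup.one_mem _) (-1) ih
      simpa using this

/-- the next partial transversal -/
theorem Tv.next {W Tn : Set Z} (hW : F.Mill W) (hT : Tv F h W Tn)
    (hH : ∀ c ∈ F.V, F.H c = Subgroup.zpowers (h c))
    (hinf : ∀ c ∈ F.V, ∀ m : ℤ, h c ^ m = 1 → m = 0)
    (hconj : ∀ c ∈ F.V, ∀ g : G, h (g • c) = g * h c * g⁻¹) :
    Tv F h (F.nx W) (Tn ∪ F.tr W) where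
  sub := by
    rintro t (ht | ht)
    · exact sub_nx W (hT.sub ht)
    · exact A_sub_nx W (W1_sub_A W (C1.W1 ht.1))
  subV := by
    rintro t (ht | ht)
    · exact hT.subV ht
    · exact C1.V ht.1
  ex := by
    intro v hv hvW
    rw [KK_nx]
    obtain ⟨k, hk, u, hu, rfl⟩ := nx_V hv hvW
    have huV : u ∈ F.V := by
      have := F.V_smul k⁻¹ _ hv
      rwa [inv_smul_smul] at this
    rcases hu with hu | hu
    · obtain ⟨t, ht, k', hk', h1⟩ := hT.ex u huV hu
      exact ⟨t, Or.inl ht, k * k', Subgroup.mul_mem _ hk (KK_le_W1 W hk'), by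
        rw [mul_smul, h1]⟩
    · obtain ⟨t, ht, k', hk', h1⟩ := tr_exists hW hu
      exact ⟨t, Or.inr ht, k * k', Subgroup.mul_mem _ hk (KK_le_W1 W hk'), by
        rw [mul_smul, h1]⟩
  uq := by
    intro t ht t' ht' k hk hkt
    rw [KK_nx] at hk
    have hsub : ∀ t ∈ Tn ∪ F.tr W, t ∈ F.W1 W := by
      rintro t (ht | ht)
      · exact Or.inl (hT.sub ht)
      · exact C1.W1 ht.1
    obtain ⟨κ, hκ, h1⟩ := orbit_W1 hW hk (hsub t ht) (by rw [hkt]; exact hsub t' ht')
    rw [hkt] at h1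
    rcases ht with ht | ht <;> rcases ht' with ht' | ht'
    · exact hT.uq t ht t' ht' κ hκ h1.symm
    · exfalso
      apply C1.notW ht'.1
      rw [h1]
      exact (hW.KK_smul hκ t).2 (hT.sub ht)
    · exfalso
      apply C1.notW ht.1
      rw [← hW.KK_smul hκ t, ← h1]
      exact hT.sub ht'
    · exact tr_unique ht ht' hκ h1.symm
  gen := by
    rw [KK_nx]
    apply le_antisymm
    · rw [Subgroup.closure_le]
      rintro g ⟨t, ht, rfl⟩
      have htV : t ∈ F.V := by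
        rcases ht with ht | ht
        · exact hT.subV ht
        · exact C1.V ht.1
      have htW : t ∈ F.W1 W := by
        rcases ht with ht | ht
        · exact Or.inl (hT.sub ht)
        · exact C1.W1 ht.1
      apply F.H_le_KK htV htW
      rw [hH t htV]
      exact Subgroup.mem_zpowers _
    · have hle : F.KK W ≤ Subgroup.closure (h '' (Tn ∪ F.tr W)) := by
        rw [← hT.gen]
        apply Subgroup.closure_mono
        exact Set.image_mono (fun x hx => Or.inl hx)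
      rw [KK, Subgroup.closure_le]
      rintro g ⟨c, hcV, hc, hg⟩
      rcases hc with hc | hc
      · exact hle (F.H_le_KK hcV hc hg)
      · obtain ⟨t, ht, κ, hκ, rfl⟩ := tr_exists hW hc
        rw [hH _ hcV, hconj t (C1.V ht.1)] at hg
        have h1 : κ * h t * κ⁻¹ ∈ Subgroup.closure (h '' (Tn ∪ F.tr W)) :=
          Subgroup.mul_mem _ (Subgroup.mul_mem _ (hle hκ)
            (Subgroup.subset_closure ⟨t, Or.inr ht, rfl⟩)) (Subgroup.inv_mem _ (hle hκ))
        have h2 : Subgroup.zpowers (κ * h t * κ⁻¹) ≤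
            Subgroup.closure (h '' (Tn ∪ F.tr W)) := by
          rw [Subgroup.zpowers_le]; exact h1
        exact h2 hg
  inj := by
    intro w hw h1
    rcases ChW.all hW hT hw with h2 | ⟨c, h2⟩
    · exact hT.inj w h2 h1
    · exfalso
      have h3 := h2.toE hW hT hH hinf
      rw [h1] at h3
      obtain ⟨x, hx⟩ := hW.ne
      have h4 := h3.smul_W hW x hx
      rw [one_smul] at h4
      exact h4.not_W1 hW (Or.inl hx)

/-- the partial transversals -/
def itT (F : RotFam G Z Γ ρ δ S Th T) (W Tn : Set Z) : ℕ → Set Z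
  | 0 => Tn
  | n + 1 => itT F W Tn n ∪ F.tr (it F W n)

theorem itT_mono (W Tn : Set Z) {m n : ℕ} (hmn : m ≤ n) : itT F W Tn m ⊆ itT F W Tn n := by
  induction hmn with
  | refl => exact subset_rfl
  | step _ ih => exact ih.trans (fun x hx => Or.inl hx)

theorem itT_tv {W Tn : Set Z} (hW : F.Mill W) (hT : Tv F h W Tn)
    (hH : ∀ c ∈ F.V, F.H c = Subgroup.zpowers (h c))
    (hinf : ∀ c ∈ F.V, ∀ m : ℤ, h c ^ m = 1 → m = 0)
    (hconj : ∀ c ∈ F.V, ∀ g : G, h (g • c) = g * h c * g⁻¹) (n : ℕ) :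
    Tv F h (it F W n) (itT F W Tn n) := by
  induction n with
  | zero => exact hT
  | succ n ih => exact ih.next (it_mill hW n) hH hinf hconj

theorem Wd_iUnion {W Tn : Set Z} {w : FreeGroup Z}
    (hw : w ∈ Wd Z (⋃ n, itT F W Tn n)) : ∃ n, w ∈ Wd Z (itT F W Tn n) := by
  have mono : ∀ {m n : ℕ}, m ≤ n → Wd Z (itT F W Tn m) ≤ Wd Z (itT F W Tn n) := by
    intro m n hmn
    exact Subgroup.closure_mono (Set.image_mono (itT_mono W Tn hmn))
  unfold Wd at hw
  induction hw using Subgroup.closure_induction with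
  | mem x hx =>
    obtain ⟨t, ht, rfl⟩ := hx
    obtain ⟨n, hn⟩ := Set.mem_iUnion.1 ht
    exact ⟨n, Subgroup.subset_closure ⟨t, hn, rfl⟩⟩
  | one => exact ⟨0, Subgroup.one_mem _⟩
  | mul a b _ _ ha hb =>
    obtain ⟨m, hm⟩ := ha
    obtain ⟨n, hn⟩ := hb
    exact ⟨max m n, Subgroup.mul_mem _ (mono (le_max_left m n) hm)
      (mono (le_max_right m n) hn)⟩
  | inv a _ ha =>
    obtain ⟨m, hm⟩ := ha
    exact ⟨m, Subgroup.inv_mem _ hm⟩

theorem map_val_mem (U : Set Z) (w : FreeGroup U) :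
    FreeGroup.map (Subtype.val : U → Z) w ∈ Wd Z U := by
  have h0 : w ∈ Subgroup.closure (Set.range (FreeGroup.of : U → FreeGroup U)) := by
    rw [FreeGroup.closure_range_of]; exact Subgroup.mem_top w
  induction h0 using Subgroup.closure_induction with
  | mem x hx =>
    obtain ⟨t, rfl⟩ := hx
    rw [FreeGroup.map.of]
    exact Subgroup.subset_closure ⟨t, t.2, rfl⟩
  | one => rw [map_one]; exact Subgroup.one_mem _
  | mul a b _ _ ha hb => rw [map_mul]; exact Subgroup.mul_mem _ ha hb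
  | inv a _ ha => rw [map_inv]; exact Subgroup.inv_mem _ ha

/-- **The rotation group is free on the rotations of a transversal of the apices.** -/
theorem exists_transversal (h : Z → G)
    (hH : ∀ c ∈ F.V, F.H c = Subgroup.zpowers (h c))
    (hinf : ∀ c ∈ F.V, ∀ m : ℤ, h c ^ m = 1 → m = 0)
    (hconj : ∀ c ∈ F.V, ∀ g : G, h (g • c) = g * h c * g⁻¹) :
    ∃ Tr : Set Z, Tr ⊆ F.V ∧
      (∀ v ∈ F.V, ∃! t, t ∈ Tr ∧ ∃ k ∈ KA F, k • t = v) ∧
      Function.Injective (FreeGroup.lift (fun t : Tr => h t)) ∧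
      Subgroup.closure (h '' Tr) = KA F := by
  by_cases hV : F.V.Nonempty
  swap
  · rw [Set.not_nonempty_iff_eq_empty] at hV
    refine ⟨∅, Set.empty_subset _, ?_, ?_, ?_⟩
    · intro v hv
      rw [hV] at hv
      exact absurd hv (Set.notMem_empty v)
    · intro a b _
      exact Subsingleton.elim a b
    · rw [Set.image_empty, Subgroup.closure_empty, eq_comm, eq_bot_iff, KA,
        Subgroup.closure_le]
      rintro g ⟨c, hc, _⟩
      rw [hV] at hc
      exact absurd hc (Set.notMem_empty c)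
  obtain ⟨c, hc⟩ := hV
  set W : Set Z := {z | ρ z c ≤ 5 * δ} with hWdef
  have hW : F.Mill W := mill_ball hc
  have hcW : c ∈ W := by
    change ρ c c ≤ 5 * δ
    rw [F.geo.self]; omega
  have hT : Tv F h W {c} := by
    refine ⟨?_, ?_, ?_, ?_, ?_, ?_⟩
    · intro x hx; rw [Set.mem_singleton_iff] at hx; rw [hx]; exact hcW
    · intro x hx; rw [Set.mem_singleton_iff] at hx; rw [hx]; exact hc
    · intro v hv hvW
      have : v = c := by
        by_contra hne
        have h1 := F.sep v hv c hc hne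
        have h2 := F.hS
        change ρ v c ≤ 5 * δ at hvW
        omega
      exact ⟨c, rfl, 1, Subgroup.one_mem _, by rw [this, one_smul]⟩
    · intro t ht t' ht' _ _ _
      rw [Set.mem_singleton_iff] at ht ht'
      rw [ht, ht']
    · apply le_antisymm
      · rw [Subgroup.closure_le]
        rintro g ⟨t, ht, rfl⟩
        rw [Set.mem_singleton_iff] at ht
        rw [ht]
        apply F.H_le_KK hc hcW
        rw [hH c hc]
        exact Subgroup.mem_zpowers _
      · intro g hg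
        have h1 := KK_ball hc hg
        rw [hH c hc] at h1
        have h2 : Subgroup.zpowers (h c) ≤ Subgroup.closure (h '' {c}) := by
          rw [Subgroup.zpowers_le]
          exact Subgroup.subset_closure ⟨c, rfl, rfl⟩
        exact h2 h1
    · intro w hw h1
      have : w ∈ Subgroup.zpowers (FreeGroup.of c) := by
        unfold Wd at hw
        rwa [Set.image_singleton, ← Subgroup.zpowers_eq_closure] at hw
      obtain ⟨m, rfl⟩ := Subgroup.mem_zpowers_iff.1 this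
      rw [map_zpow, FreeGroup.lift_apply_of] at h1
      rw [hinf c hc m h1, zpow_zero]
  have hTn := itT_tv hW hT hH hinf hconj
  refine ⟨⋃ n, itT F W {c} n, ?_, ?_, ?_, ?_⟩
  · intro x hx
    obtain ⟨n, hn⟩ := Set.mem_iUnion.1 hx
    exact (hTn n).subV hn
  · intro v hv
    have hvn : v ∈ it F W (ρ c v) := mem_it hcW _ v le_rfl
    obtain ⟨t, ht, k, hk, h1⟩ := (hTn _).ex v hv hvn
    refine ⟨t, ⟨Set.mem_iUnion.2 ⟨_, ht⟩, k, KK_le_KA _ hk, h1⟩, ?_⟩
    rintro t' ⟨ht', k', hk', h2⟩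
    obtain ⟨n', hn'⟩ := Set.mem_iUnion.1 ht'
    have hkk : k⁻¹ * k' ∈ KA F :=
      Subgroup.mul_mem _ (Subgroup.inv_mem _ (KK_le_KA _ hk)) hk'
    obtain ⟨m, hm⟩ := (mem_KA_iff hW.ne).1 hkk
    set N := max (ρ c v) (max n' m) with hN
    have a1 : t ∈ itT F W {c} N := itT_mono W {c} (by omega) ht
    have a2 : t' ∈ itT F W {c} N := itT_mono W {c} (by omega) hn'
    have a3 : k⁻¹ * k' ∈ F.KK (it F W N) := F.KK_mono (it_mono W (by omega)) hm
    exact (hTn N).uq t' a2 t a1 _ a3 (by rw [mul_smul, h2, ← h1, inv_smul_smul])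
  · have hmap : (FreeGroup.lift (fun t : (⋃ n, itT F W {c} n : Set Z) => h t)) =
        (FreeGroup.lift h).comp
          (FreeGroup.map (Subtype.val : (⋃ n, itT F W {c} n : Set Z) → Z)) := by
      ext t
      simp
    rw [hmap, injective_iff_map_eq_one]
    intro w hw
    rw [MonoidHom.comp_apply] at hw
    have hmem := map_val_mem (⋃ n, itT F W {c} n) w
    obtain ⟨n, hn⟩ := Wd_iUnion hmem
    have h1 := (hTn n).inj _ hn hw
    exact (injective_iff_map_eq_one _).1 (FreeGroup.map_injective Subtype.val_injective) w h1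
  · apply le_antisymm
    · rw [Subgroup.closure_le]
      rintro g ⟨t, ht, rfl⟩
      obtain ⟨n, hn⟩ := Set.mem_iUnion.1 ht
      apply KK_le_KA (it F W n)
      rw [← (hTn n).gen]
      exact Subgroup.subset_closure ⟨t, hn, rfl⟩
    · intro k hk
      obtain ⟨n, hn⟩ := (mem_KA_iff hW.ne).1 hk
      rw [← (hTn n).gen] at hn
      have : Subgroup.closure (h '' itT F W {c} n) ≤
          Subgroup.closure (h '' ⋃ n, itT F W {c} n) :=
        Subgroup.closure_mono (Set.image_mono (Set.subset_iUnion _ n))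
      exact this hn

end RotFam

end Burn
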