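import Pool.Agent.W_MP_3ab0ed_burn.P3Step

/-!
Burnside part, piece P3, file 5: the Greendlinger lemma.
-/

namespace Burn

namespace RotFam

variable {G Z Γ : Type*} [Group G] [MulAction G Z] [MulAction G Γ]
  {ρ : Z → Z → ℕ} {δ S Th T : ℕ} {F : RotFam G Z Γ ρ δ S Th T}

/-- the conclusion of the Greendlinger lemma -/
def Gr (F : RotFam G Z Γ ρ δ S Th T) (x : Z) (k : G) : Prop :=
  ∃ c h, c ∈ F.V ∧ x ≠ c ∧ k • x ≠ c ∧ h ∈ F.H c ∧ h ≠ 1 ∧ Pass ρ x c (k • x) ∧
    ρ x (h • k • x) < ρ x (k • x) ∧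
    ∀ a ∈ F.germ c x, ∀ b ∈ F.germ c (h • k • x), F.dG a b < Th

theorem smul_ne_of_ne {c : Z} (hc : c ∈ F.V) {h : G} (hh : h ∈ F.H c) {y : Z} (hy : y ≠ c) :
    h • y ≠ c := by
  intro h1
  apply hy
  have : h • y = h • c := by rw [h1, F.H_fix c hc h hh]
  exact MulAction.injective h this

theorem dist_smul_apex {c : Z} (hc : c ∈ F.V) {h : G} (hh : h ∈ F.H c) (y : Z) :
    ρ c (h • y) = ρ c y := by
  conv_lhs => rw [← F.H_fix c hc h hh]
  exact F.inv _ _ _

theorem gr_of_ChE {W : Set Z} (hW : F.Mill W) {x : Z} (hx : x ∈ W) {c : Z} {k : G}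
    (h : F.ChE W c k) : Gr F x k := by
  have hc := h.mem_C1
  have hcV := C1.V hc
  have hcW := C1.notW hc
  have hxc : x ≠ c := fun e => hcW (e ▸ hx)
  have hCh := h.smul_W hW x hx
  obtain ⟨p1, p2⟩ := hCh.pass hW
  have hpass := p2 x (Or.inl hx) hxc
  cases h with
  | base _ η κ _ hη hη1 hκ =>
    have hκx : κ • x ∈ W := (hW.KK_smul hκ x).2 hx
    have hκc : κ • x ≠ c := fun e => hcW (e ▸ hκx)
    have e0 : η⁻¹ • (η * κ) • x = κ • x := by rw [mul_smul, inv_smul_smul]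
    refine ⟨c, η⁻¹, hcV, hxc, p1, (F.H c).inv_mem hη, inv_ne_one.2 hη1, hpass, ?_, ?_⟩
    · rw [e0]
      have h1 := not_between hW hcV hcW (Or.inl hx) (Or.inl hκx) hxc hκc
      have h2 := F.geo.tri x c (κ • x)
      have h3 := hpass.1
      rw [mul_smul, dist_smul_apex hcV hη, ← mul_smul] at h3
      omega
    · intro a ha b hb
      rw [e0] at hb
      exact small_angle hW hcV hcW (Or.inl hx) (Or.inl hκx) hxc hκc ha hb
  | step _ c' η k' _ hη hη1 hc'c hCh' =>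
    have hc' := hCh'.mem_C1
    have e0 : η⁻¹ • (η * k') • x = k' • x := by rw [mul_smul, inv_smul_smul]
    have hpc := ((hCh'.smul_W hW x hx).pass hW).2 c (C1.W1 hc) hc'c.symm
    refine ⟨c, η⁻¹, hcV, hxc, p1, (F.H c).inv_mem hη, inv_ne_one.2 hη1, hpass, ?_, ?_⟩
    · rw [e0]
      have h1 := not_between hW hcV hcW (Or.inl hx) (C1.W1 hc') hxc hc'c
      have h2 := F.geo.tri x c c'
      have h3 := hpass.1
      rw [mul_smul, dist_smul_apex hcV hη, ← mul_smul] at h3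
      have h4 := hpc.1
      have h5 := F.geo.tri x c' (k' • x)
      omega
    · intro a ha b hb
      rw [e0, F.exactness c hcV c' (C1.V hc') hc'c.symm _ hpc] at hb
      exact small_angle hW hcV hcW (Or.inl hx) (C1.W1 hc') hxc hc'c ha hb

/-- induction along the mills -/
theorem gr_it {W : Set Z} (hW : F.Mill W) {x : Z} (hx : x ∈ W) {P : G → Prop}
    (h0 : ∀ k ∈ F.KK W, P k) (h1 : ∀ k, Gr F x k → P k) (n : ℕ) :
    ∀ k ∈ F.KK (it F W n), P k := by
  induction n with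
  | zero => exact h0
  | succ n ih =>
    intro k hk
    have hk' : k ∈ F.KK (F.W1 (it F W n)) := by
      have : F.KK (F.nx (it F W n)) = F.KK (F.W1 (it F W n)) := KK_nx
      rw [← this]; exact hk
    rcases mem_KK_W1 (it_mill hW n) hk' with h | ⟨c, h⟩
    · exact ih k h
    · exact h1 k (gr_of_ChE (it_mill hW n) (it_mono W (Nat.zero_le n) hx) h)

/-- 6. The Greendlinger lemma. -/
theorem greendlinger (x : Z) {k : G} (hk : k ∈ KA F) (hk1 : k ≠ 1) :
    (x ∈ F.V ∧ k ∈ F.H x) ∨ Gr F x k := by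
  by_cases h : ∃ c ∈ F.V, ρ c x ≤ 5 * δ
  · obtain ⟨c, hc, hcx⟩ := h
    have hW := mill_ball hc
    have hx : x ∈ {z | ρ z c ≤ 5 * δ} := by
      change ρ x c ≤ 5 * δ
      rw [F.geo.symm]; exact hcx
    obtain ⟨n, hn⟩ := (mem_KA_iff hW.ne).1 hk
    refine gr_it hW hx (P := fun k => k ≠ 1 → (x ∈ F.V ∧ k ∈ F.H x) ∨ Gr F x k) ?_ ?_ n k hn hk1
    · intro k hk hk1
      have hkc := KK_ball hc hk
      by_cases hxc : x = c
      · subst hxc; exact Or.inl ⟨hc, hkc⟩
      · right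
        have hne := smul_ne_of_ne hc hkc hxc
        obtain ⟨a, ha⟩ := F.germ_ne c hc x hxc
        have ha' : k • a ∈ F.germ c (k • x) := by
          have := F.germ_smul c hc x hxc k a ha
          rwa [F.H_fix c hc k hkc] at this
        have hp : Pass ρ x c (k • x) := by
          apply F.passing c hc x hxc _ hne a ha _ ha'
          have := F.rot c hc k hkc hk1 x hxc a ha
          have := F.hT
          omega
        refine ⟨c, k⁻¹, hc, hxc, hne, (F.H c).inv_mem hkc, inv_ne_one.2 hk1, hp, ?_, ?_⟩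
        · rw [inv_smul_smul, F.geo.self]
          have := hp.1
          have := F.geo.pos_of_ne hxc
          omega
        · intro a ha b hb
          rw [inv_smul_smul] at hb
          exact F.diam c hc x hxc a ha b hb
    · intro k hk _
      exact Or.inr hk
  · have h' : ∀ c ∈ F.V, 5 * δ < ρ c x := by
      intro c hc
      by_contra h2
      exact h ⟨c, hc, by omega⟩
    have hW := mill_point h'
    obtain ⟨n, hn⟩ := (mem_KA_iff hW.ne).1 hk
    refine gr_it hW (Set.mem_singleton x)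
      (P := fun k => k ≠ 1 → (x ∈ F.V ∧ k ∈ F.H x) ∨ Gr F x k) ?_ ?_ n k hn hk1
    · intro k hk hk1
      exact absurd (KK_point h' hk) hk1
    · intro k hk _
      exact Or.inr hk

/-- (Greendlinger, angle form) -/
theorem Gr.angle {x : Z} {k : G} (h : Gr F x k) :
    ∃ c h, c ∈ F.V ∧ x ≠ c ∧ k • x ≠ c ∧ h ∈ F.H c ∧ h ≠ 1 ∧ Pass ρ x c (k • x) ∧
    ρ x (h • k • x) < ρ x (k • x) ∧
    (∀ a ∈ F.germ c x, ∀ b ∈ F.germ c (h • k • x), F.dG a b < Th) ∧
    (∀ a ∈ F.germ c x, ∀ b ∈ F.germ c (k • x), T < F.dG a b + Th) := by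
  obtain ⟨c, h, hc, hxc, hkx, hh, hh1, hp, hlt, hsm⟩ := h
  refine ⟨c, h, hc, hxc, hkx, hh, hh1, hp, hlt, hsm, ?_⟩
  intro a ha b hb
  have hb' : h • b ∈ F.germ c (h • k • x) := by
    have := F.germ_smul c hc _ hkx h b hb
    rwa [F.H_fix c hc h hh] at this
  have h1 := hsm a ha _ hb'
  have h2 := F.rot c hc h hh hh1 _ hkx b hb
  have h3 := F.dG_tri b a (h • b)
  rw [F.dG_symm b a] at h3
  omega

/-- an element of `K` fixing a point is a rotation about this point -/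
theorem eq_one_or_mem_H {x : Z} {k : G} (hk : k ∈ KA F) (hx : k • x = x) :
    k = 1 ∨ (x ∈ F.V ∧ k ∈ F.H x) := by
  by_cases hk1 : k = 1
  · exact Or.inl hk1
  rcases greendlinger x hk hk1 with h | ⟨c, h, hc, hxc, hkx, hh, hh1, hp, hlt, hsm⟩
  · exact Or.inr h
  · exfalso
    rw [hx, F.geo.self] at hlt
    omega

theorem stab_apex {c : Z} (hc : c ∈ F.V) {k : G} :
    (k ∈ KA F ∧ k • c = c) ↔ k ∈ F.H c := by
  constructor
  · rintro ⟨hk, h⟩
    rcases eq_one_or_mem_H hk h with h1 | h1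
    · rw [h1]; exact Subgroup.one_mem _
    · exact h1.2
  · intro h
    exact ⟨Subgroup.subset_closure ⟨c, hc, h⟩, F.H_fix c hc k h⟩

theorem H_le_KA {c : Z} (hc : c ∈ F.V) : F.H c ≤ KA F :=
  fun _ h => Subgroup.subset_closure ⟨c, hc, h⟩

/-- `H c` meets `K_W` trivially if `c` is not in the mill `W`. -/
theorem H_inf_KK {W : Set Z} (hW : F.Mill W) {c : Z} (hc : c ∈ F.V) (hcW : c ∉ W) {k : G}
    (hk : k ∈ F.KK W) (hkc : k • c = c) : k = 1 := by
  by_contra hk1
  have hkH : k ∈ F.H c := (stab_apex hc).1 ⟨KK_le_KA W hk, hkc⟩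
  obtain ⟨w, hw⟩ := hW.ne
  have hwc : w ≠ c := fun e => hcW (e ▸ hw)
  have hkw : k • w ∈ W := (hW.KK_smul hk w).2 hw
  have hkwc : k • w ≠ c := fun e => hcW (e ▸ hkw)
  obtain ⟨a, ha⟩ := F.germ_ne c hc w hwc
  have ha' : k • a ∈ F.germ c (k • w) := by
    have := F.germ_smul c hc w hwc k a ha
    rwa [hkc] at this
  have h1 := small_angle hW hc hcW (Or.inl hw) (Or.inl hkw) hwc hkwc ha ha'
  have h2 := F.rot c hc k hkH hk1 w hwc a ha
  have := F.hT
  omega

end RotFam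

end Burn
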