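import Pool.Agent.W_MP_3ab0ed_burn.P3Gr

/-!
Burnside part, piece P3, file 6: lifting of closed polygons.
-/

namespace Burn

namespace RotFam

variable {G Z Γ : Type*} [Group G] [MulAction G Z] [MulAction G Γ]
  {ρ : Z → Z → ℕ} {δ S Th T : ℕ} {F : RotFam G Z Γ ρ δ S Th T}

/-- `(x, y)` realises the distance between the `K`-orbits of `x` and `y` -/
def Min (F : RotFam G Z Γ ρ δ S Th T) (x y : Z) : Prop :=
  ∀ k ∈ KA F, ρ x y ≤ ρ x (k • y)

theorem Min.smul_right {x y : Z} (h : Min F x y) {c : Z} (hc : c ∈ F.V)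
    (hI : ρ x c + ρ c y = ρ x y) {r : G} (hr : r ∈ F.H c) :
    Min F x (r • y) ∧ ρ x (r • y) = ρ x y := by
  have h1 : ρ x (r • y) = ρ x y := by
    apply le_antisymm
    · have := F.geo.tri x c (r • y)
      rw [dist_smul_apex hc hr] at this
      omega
    · exact h r (H_le_KA hc hr)
  refine ⟨?_, h1⟩
  intro k hk
  rw [h1, ← mul_smul]
  exact h _ (Subgroup.mul_mem _ hk (H_le_KA hc hr))

theorem Min.smul {x y : Z} (h : Min F x y) (g : G) : Min F (g • x) (g • y) := by
  intro k hk
  rw [F.inv]
  have h1 := h (g⁻¹ * k * g) (by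
    have := (KA_normal F).conj_mem k hk g⁻¹
    rwa [inv_inv] at this)
  have h2 : ρ x ((g⁻¹ * k * g) • y) = ρ (g • x) (k • g • y) := by
    rw [← F.inv g x]
    congr 1
    rw [← mul_smul, ← mul_smul]
    congr 1
    group
  omega

theorem Min.symm {x y : Z} (h : Min F x y) : Min F y x := by
  intro k hk
  have h1 := h k⁻¹ (Subgroup.inv_mem _ hk)
  have h2 : ρ x (k⁻¹ • y) = ρ (k • x) y := by rw [← F.inv k, smul_inv_smul]
  rw [F.geo.symm y x, F.geo.symm y (k • x)]
  omega

/-- pigeonhole for the angles along a chain -/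
theorem exists_big_angle {c : Z} {x : ℕ → Z} (y : ℕ → Γ) (m : ℕ)
    (hm : m * Th ≤ F.dG (y 0) (y m)) (hm0 : 0 < m) :
    ∃ i < m, Th ≤ F.dG (y i) (y (i + 1)) := by
  by_contra hcon
  push Not at hcon
  have key : ∀ j, 0 < j → j ≤ m → F.dG (y 0) (y j) < j * Th := by
    intro j hj
    induction j with
    | zero => omega
    | succ j ih =>
      intro hjm
      have h2 := hcon j (by omega)
      rcases Nat.eq_zero_or_pos j with h0 | h0
      · subst h0; simpa using h2
      · have h1 := ih h0 (by omega)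
        have h3 := F.dG_tri (y 0) (y j) (y (j + 1))
        have h4 : (j + 1) * Th = j * Th + Th := by ring
        omega
  have := key m hm0 le_rfl
  omega

/-- 8. Polygon lifting. -/
theorem polygon (m : ℕ) (hm : (m + 1) * Th ≤ T) (x : ℕ → Z)
    (hmin : ∀ i < m, Min F (x i) (x (i + 1))) (k : G) (hk : k ∈ KA F)
    (hend : x m = k • x 0) :
    ∃ κ : ℕ → G, (∀ i, κ i ∈ KA F) ∧ κ 0 = 1 ∧ κ m • x m = x 0 ∧
      (∀ i < m, ρ (κ i • x i) (κ (i + 1) • x (i + 1)) = ρ (x i) (x (i + 1))) ∧
      (∀ i < m, (∀ c ∈ F.V, ρ (x i) c + ρ c (x (i + 1)) ≠ ρ (x i) (x (i + 1))) →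
        κ (i + 1) = κ i) := by
  induction hn : ρ (x 0) (x m) using Nat.strong_induction_on generalizing x k with
  | _ n ih =>
  by_cases hk1 : k = 1
  · subst hk1
    exact ⟨fun _ => 1, fun _ => Subgroup.one_mem _, rfl, by simp [hend], by simp, by simp⟩
  rcases greendlinger (x 0) hk hk1 with ⟨hV, hH⟩ | hGr
  · have : x m = x 0 := by rw [hend, F.H_fix _ hV k hH]
    exact ⟨fun _ => 1, fun _ => Subgroup.one_mem _, rfl, by simp [this], by simp, by simp⟩
  obtain ⟨c, h, hc, hxc, hkx, hh, hh1, hp, hlt, hsm, hbig⟩ := hGr.angle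
  -- the side through `c`
  have hside : ∃ j < m, ρ (x j) c + ρ c (x (j + 1)) = ρ (x j) (x (j + 1)) := by
    by_cases hv : ∃ j ≤ m, x j = c
    · obtain ⟨j, hj, hxj⟩ := hv
      have : j ≠ m := by
        intro e; subst e
        apply hkx
        rw [← hend, hxj]
      exact ⟨j, by omega, by rw [hxj, F.geo.self]; omega⟩
    · push Not at hv
      have hne : ∀ j ≤ m, ∃ y, y ∈ F.germ c (x j) := fun j hj =>
        F.germ_ne c hc _ (hv j hj)
      haveI : Nonempty Γ := ⟨(hne 0 (Nat.zero_le _)).choose⟩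
      choose! y hy using hne
      have hm0 : 0 < m := by
        rcases Nat.eq_zero_or_pos m with h0 | h0
        · exfalso
          subst h0
          rw [← hend] at hlt hbig
          have h1 := hbig _ (hy 0 le_rfl) _ (hy 0 le_rfl)
          have h2 := F.diam c hc _ hxc _ (hy 0 le_rfl) _ (hy 0 le_rfl)
          have := F.hT
          omega
        · exact h0
      have hbig' := hbig _ (hy 0 (Nat.zero_le _)) (y m) (by rw [← hend]; exact hy m le_rfl)
      have hmT : m * Th ≤ F.dG (y 0) (y m) := by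
        have : (m + 1) * Th = m * Th + Th := by ring
        omega
      obtain ⟨i, hi, hi2⟩ := exists_big_angle (F := F) (c := c) (x := x) y m hmT hm0
      exact ⟨i, hi, (F.passing c hc _ (hv i (by omega)) _ (hv (i + 1) (by omega)) _
        (hy i (by omega)) _ (hy (i + 1) (by omega)) hi2).1⟩
  obtain ⟨j, hj, hjI⟩ := hside
  -- the new polygon
  set e : ℕ → G := fun i => if i ≤ j then 1 else h with he
  have hKh : h ∈ KA F := H_le_KA hc hh
  have heK : ∀ i, e i ∈ KA F := by
    intro i
    simp only [he]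
    split_ifs
    · exact Subgroup.one_mem _
    · exact hKh
  have hnew : ∀ i < m, Min F (e i • x i) (e (i + 1) • x (i + 1)) ∧
      ρ (e i • x i) (e (i + 1) • x (i + 1)) = ρ (x i) (x (i + 1)) := by
    intro i hi
    rcases lt_trichotomy i j with h1 | h1 | h1
    · have e1 : e i = 1 := by simp only [he]; rw [if_pos (by omega)]
      have e2 : e (i + 1) = 1 := by simp only [he]; rw [if_pos (by omega)]
      rw [e1, e2, one_smul, one_smul]
      exact ⟨hmin i hi, rfl⟩
    · subst h1
      have e1 : e i = 1 := by simp only [he]; rw [if_pos (by omega)]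
      have e2 : e (i + 1) = h := by simp only [he]; rw [if_neg (by omega)]
      rw [e1, e2, one_smul]
      exact (hmin i hi).smul_right hc hjI hh
    · have e1 : e i = h := by simp only [he]; rw [if_neg (by omega)]
      have e2 : e (i + 1) = h := by simp only [he]; rw [if_neg (by omega)]
      rw [e1, e2]
      exact ⟨(hmin i hi).smul h, F.inv _ _ _⟩
  have e0 : e 0 = 1 := by simp only [he]; rw [if_pos (by omega)]
  have em : e m = h := by simp only [he]; rw [if_neg (by omega)]
  obtain ⟨κ, k1, k2, k3, k4, k5⟩ := ih (ρ (x 0) (h • k • x 0))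
    (by rw [← hn, hend]; exact hlt) (fun i => e i • x i)
    (fun i hi => (hnew i hi).1) (h * k) (Subgroup.mul_mem _ hKh hk)
    (by simp only [em, e0, one_smul]; rw [hend, mul_smul])
    (by simp only [em, e0, one_smul]; rw [hend])
  refine ⟨fun i => κ i * e i, fun i => Subgroup.mul_mem _ (k1 i) (heK i), ?_, ?_, ?_, ?_⟩
  · simp only [k2, e0, mul_one]
  · simp only [e0, one_smul] at k3
    rw [mul_smul]; exact k3
  · intro i hi
    have h1 := k4 i hi
    simp only [mul_smul]
    rw [h1]
    exact (hnew i hi).2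
  · intro i hi hno
    have hij : i ≠ j := by
      intro h1; subst h1
      exact hno c hc hjI
    have hee : e (i + 1) = e i := by
      simp only [he]
      by_cases h1 : i ≤ j
      · rw [if_pos h1, if_pos (by omega)]
      · rw [if_neg h1, if_neg (by omega)]
    have h2 := k5 i hi (by
      intro c' hc' hI
      apply hno ((e i)⁻¹ • c') (F.V_smul _ _ hc')
      have a1 : ρ (x i) ((e i)⁻¹ • c') = ρ (e i • x i) c' := by
        rw [← F.inv (e i), smul_inv_smul]
      have a2 : ρ ((e i)⁻¹ • c') (x (i + 1)) = ρ c' (e i • x (i + 1)) := by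
        rw [← F.inv (e i), smul_inv_smul]
      have a3 : ρ (e i • x i) (e i • x (i + 1)) = ρ (x i) (x (i + 1)) := F.inv _ _ _
      simp only [hee] at hI
      omega)
    simp only [h2, hee]

end RotFam

end Burn
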