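import Pool.Agent.W_MP_3ab0ed_burn.P3Chain

/-!
Burnside part, piece P3, file 4: the next mill, the exhaustion.
-/

namespace Burn

namespace RotFam

variable {G Z Γ : Type*} [Group G] [MulAction G Z] [MulAction G Γ]
  {ρ : Z → Z → ℕ} {δ S Th T : ℕ} (F : RotFam G Z Γ ρ δ S Th T)

/-- the next mill -/
def nx (W : Set Z) : Set Z := {z | ∃ a ∈ A F W, ρ z a ≤ 9 * δ}

variable {F}

theorem A_sub_nx (W : Set Z) : A F W ⊆ F.nx W :=
  fun a ha => ⟨a, ha, by rw [F.geo.self]; omega⟩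

theorem V_near_A {W : Set Z} {c : Z} (hc : c ∈ F.V)
    (h : ∃ a ∈ A F W, ρ c a ≤ 14 * δ) : c ∈ A F W := by
  obtain ⟨a, ⟨k, hk, u, hu, rfl⟩, h1⟩ := h
  have hcV' : k⁻¹ • c ∈ F.V := F.V_smul _ _ hc
  have e : ρ (k⁻¹ • c) u = ρ c (k • u) := by rw [← F.inv k, smul_inv_smul]
  have key : k⁻¹ • c ∈ F.W1 W := by
    rcases hu with hu | hu
    · by_cases h2 : k⁻¹ • c ∈ W
      · exact Or.inl h2
      · exact Or.inr ⟨hcV', h2, u, hu, by omega⟩
    · by_cases h2 : k⁻¹ • c = u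
      · rw [h2]; exact Or.inr hu
      · have := F.sep _ hcV' u (C1.V hu) h2
        have := F.hS
        omega
  exact ⟨k, hk, _, key, (smul_inv_smul k c).symm⟩

theorem nx_V {W : Set Z} {c : Z} (hc : c ∈ F.V) (h : c ∈ F.nx W) : c ∈ A F W := by
  obtain ⟨a, ha, h1⟩ := h
  exact V_near_A hc ⟨a, ha, by omega⟩

/-- apices of `A` generate nothing new -/
theorem H_A_le {W : Set Z} {c : Z} (hc : c ∈ F.V) (h : c ∈ A F W) :
    F.H c ≤ F.KK (F.W1 W) := by
  obtain ⟨k, hk, u, hu, rfl⟩ := h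
  have huV : u ∈ F.V := by
    have := F.V_smul k⁻¹ _ hc
    rwa [inv_smul_smul] at this
  intro g hg
  have h1 := F.H_conj _ hc k⁻¹ g hg
  rw [inv_smul_smul, inv_inv] at h1
  have h2 := F.H_le_KK huV hu h1
  have h3 := Subgroup.mul_mem _ (Subgroup.mul_mem _ hk h2) (Subgroup.inv_mem _ hk)
  have e : k * (k⁻¹ * g * k) * k⁻¹ = g := by group
  rwa [e] at h3

theorem KK_nx {W : Set Z} : F.KK (F.nx W) = F.KK (F.W1 W) := by
  apply le_antisymm
  · rw [KK, Subgroup.closure_le]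
    rintro g ⟨c, hc, hcW, hg⟩
    exact H_A_le hc (nx_V hc hcW) hg
  · exact F.KK_mono (fun x hx => A_sub_nx W (W1_sub_A W hx))

theorem nx_smul {W : Set Z} {k : G} (hk : k ∈ F.KK (F.W1 W)) {x : Z} (hx : x ∈ F.nx W) :
    k • x ∈ F.nx W := by
  obtain ⟨a, ha, h1⟩ := hx
  exact ⟨k • a, A_smul hk ha, by rw [F.inv]; exact h1⟩

/-- if `p` is `s + 9δ`-near `A`, then it is `s`-near the next mill -/
theorem near_nx {W : Set Z} {p a : Z} (ha : a ∈ A F W) {s : ℕ} (h : ρ p a ≤ s + 9 * δ) :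
    ∃ w ∈ F.nx W, ρ p w ≤ s := by
  by_cases h1 : ρ p a ≤ 9 * δ
  · exact ⟨p, ⟨a, ha, h1⟩, by rw [F.geo.self]; omega⟩
  · obtain ⟨z, h2, h3⟩ := step_towards F.geo (p := p) (a := a) (9 * δ) (by omega)
    exact ⟨z, ⟨a, ha, le_of_eq h3⟩, by omega⟩

theorem Mill.next {W : Set Z} (hW : F.Mill W) : F.Mill (F.nx W) where
  ne := by
    obtain ⟨w, hw⟩ := hW.ne
    exact ⟨w, A_sub_nx W (W1_sub_A W (Or.inl hw))⟩
  qc := by
    rintro x' ⟨x, hx, hxx⟩ y' ⟨y, hy, hyy⟩ p hp
    rcases ptripod F.geo F.hyp (e := 0) (le_of_eq hp) x with h | h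
    · obtain ⟨w, hw, hw1⟩ := near_nx (F := F) (s := δ) hx (p := p) (by omega)
      exact ⟨w, hw, by omega⟩
    · rcases ptripod F.geo F.hyp h y with h' | h'
      · exact near_nx (F := F) hy (p := p) (by omega)
      · obtain ⟨q, hq1, hq2⟩ := near_interval F.geo F.hyp h'
        obtain ⟨a, ha, ha1⟩ := A_qc hW hx hy hq1
        have := F.geo.tri p q a
        exact near_nx (F := F) ha (p := p) (by omega)
  st := by
    intro c hc hcW h hh x hx
    exact nx_smul (H_A_le hc (nx_V hc hcW) hh) hx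
  cl := by
    rintro c hc ⟨w, ⟨a, ha, ha1⟩, hw⟩
    apply A_sub_nx
    apply V_near_A hc
    have := F.geo.tri c w a
    exact ⟨a, ha, by omega⟩

theorem sub_nx (W : Set Z) : W ⊆ F.nx W :=
  fun _ hw => A_sub_nx W (W1_sub_A W (Or.inl hw))

theorem near_sub_nx {W : Set Z} {z : Z} (h : ∃ w ∈ W, ρ z w ≤ 1) : z ∈ F.nx W := by
  obtain ⟨w, hw, h1⟩ := h
  have := F.dpos
  exact ⟨w, W1_sub_A W (Or.inl hw), by omega⟩

/-- iterated mills -/
def it (F : RotFam G Z Γ ρ δ S Th T) (W : Set Z) : ℕ → Set Z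
  | 0 => W
  | n + 1 => F.nx (it F W n)

theorem it_mill {W : Set Z} (hW : F.Mill W) (n : ℕ) : F.Mill (it F W n) := by
  induction n with
  | zero => exact hW
  | succ n ih => exact ih.next

theorem it_mono (W : Set Z) {m n : ℕ} (h : m ≤ n) : it F W m ⊆ it F W n := by
  induction h with
  | refl => exact subset_rfl
  | step _ ih => exact ih.trans (sub_nx _)

theorem mem_it {W : Set Z} {x : Z} (hx : x ∈ W) (n : ℕ) :
    ∀ z, ρ x z ≤ n → z ∈ it F W n := by
  induction n with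
  | zero =>
    intro z hz
    have : x = z := F.geo.eq x z (by omega)
    subst this; exact hx
  | succ n ih =>
    intro z hz
    rcases Nat.lt_or_ge n (ρ x z) with h | h
    · obtain ⟨y, h1, h2⟩ := F.geo.geod x z n (by omega)
      exact near_sub_nx ⟨y, ih y (by omega), by rw [F.geo.symm]; omega⟩
    · exact it_mono W (Nat.le_succ n) (ih z h)

/-- the whole rotation group -/
def KA (F : RotFam G Z Γ ρ δ S Th T) : Subgroup G :=
  Subgroup.closure {g | ∃ c, c ∈ F.V ∧ g ∈ F.H c}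

theorem KK_le_KA (W : Set Z) : F.KK W ≤ KA F := by
  apply Subgroup.closure_mono
  rintro g ⟨c, hc, _, hg⟩
  exact ⟨c, hc, hg⟩

theorem mem_KA_iff {W : Set Z} (hW : W.Nonempty) {k : G} :
    k ∈ KA F ↔ ∃ n, k ∈ F.KK (it F W n) := by
  obtain ⟨x, hx⟩ := hW
  constructor
  · intro hk
    induction hk using Subgroup.closure_induction with
    | mem g hg =>
      obtain ⟨c, hc, hg⟩ := hg
      exact ⟨ρ x c, F.H_le_KK hc (mem_it hx _ c le_rfl) hg⟩
    | one => exact ⟨0, Subgroup.one_mem _⟩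
    | mul a b _ _ ha hb =>
      obtain ⟨m, hm⟩ := ha
      obtain ⟨n, hn⟩ := hb
      exact ⟨max m n, Subgroup.mul_mem _
        (F.KK_mono (it_mono W (le_max_left m n)) hm)
        (F.KK_mono (it_mono W (le_max_right m n)) hn)⟩
    | inv a _ ha =>
      obtain ⟨m, hm⟩ := ha
      exact ⟨m, Subgroup.inv_mem _ hm⟩
  · rintro ⟨n, hn⟩
    exact KK_le_KA _ hn

instance KA_normal (F : RotFam G Z Γ ρ δ S Th T) : (KA F).Normal where
  conj_mem := by
    intro k hk g
    induction hk using Subgroup.closure_induction with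
    | mem h hh =>
      obtain ⟨c, hc, hh⟩ := hh
      exact Subgroup.subset_closure ⟨g • c, F.V_smul g c hc, F.H_conj c hc g h hh⟩
    | one => simp
    | mul a b _ _ ha hb =>
      have : g * (a * b) * g⁻¹ = (g * a * g⁻¹) * (g * b * g⁻¹) := by group
      rw [this]; exact Subgroup.mul_mem _ ha hb
    | inv a _ ha =>
      have : g * a⁻¹ * g⁻¹ = (g * a * g⁻¹)⁻¹ := by group
      rw [this]; exact Subgroup.inv_mem _ ha

/-- the initial mills -/
theorem mill_point {x : Z} (h : ∀ c ∈ F.V, 5 * δ < ρ c x) : F.Mill {x} where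
  ne := ⟨x, rfl⟩
  qc := by
    rintro a ha b hb p hp
    rw [Set.mem_singleton_iff] at ha hb
    rw [ha, hb, F.geo.self] at hp
    exact ⟨x, rfl, by rw [F.geo.symm]; omega⟩
  st := by
    intro c hc hcx
    rw [Set.mem_singleton_iff] at hcx
    subst hcx
    have := h c hc
    rw [F.geo.self] at this
    omega
  cl := by
    rintro c hc ⟨w, hw, h1⟩
    rw [Set.mem_singleton_iff] at hw
    subst hw
    have := h c hc
    omega

theorem mill_ball {c : Z} (hc : c ∈ F.V) : F.Mill {z | ρ z c ≤ 5 * δ} where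
  ne := ⟨c, by simp [F.geo.self]⟩
  qc := by
    intro x hx y hy p hp
    change ρ x c ≤ 5 * δ at hx
    change ρ y c ≤ 5 * δ at hy
    have key : ρ p c ≤ 6 * δ := by
      rcases ptripod F.geo F.hyp (e := 0) (le_of_eq hp) c with h | h <;> omega
    by_cases h1 : ρ p c ≤ 5 * δ
    · exact ⟨p, h1, by rw [F.geo.self]; omega⟩
    · obtain ⟨z, h2, h3⟩ := step_towards F.geo (p := p) (a := c) (5 * δ) (by omega)
      exact ⟨z, le_of_eq h3, by omega⟩
  st := by
    intro c' hc' hc'W h hh x hx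
    change ρ c' c ≤ 5 * δ at hc'W
    change ρ x c ≤ 5 * δ at hx
    change ρ (h • x) c ≤ 5 * δ
    have : c' = c := by
      by_contra hne
      have := F.sep c' hc' c hc hne
      have := F.hS
      omega
    subst this
    have h1 : ρ (h • x) (h • c') = ρ x c' := F.inv _ _ _
    rw [F.H_fix c' hc' h hh] at h1
    omega
  cl := by
    rintro c' hc' ⟨w, hw, h1⟩
    change ρ w c ≤ 5 * δ at hw
    change ρ c' c ≤ 5 * δ
    have : c' = c := by
      by_contra hne
      have := F.sep c' hc' c hc hne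
      have := F.hS
      have := F.geo.tri c' w c
      omega
    subst this
    rw [F.geo.self]; omega

theorem KK_ball {c : Z} (hc : c ∈ F.V) {k : G} (hk : k ∈ F.KK {z | ρ z c ≤ 5 * δ}) :
    k ∈ F.H c := by
  have : F.KK {z | ρ z c ≤ 5 * δ} ≤ F.H c := by
    rw [KK, Subgroup.closure_le]
    rintro g ⟨c', hc', hc'W, hg⟩
    change ρ c' c ≤ 5 * δ at hc'W
    have : c' = c := by
      by_contra hne
      have := F.sep c' hc' c hc hne
      have := F.hS
      omega
    subst this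
    exact hg
  exact this hk

theorem KK_point {x : Z} (h : ∀ c ∈ F.V, 5 * δ < ρ c x) {k : G} (hk : k ∈ F.KK {x}) :
    k = 1 := by
  have : F.KK {x} ≤ ⊥ := by
    rw [KK, Subgroup.closure_le]
    rintro g ⟨c, hc, hcx, hg⟩
    rw [Set.mem_singleton_iff] at hcx
    subst hcx
    have := h c hc
    rw [F.geo.self] at this
    omega
  exact Subgroup.mem_bot.1 (this hk)

end RotFam

end Burn
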