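import Pool.Agent.W_MP_3ab0ed_burn.Basic

/-!
The path metric of a symmetric relation.
-/

namespace Burn

variable {Z : Type*}

/-- chains of length `n` -/
def Chn (S : Z → Z → Prop) : ℕ → Z → Z → Prop
  | 0, u, v => u = v
  | n + 1, u, v => ∃ w, S u w ∧ Chn S n w v

/-- length of a shortest chain (0 if there is none) -/
noncomputable def rdist (S : Z → Z → Prop) (u v : Z) : ℕ := sInf {n | Chn S n u v}

theorem Chn.trans {S : Z → Z → Prop} {m n : ℕ} {u v w : Z} (h1 : Chn S m u v) (h2 : Chn S n v w) :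
    Chn S (m + n) u w := by
  induction m generalizing u with
  | zero =>
    have : u = v := h1
    subst this
    simpa using h2
  | succ m ih =>
    obtain ⟨a, ha, hb⟩ := h1
    rw [show m + 1 + n = (m + n) + 1 by omega]
    exact ⟨a, ha, ih hb⟩

theorem Chn.one {S : Z → Z → Prop} {u v : Z} (h : S u v) : Chn S 1 u v := ⟨v, h, rfl⟩

theorem Chn.symm {S : Z → Z → Prop} (hS : ∀ u v, S u v → S v u) {n : ℕ} {u v : Z}
    (h : Chn S n u v) : Chn S n v u := by
  induction n generalizing u with
  | zero =>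
    have : u = v := h
    exact this.symm
  | succ n ih =>
    obtain ⟨a, ha, hb⟩ := h
    exact (ih hb).trans (Chn.one (hS _ _ ha))

theorem Chn.split {S : Z → Z → Prop} {n : ℕ} {u v : Z} (h : Chn S n u v) {k : ℕ} (hk : k ≤ n) :
    ∃ w, Chn S k u w ∧ Chn S (n - k) w v := by
  induction k generalizing n u with
  | zero => exact ⟨u, rfl, by simpa using h⟩
  | succ k ih =>
    obtain ⟨n, rfl⟩ : ∃ m, n = m + 1 := ⟨n - 1, by omega⟩
    obtain ⟨a, ha, hb⟩ := h
    obtain ⟨w, hw1, hw2⟩ := ih hb (by omega)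
    refine ⟨w, ⟨a, ha, hw1⟩, ?_⟩
    rw [show n + 1 - (k + 1) = n - k by omega]
    exact hw2

theorem rdist_le {S : Z → Z → Prop} {n : ℕ} {u v : Z} (h : Chn S n u v) : rdist S u v ≤ n :=
  Nat.sInf_le h

theorem rdist_chn {S : Z → Z → Prop} (hc : ∀ u v, ∃ n, Chn S n u v) (u v : Z) :
    Chn S (rdist S u v) u v := Nat.sInf_mem (s := {n | Chn S n u v}) (hc u v)

theorem rdist_step {S : Z → Z → Prop} {u v : Z} (h : S u v) : rdist S u v ≤ 1 :=
  rdist_le (Chn.one h)

theorem isGeod_rdist {S : Z → Z → Prop} (hS : ∀ u v, S u v → S v u)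
    (hc : ∀ u v, ∃ n, Chn S n u v) : IsGeod (rdist S) where
  self u := Nat.le_zero.mp (rdist_le (n := 0) rfl)
  eq u v h := by
    have := rdist_chn hc u v
    rw [h] at this
    exact this
  symm u v := le_antisymm (rdist_le (Chn.symm hS (rdist_chn hc v u)))
    (rdist_le (Chn.symm hS (rdist_chn hc u v)))
  tri u v w := rdist_le ((rdist_chn hc u v).trans (rdist_chn hc v w))
  geod u v k hk := by
    obtain ⟨w, h1, h2⟩ := (rdist_chn hc u v).split hk
    have t : rdist S u v ≤ rdist S u w + rdist S w v :=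
      rdist_le ((rdist_chn hc u w).trans (rdist_chn hc w v))
    have a1 := rdist_le h1
    have a2 := rdist_le h2
    exact ⟨w, by omega, by omega⟩

theorem rdist_one {S : Z → Z → Prop} (hc : ∀ u v, ∃ n, Chn S n u v) {u v : Z}
    (h : rdist S u v = 1) : S u v := by
  have := rdist_chn hc u v
  rw [h] at this
  obtain ⟨w, hw, hw2⟩ := this
  have : w = v := hw2
  exact this ▸ hw

/-- a function which changes by at most one along a step is Lipschitz -/
theorem lip_chn {S : Z → Z → Prop} (f : Z → ℕ) (hf : ∀ u v, S u v → f v ≤ f u + 1) {n : ℕ}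
    {u v : Z} (h : Chn S n u v) : f v ≤ f u + n := by
  induction n generalizing u with
  | zero =>
    have : u = v := h
    subst this
    simp
  | succ n ih =>
    obtain ⟨a, ha, hb⟩ := h
    have h1 := hf _ _ ha
    have h2 := ih hb
    omega

theorem lip_rdist {S : Z → Z → Prop} (hc : ∀ u v, ∃ n, Chn S n u v) (f : Z → ℕ)
    (hf : ∀ u v, S u v → f v ≤ f u + 1) (u v : Z) : f v ≤ f u + rdist S u v :=
  lip_chn f hf (rdist_chn hc u v)

/-- a path of an integer geodesic metric is a chain for the relation of being at distance at most one -/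
theorem chn_of_isGeod {X : Type*} {d : X → X → ℕ} (hd : IsGeod d) (x y : X) :
    Chn (fun a b => d a b ≤ 1) (d x y) x y := by
  obtain ⟨g, g0, gm, hg⟩ := exists_geodSeq hd x y
  have key : ∀ k i, i + k ≤ d x y → Chn (fun a b => d a b ≤ 1) k (g i) (g (i + k)) := by
    intro k
    induction k with
    | zero => intro i _; rfl
    | succ k ih =>
      intro i hi
      refine ⟨g (i + 1), ?_, ?_⟩
      · show d (g i) (g (i + 1)) ≤ 1
        rw [hg i (i + 1) (by omega) (by omega)]; omega
      · have := ih (i + 1) (by omega)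
        rwa [show i + 1 + k = i + (k + 1) by omega] at this
  have := key (d x y) 0 (by omega)
  rw [g0, Nat.zero_add, gm] at this
  exact this

end Burn
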