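import Pool.Agent.W_MP_3ab0ed_burn.Guess

/-!
Thinness of the triangles of guess sets.
-/

namespace Burn

namespace Cone

variable {X V : Type*} {Y : V → Set X} {R : ℕ} {d : X → X → ℕ} {y0 : V → X}

theorem foot_mem (hF : Fam d Y 2 2) {C : V} {u v : Cone Y R} (h : 10 ≤ LC d y0 C u v) :
    col C (bC d y0 C u) (bC_mem hF C u) (kC C u) ∈ Ag d y0 u v :=
  Or.inr (Or.inr (Or.inr ⟨C, h, Or.inl ⟨kC C u, bC_mem hF C u, le_rfl, kC_le_LC C u v, rfl⟩⟩))

theorem foot_mem' (hF : Fam d Y 2 2) {C : V} {u v : Cone Y R} (h : 10 ≤ LC d y0 C u v) :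
    col C (bC d y0 C v) (bC_mem hF C v) (kC C v) ∈ Ag d y0 u v :=
  Or.inr (Or.inr (Or.inr ⟨C, h, Or.inr ⟨kC C v, bC_mem hF C v, le_rfl, kC_le_LC' C u v, rfl⟩⟩))

theorem thinI_half (hd : IsGeod d) (hh : Hyp d 2) (hF : Fam d Y 2 2) (hy0 : ∀ C, y0 C ∈ Y C)
    {u1 u2 u3 : Cone Y R} {p : X} (hp : Shallow d y0 u1 u2 p)
    (hb : Btw d 2 (base y0 u1) p (base y0 u3)) :
    ∃ b, (b ∈ Ag d y0 u1 u3 ∨ b ∈ Ag d y0 u2 u3) ∧ rho d (pt p) b ≤ 5120 := by
  obtain ⟨p', hp1, _, hp3⟩ := exists_near_of_btw hd hh hb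
  by_cases hD : ∃ C, Deep d y0 C u1 u3 p'
  · obtain ⟨C, hD⟩ := hD
    have hrel := hD.rel hd hh hF hy0
    have hn := ((hD.near hd hh hF hy0).trans hd hp3).mono (show 44 + (2 + 2) ≤ 49 by norm_num)
    have hnd := hp.2 C
    by_cases h1 : SC d y0 C u1 p < 1536
    · exact ⟨_, Or.inl (foot_mem hF hrel), (near_foot hd hF h1).trans (by norm_num)⟩
    · by_cases h2 : SC d y0 C u2 p < 1536
      · by_cases h3 : SC d y0 C u3 p < 5120
        · exact ⟨_, Or.inl (foot_mem' hF hrel), near_foot hd hF h3⟩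
        · have h4 : 10 ≤ LC d y0 C u2 u3 := by
            apply ten_le_LC
            by_contra hcon
            push Not at hcon
            obtain ⟨c1, c2, c3⟩ := hcon
            have c4 := two_pow_le_512 (k := kC C u3) (by omega)
            have c5 : 0 < 2 ^ kC C u2 := Nat.two_pow_pos _
            unfold SC at h2 h3
            have t1 := hd.tri p (bC d y0 C u2) (bC d y0 C u3)
            omega
          exact ⟨_, Or.inr (foot_mem hF h4), (near_foot hd hF h2).trans (by norm_num)⟩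
      · exact absurd ⟨hp.1, hn, not_lt.mp h1, not_lt.mp h2⟩ hnd
  · push Not at hD
    exact ⟨pt p', Or.inl (Or.inr (Or.inr (Or.inl ⟨p', ⟨hp1, hD⟩, rfl⟩))),
      (rho_pt_pt hd p p').trans (by omega)⟩

theorem thinI (hd : IsGeod d) (hh : Hyp d 2) (hF : Fam d Y 2 2) (hy0 : ∀ C, y0 C ∈ Y C)
    {u1 u2 : Cone Y R} {p : X} (hp : Shallow d y0 u1 u2 p) (u3 : Cone Y R) :
    ∃ b, (b ∈ Ag d y0 u1 u3 ∨ b ∈ Ag d y0 u2 u3) ∧ rho d (pt p) b ≤ 5120 := by
  have h0 : Btw d 0 (base y0 u1) p (base y0 u2) := by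
    have := hp.1
    unfold Btw
    omega
  rcases tripod hd hh h0 (base y0 u3) with h | h
  · exact thinI_half hd hh hF hy0 hp (h.mono (by norm_num))
  · obtain ⟨b, hb, hb2⟩ := thinI_half hd hh hF hy0 (hp.symm hd) (h.mono (by norm_num))
    exact ⟨b, hb.symm, hb2⟩

theorem ultra (hd : IsGeod d) (C : V) (u1 u2 u3 : Cone Y R) :
    LC d y0 C u1 u2 ≤ max (LC d y0 C u1 u3) (LC d y0 C u2 u3) + 1 := by
  have h1 := kC_le_LC (d := d) (y0 := y0) C u1 u3
  have h2 := kC_le_LC (d := d) (y0 := y0) C u2 u3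
  have h3 := dist_le_LC (d := d) (y0 := y0) C u1 u3
  have h4 := dist_le_LC (d := d) (y0 := y0) C u2 u3
  set L13 := LC d y0 C u1 u3
  set L23 := LC d y0 C u2 u3
  have h5 : Nat.clog 2 (d (bC d y0 C u1) (bC d y0 C u2)) ≤ max L13 L23 + 1 := by
    apply Nat.clog_le_of_le_pow
    have t := hd.tri (bC d y0 C u1) (bC d y0 C u3) (bC d y0 C u2)
    have s := hd.symm (bC d y0 C u3) (bC d y0 C u2)
    have e1 := Nat.pow_le_pow_right (n := 2) (by norm_num) (le_max_left L13 L23)
    have e2 := Nat.pow_le_pow_right (n := 2) (by norm_num) (le_max_right L13 L23)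
    rw [pow_succ]
    omega
  have h6 : LC d y0 C u1 u2 = max (max (kC C u1) (kC C u2))
    (Nat.clog 2 (d (bC d y0 C u1) (bC d y0 C u2))) := rfl
  omega

theorem thinII_half (hd : IsGeod d) (hh : Hyp d 2) (hF : Fam d Y 2 2) (hy0 : ∀ C, y0 C ∈ Y C)
    {C : V} {u1 u2 : Cone Y R} (hr : 10 ≤ LC d y0 C u1 u2) {w : Cone Y R}
    (hw : InV d y0 C u1 (LC d y0 C u1 u2) w) (u3 : Cone Y R) :
    ∃ b, (b ∈ Ag d y0 u1 u3 ∨ b ∈ Ag d y0 u2 u3) ∧ rho d w b ≤ 5154 := by
  have hg := isGeod_rho (R := R) (Y := Y) hd hF.ne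
  obtain ⟨j, hy, hj1, hj2, rfl⟩ := hw
  have hU := ultra (d := d) (y0 := y0) hd C u1 u2 u3
  have k1 := kC_le_LC (d := d) (y0 := y0) C u1 u3
  have k3 := kC_le_LC' (d := d) (y0 := y0) C u1 u3
  have k2 := kC_le_LC (d := d) (y0 := y0) C u2 u3
  have k3' := kC_le_LC' (d := d) (y0 := y0) C u2 u3
  have hD13 := dist_le_LC (d := d) (y0 := y0) C u1 u3
  by_cases hA : 10 ≤ LC d y0 C u1 u3
  · by_cases hB : LC d y0 C u1 u2 ≤ LC d y0 C u1 u3 + 1
    · -- (a)
      refine ⟨col C (bC d y0 C u1) hy (min j (LC d y0 C u1 u3)), Or.inl ?_, ?_⟩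
      · exact Or.inr (Or.inr (Or.inr ⟨C, hA, Or.inl ⟨_, hy, by omega, min_le_right _ _, rfl⟩⟩))
      · rw [hg.symm]
        exact (rho_col_le C _ hy (min_le_left _ _)).trans (by omega)
    · -- (b)
      by_cases hj : j ≤ LC d y0 C u1 u3
      · refine ⟨col C (bC d y0 C u1) hy j, Or.inl ?_, ?_⟩
        · exact Or.inr (Or.inr (Or.inr ⟨C, hA, Or.inl ⟨_, hy, hj1, hj, rfl⟩⟩))
        · rw [hg.self]; norm_num
      · refine ⟨col C (bC d y0 C u3) (bC_mem hF C u3) (min j (LC d y0 C u2 u3)), Or.inr ?_, ?_⟩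
        · exact Or.inr (Or.inr (Or.inr ⟨C, by omega, Or.inr ⟨_, bC_mem hF C u3, by omega,
            min_le_right _ _, rfl⟩⟩))
        · have e1 := rho_col_le (R := R) (d := d) C _ hy (min_le_left j (LC d y0 C u2 u3))
          rw [hg.symm] at e1
          have e2 := rho_hor_le (R := R) (d := d) hy (bC_mem hF C u3)
            (j := min j (LC d y0 C u2 u3))
            (hD13.trans (Nat.pow_le_pow_right (by norm_num) (by omega)))
          have e3 := hg.tri (col C (bC d y0 C u1) hy j)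
            (col C (bC d y0 C u1) hy (min j (LC d y0 C u2 u3)))
            (col C (bC d y0 C u3) (bC_mem hF C u3) (min j (LC d y0 C u2 u3)))
          omega
  · by_cases hB : 10 ≤ LC d y0 C u2 u3
    · -- (c)
      set j' := min (max j 10) (LC d y0 C u2 u3) with hj'
      refine ⟨col C (bC d y0 C u3) (bC_mem hF C u3) j', Or.inr ?_, ?_⟩
      · exact Or.inr (Or.inr (Or.inr ⟨C, hB, Or.inr ⟨_, bC_mem hF C u3, by omega,
            min_le_right _ _, rfl⟩⟩))
      · have e1 : rho d (col C (bC d y0 C u1) hy j : Cone Y R) (col C (bC d y0 C u1) hy j') ≤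
            10 := by
          rcases le_total j j' with h | h
          · exact (rho_col_le C _ hy h).trans (by omega)
          · rw [hg.symm]
            exact (rho_col_le C _ hy h).trans (by omega)
        have e2 := rho_hor_le (R := R) (d := d) hy (bC_mem hF C u3) (j := j')
            (hD13.trans (Nat.pow_le_pow_right (by norm_num) (by omega)))
        have e3 := hg.tri (col C (bC d y0 C u1) hy j)
            (col C (bC d y0 C u1) hy j')
            (col C (bC d y0 C u3) (bC_mem hF C u3) j')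
        omega
    · -- (d)
      have hL : LC d y0 C u1 u2 = 10 := by omega
      have hD12 : 512 < d (bC d y0 C u1) (bC d y0 C u2) := by
        by_contra hcon
        have h1 : Nat.clog 2 (d (bC d y0 C u1) (bC d y0 C u2)) ≤ 9 :=
          Nat.clog_le_of_le_pow (by norm_num; omega)
        have h6 : LC d y0 C u1 u2 = max (max (kC C u1) (kC C u2))
          (Nat.clog 2 (d (bC d y0 C u1) (bC d y0 C u2))) := rfl
        omega
      have hP := proj4 hd hh (hF.ne C) (hF.qc C) (base y0 u1) (base y0 u2) (by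
        show 4 * 2 + 5 * 2 + 2 < 2 * d (bC d y0 C u1) (bC d y0 C u2)
        omega)
      have hP2 := proj2 hd hh (hF.ne C) (hF.qc C) (base y0 u1) (base y0 u2) (by
        show 4 * 2 + 5 * 2 + 2 < 2 * d (bC d y0 C u1) (bC d y0 C u2)
        omega)
      have hP2' : d (base y0 u1) (bC d y0 C u1) + d (bC d y0 C u1) (bC d y0 C u2) +
        d (bC d y0 C u2) (base y0 u2) ≤ d (base y0 u1) (base y0 u2) + 20 := hP2
      obtain ⟨z, hz1, hz2, hz3⟩ := exists_near_of_btw hd hh hP
      have hz2' : d (base y0 u1) z = min (d (base y0 u1) (bC d y0 C u1))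
        (d (base y0 u1) (base y0 u2)) := hz2
      have hz3' : d (bC d y0 C u1) z ≤ 22 := hz3
      have hsh : Shallow d y0 u1 u2 z := by
        refine ⟨hz1, ?_⟩
        intro C' hDeep
        by_cases hCC : C' = C
        · subst hCC
          have h1 := hDeep.2.2.1
          unfold SC at h1
          have h2 := two_pow_le_512 (k := kC C' u1) (by omega)
          have s := hd.symm z (bC d y0 C' u1)
          omega
        · have a2 := (hDeep.symm hd).btw hd hh hF hy0
          have a1 : Btw d 42 (base y0 u2) (bC d y0 C u2) z := by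
            unfold Btw
            have t1 := hd.tri (bC d y0 C u2) (bC d y0 C u1) z
            have s1 := hd.symm (bC d y0 C u2) (bC d y0 C u1)
            have s2 := hd.symm (base y0 u2) (bC d y0 C u2)
            have s3 := hd.symm (base y0 u2) z
            omega
          have key := overlap_lemma (M := 2) (e := 42) (s := 44) hd hh (hF.qc C) (hF.qc C')
            (hF.ov C C' (fun h => hCC h.symm)) (bC_mem hF C u2) (bC_mem hF C' u2) a1
            (a2.mono (by norm_num))
            ⟨bC d y0 C u1, bC_mem hF C u1, by rw [hd.symm]; omega⟩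
            (hDeep.near hd hh hF hy0)
          have b1 : 490 < d z (bC d y0 C u2) := by
            have t1 := hd.tri (bC d y0 C u1) z (bC d y0 C u2)
            omega
          have b2 : 236 < d z (bC d y0 C' u2) := by
            rcases Nat.eq_zero_or_pos (kC C' u2) with c1 | c1
            · have h1 := hDeep.2.2.2
              unfold SC at h1
              rw [c1, pow_zero] at h1
              omega
            · rw [bC_eq (d := d) hd hy0 c1]
              have s3 := hd.symm (bC d y0 C u2) (base y0 u2)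
              omega
          omega
      obtain ⟨b, hb, hb2⟩ := thinI hd hh hF hy0 hsh u3
      refine ⟨b, hb, ?_⟩
      have e1 : rho d (col C (bC d y0 C u1) hy j : Cone Y R) (pt (bC d y0 C u1)) ≤ 10 := by
        rw [hg.symm, ← col_zero C _ hy]
        exact (rho_col_le C _ hy (Nat.zero_le j)).trans (by omega)
      have e2 := rho_pt_pt (Y := Y) (R := R) hd (bC d y0 C u1) z
      have e3 := hg.tri (col C (bC d y0 C u1) hy j) (pt (bC d y0 C u1)) b
      have e4 := hg.tri (pt (bC d y0 C u1)) (pt z) b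
      omega

/-- THIN: triangles of guess sets are thin -/
theorem thin (hd : IsGeod d) (hh : Hyp d 2) (hF : Fam d Y 2 2) (hy0 : ∀ C, y0 C ∈ Y C)
    (u1 u2 u3 w : Cone Y R) (hw : w ∈ Ag d y0 u1 u2) :
    ∃ b, (b ∈ Ag d y0 u1 u3 ∨ b ∈ Ag d y0 u3 u2) ∧ rho d w b ≤ 5154 := by
  have hg := isGeod_rho (R := R) (Y := Y) hd hF.ne
  rw [Ag_symm hd u3 u2]
  rcases hw with rfl | rfl | ⟨p, hp, rfl⟩ | ⟨C, hC, h | h⟩
  · exact ⟨w, Or.inl (Or.inl rfl), by rw [hg.self]; norm_num⟩
  · exact ⟨w, Or.inr (Or.inl rfl), by rw [hg.self]; norm_num⟩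
  · obtain ⟨b, hb, hb2⟩ := thinI hd hh hF hy0 hp u3
    exact ⟨b, hb, hb2.trans (by norm_num)⟩
  · exact thinII_half hd hh hF hy0 hC h u3
  · rw [LC_symm hd] at hC h
    obtain ⟨b, hb, hb2⟩ := thinII_half hd hh hF hy0 hC h u3
    exact ⟨b, hb.symm, hb2⟩

end Cone

end Burn
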